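import Pool.Agent.Lib.P28e.AvgSmooth

set_option autoImplicit false

/-!
# The derivative of the average is close to `M`

PROOF SKETCH. Put `V = vol (closedBall 0 1)`, `ρ = s * rad z`, `0 < ρ ≤ ‖z‖ / 8` (`rad_le`, `norm_le_rad`).
(a) For `v` fixed, `fderiv ℝ (Avg Φ s) z v = V⁻¹ ∫ η in closedBall 0 1, fderiv ℝ Φ (z + ρ • η) (v + (s * fderiv ℝ rad z v) • η)`:
differentiate under the integral sign (`hasFDerivAt_integral_of_dominated_of_fderiv_le` or `hasDerivAt_integral_of_dominated_loc_of_deriv_le` along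
`t ↦ z + t • v`; the points `z + t v + (s rad (z + t v)) η`, `|t|` small, `‖η‖ ≤ 1`, stay in a compact set avoiding `0`).
(b) `|s * fderiv ℝ rad z v| ≤ ‖v‖ / 8`, because `|rad (z + h) - rad z| ≤ rad h ≤ (n + 1) ‖h‖` (`rad` is the Euclidean norm) and `s ≤ sm n`.
(c) `M⁻¹ (fderiv ℝ (Avg Φ s) z v) - v = V⁻¹ ∫ (M⁻¹ dΦ_{z + ρ η} - 1) (v + t η) dη + V⁻¹ ∫ t η dη`, `t = s * fderiv rad z v`, and the last integral vanishes (`η ↦ -η`).
Norm at most `V⁻¹ ∫ ‖M⁻¹ dΦ_{z + ρ η} - 1‖ (1 + 1/8) ‖v‖ dη ≤ (9/8) ε ‖v‖`, by the substitution `x = z + ρ η` in the hypothesis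
(`Measure.addHaar_closedBall`, `setLIntegral`/`integral_comp_smul`, translation invariance).
-/

open MeasureTheory Set Metric
open scoped ENNReal NNReal ContDiff Topology

namespace Pool.Agent.Lib.P28e

open Pool.Agent.P28b04d

variable {n : ℕ} {Φ : W n → W n}

namespace Close46

theorem hasFDerivAt_param {E F G : Type} [NormedAddCommGroup E] [NormedSpace ℝ E]
    [FiniteDimensional ℝ E] [NormedAddCommGroup F] [NormedSpace ℝ F] [FiniteDimensional ℝ F]
    [MeasurableSpace F] [BorelSpace F] [NormedAddCommGroup G] [NormedSpace ℝ G]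
    [FiniteDimensional ℝ G] (μ : Measure F) [IsFiniteMeasureOnCompacts μ] {Ω : Set E} {O K : Set F}
    (hΩ : IsOpen Ω) (hO : IsOpen O) (hK : IsCompact K) (hKO : K ⊆ O) {Ψ : E × F → G}
    (hΨ : ContDiffOn ℝ ∞ Ψ (Ω ×ˢ O)) {z₀ : E} (hz₀ : z₀ ∈ Ω) :
    IntegrableOn (fun η => (fderiv ℝ Ψ (z₀, η)).comp (ContinuousLinearMap.inl ℝ E F)) K μ ∧
    HasFDerivAt (fun z => ∫ η in K, Ψ (z, η) ∂μ)
      (∫ η in K, (fderiv ℝ Ψ (z₀, η)).comp (ContinuousLinearMap.inl ℝ E F) ∂μ) z₀ := by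
  have hopen : IsOpen (Ω ×ˢ O) := hΩ.prod hO
  set Ψ' : E × F → E →L[ℝ] G := fun p => (fderiv ℝ Ψ p).comp (ContinuousLinearMap.inl ℝ E F)
    with hΨ'
  have hder' : ContinuousOn Ψ' (Ω ×ˢ O) := by
    have h1 := hΨ.continuousOn_fderiv_of_isOpen hopen (by simp)
    exact h1.clm_comp continuousOn_const
  obtain ⟨r, hr, hrΩ⟩ := nhds_basis_closedBall.mem_iff.1 (hΩ.mem_nhds hz₀)
  have hc : IsCompact (closedBall z₀ r ×ˢ K) := (isCompact_closedBall z₀ r).prod hK
  obtain ⟨C, hC⟩ := hc.exists_bound_of_continuousOn (hder'.mono (prod_mono hrΩ hKO))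
  have hfin : IsFiniteMeasure (μ.restrict K) := ⟨by
    rw [Measure.restrict_apply_univ]; exact hK.measure_lt_top⟩
  have hslice' : ContinuousOn (fun η => Ψ' (z₀, η)) K :=
    hder'.comp (Continuous.prodMk_right z₀).continuousOn (fun η hη => ⟨hz₀, hKO hη⟩)
  have hslice : ∀ z ∈ Ω, ContinuousOn (fun η => Ψ (z, η)) K := fun z hz =>
    hΨ.continuousOn.comp (Continuous.prodMk_right z).continuousOn (fun η hη => ⟨hz, hKO hη⟩)
  refine ⟨hslice'.integrableOn_compact hK, ?_⟩
  refine hasFDerivAt_integral_of_dominated_of_fderiv_le (bound := fun _ => C)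
    (F' := fun z η => Ψ' (z, η)) (closedBall_mem_nhds z₀ hr) ?_ ?_ ?_ ?_ ?_ ?_
  · filter_upwards [hΩ.mem_nhds hz₀] with z hz using
      (hslice z hz).aestronglyMeasurable hK.measurableSet
  · exact (hslice z₀ hz₀).integrableOn_compact hK
  · exact hslice'.aestronglyMeasurable hK.measurableSet
  · rw [ae_restrict_iff' hK.measurableSet]
    exact Filter.Eventually.of_forall fun η hη z hz => hC (z, η) ⟨hz, hη⟩
  · exact integrable_const C
  · rw [ae_restrict_iff' hK.measurableSet]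
    refine Filter.Eventually.of_forall fun η hη z hz => ?_
    have h2 : HasFDerivAt Ψ (fderiv ℝ Ψ (z, η)) (z, η) :=
      ((hΨ.differentiableOn (by simp)).differentiableAt
        (hopen.mem_nhds ⟨hrΩ hz, hKO hη⟩)).hasFDerivAt
    exact h2.comp z (hasFDerivAt_prodMk_left z η)

theorem rad_eq (z : W n) : rad z = ‖(WithLp.toLp 2 z : EuclideanSpace ℂ (Fin (n + 1)))‖ := by
  rw [EuclideanSpace.norm_eq]
  unfold rad nsq
  congr 1
  apply Finset.sum_congr rfl
  intro k _
  rw [Complex.normSq_eq_norm_sq]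

theorem rad_lipschitz : LipschitzWith ((n : ℝ≥0) + 1) (fun z : W n => rad z) := by
  apply LipschitzWith.of_dist_le_mul
  intro z w
  rw [Real.dist_eq, rad_eq, rad_eq, dist_eq_norm]
  refine (abs_norm_sub_norm_le _ _).trans ?_
  rw [← WithLp.toLp_sub, ← rad_eq]
  push_cast
  exact rad_le (z - w)

theorem rad_pos {z : W n} (hz : z ≠ 0) : 0 < rad z :=
  (norm_pos_iff.2 hz).trans_le (norm_le_rad z)

theorem sm_pos : 0 < sm n := by unfold sm; positivity

theorem sm_mul : sm n * ((n : ℝ) + 1) = 1 / 8 := by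
  unfold sm
  have : (n : ℝ) + 1 ≠ 0 := by positivity
  field_simp

theorem fderiv_rad_le {s : ℝ} (hs0 : 0 < s) (hs : s ≤ sm n) (z v : W n) :
    |s * fderiv ℝ (fun z : W n => rad z) z v| ≤ ‖v‖ / 8 := by
  have h1 : ‖fderiv ℝ (fun z : W n => rad z) z‖ ≤ ((n : ℝ≥0) + 1 : ℝ≥0) :=
    norm_fderiv_le_of_lipschitz ℝ rad_lipschitz
  push_cast at h1
  have h2 := (fderiv ℝ (fun z : W n => rad z) z).le_opNorm v
  rw [Real.norm_eq_abs] at h2
  rw [abs_mul, abs_of_pos hs0]
  calc s * |fderiv ℝ (fun z : W n => rad z) z v| ≤ sm n * (((n : ℝ) + 1) * ‖v‖) := by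
        apply mul_le_mul hs _ (abs_nonneg _) sm_pos.le
        exact h2.trans (mul_le_mul_of_nonneg_right h1 (norm_nonneg _))
    _ = ‖v‖ / 8 := by rw [← mul_assoc, sm_mul]; ring

/-- The mean of the derivative over the unit ball. -/
theorem mean_le (h : HLoc Φ) {z : W n} {ρ : ℝ} (hρ : 0 < ρ) {ε : ℝ} {M : (EndW n)ˣ}
    (hM : Good Φ z ρ ε M) :
    ∫⁻ η in closedBall (0 : W n) 1, ‖(↑M⁻¹ : EndW n) * fderiv ℝ Φ (z + ρ • η) - 1‖ₑ ≤
      ENNReal.ofReal ε * volume (closedBall (0 : W n) 1) := by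
  have hρ' : (ρ : ℂ) ≠ 0 := by exact_mod_cast hρ.ne'
  have hρn : ‖(ρ : ℂ)‖ = ρ := by rw [Complex.norm_real, Real.norm_eq_abs, abs_of_pos hρ]
  have hmeas := measurable_fderiv_sub h (↑M⁻¹ : EndW n)
  have h1 := Hom46.ball_iff hρ' (g := fun x => ‖(↑M⁻¹ : EndW n) * fderiv ℝ Φ (z + x) - 1‖ₑ)
    (hmeas.comp (measurable_const_add z)) 0 1 (ENNReal.ofReal ε)
  rw [hρn, mul_one, smul_zero] at h1
  have h2 : ∫⁻ x in closedBall (0 : W n) ρ, ‖(↑M⁻¹ : EndW n) * fderiv ℝ Φ (z + x) - 1‖ₑ ≤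
      ENNReal.ofReal ε * volume (closedBall (0 : W n) ρ) := by
    have hpre : (fun x : W n => z + x) ⁻¹' closedBall z ρ = closedBall 0 ρ := by
      ext y
      simp [mem_closedBall, dist_eq_norm]
    have h3 := (measurePreserving_add_left (volume : Measure (W n)) z).setLIntegral_comp_preimage
      (measurableSet_closedBall (x := z) (ε := ρ)) hmeas
    rw [hpre] at h3
    have h4 : volume (closedBall (0 : W n) ρ) = volume (closedBall z ρ) := by
      rw [← hpre]
      exact (measurePreserving_add_left (volume : Measure (W n)) z).measure_preimage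
        measurableSet_closedBall.nullMeasurableSet
    rw [h3, h4]
    exact hM
  have h3 := h1.1 h2
  refine le_trans (le_of_eq ?_) h3
  apply setLIntegral_congr_fun measurableSet_closedBall
  intro η _
  show _ = ‖(↑M⁻¹ : EndW n) * fderiv ℝ Φ (z + (ρ : ℂ) • η) - 1‖ₑ
  rw [← Hom46.smul_real]

theorem integral_ball_id : ∫ η in closedBall (0 : W n) 1, η = 0 := by
  have h1 : ∫ η in closedBall (0 : W n) 1, η = ∫ η in closedBall (0 : W n) 1, -η := by
    have hpre : (fun η : W n => -η) ⁻¹' closedBall 0 1 = closedBall 0 1 := by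
      ext η
      simp
    have h2 := (Measure.measurePreserving_neg (volume : Measure (W n))).setIntegral_preimage_emb
      (MeasurableEquiv.neg (W n)).measurableEmbedding (fun η => η) (closedBall 0 1)
    rw [hpre] at h2
    exact h2.symm
  rw [integral_neg] at h1
  exact self_eq_neg.1 h1

theorem smooth_joint (h : HLoc Φ) {s : ℝ} (hs : |s| < 2 * sm n) :
    ContDiffOn ℝ ∞ (fun q : W n × W n => Φ (q.1 + (s * rad q.1) • q.2))
      (({0}ᶜ : Set (W n)) ×ˢ ball (0 : W n) 2) := by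
  have hr : ContDiffOn ℝ ∞ (fun q : W n × W n => rad q.1)
      (({0}ᶜ : Set (W n)) ×ˢ ball (0 : W n) 2) :=
    AvgSmoothAux.rad_smooth.comp contDiff_fst.contDiffOn (fun q hq => hq.1)
  have h0 : ContDiffOn ℝ ∞ (fun q : W n × W n => q.1 + (s * rad q.1) • q.2)
      (({0}ᶜ : Set (W n)) ×ˢ ball (0 : W n) 2) :=
    contDiff_fst.contDiffOn.add ((contDiffOn_const.mul hr).smul contDiff_snd.contDiffOn)
  apply h.smooth.comp h0
  rintro ⟨z, η⟩ ⟨hz, hη⟩
  rw [mem_ball_zero_iff] at hη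
  exact AvgSmoothAux.ne_zero_of_mem hs hz hη

theorem fderiv_slice (h : HLoc Φ) {z : W n} (hz : z ≠ 0) {s : ℝ} (hs : |s| < 2 * sm n) {η : W n}
    (hη : ‖η‖ < 2) (v : W n) :
    (fderiv ℝ (fun q : W n × W n => Φ (q.1 + (s * rad q.1) • q.2)) (z, η)).comp
      (ContinuousLinearMap.inl ℝ (W n) (W n)) v =
    fderiv ℝ Φ (z + (s * rad z) • η) (v + (s * fderiv ℝ (fun z : W n => rad z) z v) • η) := by
  have hopen : IsOpen (({0}ᶜ : Set (W n)) ×ˢ ball (0 : W n) 2) :=
    isOpen_compl_singleton.prod isOpen_ball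
  have hmem : (z, η) ∈ (({0}ᶜ : Set (W n)) ×ˢ ball (0 : W n) 2) := ⟨hz, by simpa using hη⟩
  have h2 : HasFDerivAt (fun q : W n × W n => Φ (q.1 + (s * rad q.1) • q.2))
      (fderiv ℝ (fun q : W n × W n => Φ (q.1 + (s * rad q.1) • q.2)) (z, η)) (z, η) :=
    (((smooth_joint h hs).differentiableOn (by simp)).differentiableAt
      (hopen.mem_nhds hmem)).hasFDerivAt
  have h3 : HasFDerivAt (fun z => Φ (z + (s * rad z) • η))
      ((fderiv ℝ (fun q : W n × W n => Φ (q.1 + (s * rad q.1) • q.2)) (z, η)).comp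
        (ContinuousLinearMap.inl ℝ (W n) (W n))) z :=
    HasFDerivAt.comp (g := fun q : W n × W n => Φ (q.1 + (s * rad q.1) • q.2))
      (f := fun z => (z, η)) z h2 (hasFDerivAt_prodMk_left z η)
  have h4 : HasFDerivAt (fun z : W n => rad z) (fderiv ℝ (fun z : W n => rad z) z) z :=
    (((AvgSmoothAux.rad_smooth (n := n)).differentiableOn (by simp)).differentiableAt
      (isOpen_compl_singleton.mem_nhds hz)).hasFDerivAt
  have h5 : HasFDerivAt (fun z : W n => z + (s * rad z) • η)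
      (ContinuousLinearMap.id ℝ (W n) +
        (s • fderiv ℝ (fun z : W n => rad z) z).smulRight η) z :=
    (hasFDerivAt_id z).add ((h4.const_mul s).smul_const η)
  have h6 := Hom46.hasFDerivAt h (AvgSmoothAux.ne_zero_of_mem hs hz hη)
  have h7 : HasFDerivAt (fun z => Φ (z + (s * rad z) • η))
      ((fderiv ℝ Φ (z + (s * rad z) • η)).comp (ContinuousLinearMap.id ℝ (W n) +
        (s • fderiv ℝ (fun z : W n => rad z) z).smulRight η)) z := h6.comp z h5
  rw [h3.unique h7]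
  simp

end Close46

open Close46 in
theorem avg_close (h : HLoc Φ) {z : W n} (hz : z ≠ 0) {s : ℝ} (hs0 : 0 < s) (hs : s ≤ sm n)
    {ε : ℝ} (hε : 0 ≤ ε) {M : (EndW n)ˣ} (hM : Good Φ z (s * rad z) ε M) :
    ‖(↑M⁻¹ : EndW n) * fderiv ℝ (Avg Φ s) z - 1‖ ≤ 2 * ε := by
  have hs2 : |s| < 2 * sm n := by
    rw [abs_of_pos hs0]
    linarith [sm_pos (n := n)]
  have hρ : 0 < s * rad z := mul_pos hs0 (rad_pos hz)
  set ρ := s * rad z with hρdef
  set K : Set (W n) := closedBall (0 : W n) 1 with hK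
  set V : ℝ := (volume K).toReal with hV
  have hVne : volume K ≠ ⊤ := measure_closedBall_lt_top.ne
  have hVpos : 0 < V := ENNReal.toReal_pos (measure_closedBall_pos volume 0 one_pos).ne' hVne
  have hKO : K ⊆ ball (0 : W n) 2 := closedBall_subset_ball (by norm_num)
  have hKc : IsCompact K := isCompact_closedBall 0 1
  obtain ⟨hint, hder⟩ := hasFDerivAt_param (volume : Measure (W n)) isOpen_compl_singleton
    isOpen_ball hKc hKO (smooth_joint h hs2) (show z ∈ ({0}ᶜ : Set (W n)) from hz)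
  have hAvg : HasFDerivAt (Avg Φ s) (V⁻¹ • ∫ η in K,
      (fderiv ℝ (fun q : W n × W n => Φ (q.1 + (s * rad q.1) • q.2)) (z, η)).comp
        (ContinuousLinearMap.inl ℝ (W n) (W n))) z := hder.const_smul V⁻¹
  -- the mean of the error
  have hcont : ContinuousOn (fun η : W n => (↑M⁻¹ : EndW n) * fderiv ℝ Φ (z + ρ • η) - 1) K := by
    have h1 : ContinuousOn (fun η : W n => fderiv ℝ Φ (z + ρ • η)) K := by
      apply (continuousOn_fderiv h).comp (by fun_prop)
      intro η hη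
      have := hKO hη
      rw [mem_ball_zero_iff] at this
      exact AvgSmoothAux.ne_zero_of_mem hs2 hz this
    exact (continuousOn_const.mul h1).sub continuousOn_const
  have hmean : ∫ η in K, ‖(↑M⁻¹ : EndW n) * fderiv ℝ Φ (z + ρ • η) - 1‖ ≤ ε * V := by
    have h1 := mean_le h hρ hM
    rw [← ENNReal.ofReal_le_ofReal_iff (by positivity),
      ofReal_integral_norm_eq_lintegral_enorm (hcont.integrableOn_compact hKc),
      ENNReal.ofReal_mul hε, ENNReal.ofReal_toReal hVne]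
    exact h1
  refine ContinuousLinearMap.opNorm_le_bound _ (by positivity) fun v => ?_
  set t : ℝ := s * fderiv ℝ (fun z : W n => rad z) z v with ht
  have htv : |t| ≤ ‖v‖ / 8 := fderiv_rad_le hs0 hs z v
  have hcont2 : ContinuousOn (fun η : W n =>
      ((↑M⁻¹ : EndW n) * fderiv ℝ Φ (z + ρ • η) - 1) (v + t • η)) K :=
    hcont.clm_apply (by fun_prop)
  have hval : ((↑M⁻¹ : EndW n) * fderiv ℝ (Avg Φ s) z - 1) v = V⁻¹ • ∫ η in K,
      ((↑M⁻¹ : EndW n) * fderiv ℝ Φ (z + ρ • η) - 1) (v + t • η) := by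
    have h1 : fderiv ℝ (Avg Φ s) z v = V⁻¹ • ∫ η in K, fderiv ℝ Φ (z + ρ • η) (v + t • η) := by
      rw [hAvg.fderiv]
      show V⁻¹ • (∫ η in K, (fderiv ℝ (fun q : W n × W n => Φ (q.1 + (s * rad q.1) • q.2))
        (z, η)).comp (ContinuousLinearMap.inl ℝ (W n) (W n))) v = _
      rw [ContinuousLinearMap.integral_apply hint]
      congr 1
      apply setIntegral_congr_fun measurableSet_closedBall
      intro η hη
      have := hKO hη
      rw [mem_ball_zero_iff] at this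
      exact fderiv_slice h hz hs2 this v
    have hcont3 : ContinuousOn (fun η : W n => fderiv ℝ Φ (z + ρ • η) (v + t • η)) K := by
      have h1 : ContinuousOn (fun η : W n => fderiv ℝ Φ (z + ρ • η)) K := by
        apply (continuousOn_fderiv h).comp (by fun_prop)
        intro η hη
        have := hKO hη
        rw [mem_ball_zero_iff] at this
        exact AvgSmoothAux.ne_zero_of_mem hs2 hz this
      exact h1.clm_apply (by fun_prop)
    have hint3 : IntegrableOn (fun η : W n => fderiv ℝ Φ (z + ρ • η) (v + t • η)) K :=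
      hcont3.integrableOn_compact hKc
    have hint4 : IntegrableOn (fun η : W n => v + t • η) K :=
      ContinuousOn.integrableOn_compact hKc (by fun_prop)
    have hint5 : IntegrableOn (fun η : W n => t • η) K :=
      ContinuousOn.integrableOn_compact hKc (by fun_prop)
    have h2 : ∫ η in K, (v + t • η) = V • v := by
      rw [integral_add (integrable_const_iff.2 (Or.inr ⟨by
        rw [Measure.restrict_apply_univ]; exact hVne.lt_top⟩)) hint5,
        integral_smul, integral_ball_id, smul_zero, add_zero, setIntegral_const]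
      rfl
    have h3 : ∫ η in K, ((↑M⁻¹ : EndW n) * fderiv ℝ Φ (z + ρ • η) - 1) (v + t • η) =
        (↑M⁻¹ : EndW n) (∫ η in K, fderiv ℝ Φ (z + ρ • η) (v + t • η)) -
          ∫ η in K, (v + t • η) := by
      rw [← ContinuousLinearMap.integral_comp_comm _ hint3,
        ← integral_sub ((↑M⁻¹ : EndW n).integrable_comp hint3) hint4]
      rfl
    rw [h3, h2, smul_sub, smul_smul, inv_mul_cancel₀ hVpos.ne', one_smul, ← map_smul, ← h1]
    rfl
  rw [hval, norm_smul, norm_inv, Real.norm_eq_abs, abs_of_pos hVpos]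
  have hle : ‖∫ η in K, ((↑M⁻¹ : EndW n) * fderiv ℝ Φ (z + ρ • η) - 1) (v + t • η)‖ ≤
      ε * V * (‖v‖ + ‖v‖ / 8) := by
    calc ‖∫ η in K, ((↑M⁻¹ : EndW n) * fderiv ℝ Φ (z + ρ • η) - 1) (v + t • η)‖
        ≤ ∫ η in K, ‖((↑M⁻¹ : EndW n) * fderiv ℝ Φ (z + ρ • η) - 1) (v + t • η)‖ :=
          norm_integral_le_integral_norm _
      _ ≤ ∫ η in K, ‖(↑M⁻¹ : EndW n) * fderiv ℝ Φ (z + ρ • η) - 1‖ * (‖v‖ + ‖v‖ / 8) := by
          apply setIntegral_mono_on (hcont2.integrableOn_compact hKc).norm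
            ((hcont.integrableOn_compact hKc).norm.mul_const _) measurableSet_closedBall
          intro η hη
          refine (ContinuousLinearMap.le_opNorm _ _).trans ?_
          apply mul_le_mul_of_nonneg_left _ (norm_nonneg _)
          refine (norm_add_le _ _).trans ?_
          have hη1 : ‖η‖ ≤ 1 := by simpa [hK] using hη
          rw [norm_smul, Real.norm_eq_abs]
          have : |t| * ‖η‖ ≤ ‖v‖ / 8 * 1 := mul_le_mul htv hη1 (norm_nonneg _) (by positivity)
          linarith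
      _ = (∫ η in K, ‖(↑M⁻¹ : EndW n) * fderiv ℝ Φ (z + ρ • η) - 1‖) * (‖v‖ + ‖v‖ / 8) :=
          integral_mul_const _ _
      _ ≤ ε * V * (‖v‖ + ‖v‖ / 8) := mul_le_mul_of_nonneg_right hmean (by positivity)
  calc V⁻¹ * ‖∫ η in K, ((↑M⁻¹ : EndW n) * fderiv ℝ Φ (z + ρ • η) - 1) (v + t • η)‖
      ≤ V⁻¹ * (ε * V * (‖v‖ + ‖v‖ / 8)) := mul_le_mul_of_nonneg_left hle (by positivity)
    _ = ε * (‖v‖ + ‖v‖ / 8) := by field_simp
    _ ≤ 2 * ε * ‖v‖ := by nlinarith [mul_nonneg hε (norm_nonneg v)]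

end Pool.Agent.Lib.P28e
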