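import Pool.Agent.Lib.P28e.Main

set_option autoImplicit false

/-!
# The energy gap in terms of a pointwise bound of the connection form
-/

open MeasureTheory Set Metric
open scoped ENNReal ContDiff

namespace Pool.Agent.Lib.P28e

open Pool.Agent.P28b04d

variable {n : ℕ} {Φ : W n → W n}

/-- `|(dΦ_x)⁻¹ D²Φ_x (v, w)| ≤ a x |v| |w|` for all `x ≠ 0` and all `v`, `w`: the vector `u` with
`dΦ_x u = D²Φ_x (v, w)` satisfies `|u| ≤ a x |v| |w|`. -/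
def ConnLe {n : ℕ} (Φ : W n → W n) (a : W n → ℝ) : Prop :=
  ∀ x : W n, x ≠ 0 → ∀ u v w : W n,
    fderiv ℝ Φ x u = fderiv ℝ (fun y => fderiv ℝ Φ y v) x w → ‖u‖ ≤ a x * ‖v‖ * ‖w‖

theorem fderiv_conn (h : HLoc Φ) {x : W n} (hx : x ≠ 0) (v w : W n) :
    fderiv ℝ Φ x (conn Φ x w v) = fderiv ℝ (fun y => fderiv ℝ Φ y v) x w := by
  have h1 : fderiv ℝ (fun y => fderiv ℝ Φ y v) x w = fderiv ℝ (fderiv ℝ Φ) x w v := by
    have h2 := ((Hom46.hasFDerivAt_fderiv h hx).clm_apply (hasFDerivAt_const v x)).fderiv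
    rw [h2]
    simp
  rw [h1, conn_apply]
  obtain ⟨U, hU⟩ := isUnit_fderiv h hx
  have h3 : (fderiv ℝ Φ x : EndW n) * Ring.inverse (fderiv ℝ Φ x : EndW n) = 1 := by
    rw [← hU, Ring.inverse_unit, Units.mul_inv]
  have h4 := congrArg (fun A : EndW n => A (fderiv ℝ (fderiv ℝ Φ) x w v)) h3
  exact h4

theorem norm_conn_le (h : HLoc Φ) {a : W n → ℝ} (ha : ConnLe Φ a) {x : W n} (hx : x ≠ 0) :
    ‖conn Φ x‖ ≤ a x := by
  have key : ∀ v w : W n, ‖conn Φ x w v‖ ≤ a x * ‖w‖ * ‖v‖ := by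
    intro v w
    have := ha x hx (conn Φ x w v) v w (fderiv_conn h hx v w)
    linarith [mul_right_comm (a x) ‖v‖ ‖w‖]
  have h0 : 0 ≤ a x := by
    have h1 := (norm_nonneg _).trans (key (fun _ => 1) (fun _ => 1))
    have h2 : ‖(fun _ => 1 : W n)‖ = 1 := by
      rw [pi_norm_const]
      simp
    rw [h2] at h1
    linarith
  exact ContinuousLinearMap.opNorm_le_bound₂ _ h0 fun w v => key v w

theorem main_bound (n : ℕ) (hn : 1 ≤ n) : ∃ c : ℝ, 0 < c ∧ ∀ (Φ : W n → W n) (a : W n → ℝ), HLoc Φ →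
    ConnLe Φ a → ∫⁻ x in ball (0 : W n) 1, ENNReal.ofReal (a x) ^ (2 * n) ≤ ENNReal.ofReal c →
    ∀ F : (Fin (n + 1) → Fin (n + 1) → ℂ) → (Fin (n + 1) → Fin (n + 1) → ℂ),
      (∀ z : W n, z ≠ 0 → F (pt z) = pt (Φ z)) → IsotopicToId n F := by
  obtain ⟨c, hc, H⟩ := main n hn
  refine ⟨c, hc, fun Φ a hΦ ha he F hF => H Φ hΦ (le_trans ?_ he) F hF⟩
  unfold energy
  refine lintegral_mono_ae ?_
  have h0 : ∀ᵐ x : W n ∂(volume.restrict (ball (0 : W n) 1)), x ≠ 0 := by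
    refine ae_restrict_of_ae ?_
    exact Measure.ae_ne volume (0 : W n)
  filter_upwards [h0] with x hx
  gcongr
  rw [← ofReal_norm]
  exact ENNReal.ofReal_le_ofReal (norm_conn_le hΦ ha hx)

end Pool.Agent.Lib.P28e
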