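import Pool.Agent.Lib.P28e.Homog

set_option autoImplicit false

/-!
# Smoothness of the averages

PROOF SKETCH. `contDiffOn_param`: by induction on `m : ℕ` (for all target spaces `G` simultaneously) the statement with `m` in place of
`∞` (`contDiffOn_infty`); `m = 0`: continuity of `z ↦ ∫ η in K, Ψ z η` (`continuousOn` / `continuousAt_of_dominated`, `Ψ` is bounded on a compact
neighbourhood of `z₀` times `K`); `m + 1`: `contDiffOn_succ_iff_fderiv_of_isOpen`, the derivative is `∫ η in K, ∂_z Ψ z η`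
(`hasFDerivAt_integral_of_dominated_of_fderiv_le`, bound from compactness of `closedBall z₀ r ×ˢ K`), and
`(z, η) ↦ ∂_z Ψ z η = (fderiv of the joint map) ∘ inl` is `ContDiffOn m`.
`avg_smooth`: `Ω = Ioo (-2 sm) (2 sm) ×ˢ {0}ᶜ`, `O = ball 0 2 ⊇ closedBall 0 1`: there `‖(s * rad z) • η‖ < (1/4) ‖z‖ * 2 < ‖z‖`
(`rad z ≤ (n + 1) ‖z‖`), so `z + (s rad z) • η ≠ 0`; `rad = sqrt (nsq z)` is smooth off `0` (`contDiff_nsq`, `nsq_pos`).
`avg_hom`: `rad (c z) = ‖c‖ rad z`; for `c ≠ 0` substitute `η = (c / ‖c‖) η'` in the ball (coordinatewise rotation preserves the volume: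
`volume_preserving_pi`, `LinearIsometryEquiv.measurePreserving` on `ℂ`, and the maximum-norm ball), then `Φ (c • y) = c • Φ y`; `c = 0`: `rad 0 = 0`, `Φ 0 = 0`.
`avg_zero`: the integrand is constant `Φ z`.
-/

open MeasureTheory Set Metric
open scoped ENNReal ContDiff Topology

namespace Pool.Agent.Lib.P28e

open Pool.Agent.P28b04d

namespace AvgSmoothAux

theorem param_aux {E F : Type} [NormedAddCommGroup E] [NormedSpace ℝ E]
    [FiniteDimensional ℝ E] [NormedAddCommGroup F] [NormedSpace ℝ F] [FiniteDimensional ℝ F]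
    [MeasurableSpace F] [BorelSpace F] (μ : Measure F) [IsFiniteMeasureOnCompacts μ] {Ω : Set E} {O K : Set F}
    (hΩ : IsOpen Ω) (hO : IsOpen O) (hK : IsCompact K) (hKO : K ⊆ O) (m : ℕ) :
    ∀ (G : Type) [NormedAddCommGroup G] [NormedSpace ℝ G] [FiniteDimensional ℝ G] (Ψ : E × F → G),
    ContDiffOn ℝ m Ψ (Ω ×ˢ O) → ContDiffOn ℝ m (fun z => ∫ η in K, Ψ (z, η) ∂μ) Ω := by
  have hfin : IsFiniteMeasure (μ.restrict K) := ⟨by
    rw [Measure.restrict_apply_univ]; exact hK.measure_lt_top⟩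
  have hbd : ∀ (G : Type) [NormedAddCommGroup G] (Ψ : E × F → G), ContinuousOn Ψ (Ω ×ˢ O) →
      ∀ z₀ ∈ Ω, ∃ s ∈ 𝓝 z₀, s ⊆ Ω ∧ ∃ C, ∀ z ∈ s, ∀ η ∈ K, ‖Ψ (z, η)‖ ≤ C := by
    intro G _ Ψ hΨ z₀ hz₀
    obtain ⟨r, hr, hrΩ⟩ := nhds_basis_closedBall.mem_iff.1 (hΩ.mem_nhds hz₀)
    have hc : IsCompact (closedBall z₀ r ×ˢ K) := (isCompact_closedBall z₀ r).prod hK
    obtain ⟨C, hC⟩ := hc.exists_bound_of_continuousOn (hΨ.mono (prod_mono hrΩ hKO))
    exact ⟨closedBall z₀ r, closedBall_mem_nhds z₀ hr, hrΩ, C, fun z hz η hη => hC (z, η) ⟨hz, hη⟩⟩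
  have hslice : ∀ (G : Type) [NormedAddCommGroup G] (Ψ : E × F → G), ContinuousOn Ψ (Ω ×ˢ O) →
      ∀ z ∈ Ω, ContinuousOn (fun η => Ψ (z, η)) K := by
    intro G _ Ψ hΨ z hz
    exact hΨ.comp (Continuous.prodMk_right z).continuousOn (fun η hη => ⟨hz, hKO hη⟩)
  have hsliceO : ∀ (G : Type) [NormedAddCommGroup G] (Ψ : E × F → G), ContinuousOn Ψ (Ω ×ˢ O) →
      ∀ z ∈ Ω, ∀ η ∈ K, ContinuousAt (fun z => Ψ (z, η)) z := by
    intro G _ Ψ hΨ z hz η hη
    have h1 : ContinuousOn (fun z => Ψ (z, η)) Ω :=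
      hΨ.comp (Continuous.prodMk_left η).continuousOn (fun z hz => ⟨hz, hKO hη⟩)
    exact h1.continuousAt (hΩ.mem_nhds hz)
  have hmeas : ∀ (G : Type) [NormedAddCommGroup G] [NormedSpace ℝ G] [FiniteDimensional ℝ G] (Ψ : E × F → G), ContinuousOn Ψ (Ω ×ˢ O) →
      ∀ z ∈ Ω, AEStronglyMeasurable (fun η => Ψ (z, η)) (μ.restrict K) := by
    intro G _ _ _ Ψ hΨ z hz
    exact (hslice G Ψ hΨ z hz).aestronglyMeasurable hK.measurableSet
  induction m with
  | zero =>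
    intro G _ _ _ Ψ hΨ
    rw [Nat.cast_zero, contDiffOn_zero] at hΨ ⊢
    intro z₀ hz₀
    apply ContinuousAt.continuousWithinAt
    obtain ⟨s, hs, hsΩ, C, hC⟩ := hbd G Ψ hΨ z₀ hz₀
    apply continuousAt_of_dominated (bound := fun _ => C)
    · filter_upwards [hΩ.mem_nhds hz₀] with z hz using hmeas G Ψ hΨ z hz
    · filter_upwards [hs] with z hz
      rw [ae_restrict_iff' hK.measurableSet]
      exact Filter.Eventually.of_forall fun η hη => hC z hz η hη
    · exact integrable_const C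
    · rw [ae_restrict_iff' hK.measurableSet]
      exact Filter.Eventually.of_forall fun η hη => hsliceO G Ψ hΨ z₀ hz₀ η hη
  | succ m ih =>
    intro G _ _ _ Ψ hΨ
    have hopen : IsOpen (Ω ×ˢ O) := hΩ.prod hO
    rw [Nat.cast_add, Nat.cast_one] at hΨ ⊢
    have h1 := (contDiffOn_succ_iff_fderiv_of_isOpen hopen).1 hΨ
    obtain ⟨hdiff, -, hder⟩ := h1
    set Ψ' : E × F → E →L[ℝ] G := fun p => (fderiv ℝ Ψ p).comp (ContinuousLinearMap.inl ℝ E F) with hΨ'
    have hder' : ContDiffOn ℝ m Ψ' (Ω ×ˢ O) := by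
      exact (hder.clm_comp contDiffOn_const)
    have key : ∀ z₀ ∈ Ω, HasFDerivAt (fun z => ∫ η in K, Ψ (z, η) ∂μ) (∫ η in K, Ψ' (z₀, η) ∂μ) z₀ := by
      intro z₀ hz₀
      obtain ⟨s, hs, hsΩ, C, hC⟩ := hbd _ Ψ' hder'.continuousOn z₀ hz₀
      refine hasFDerivAt_integral_of_dominated_of_fderiv_le (bound := fun _ => C) (F' := fun z η => Ψ' (z, η)) hs ?_ ?_ ?_ ?_ ?_ ?_
      · filter_upwards [hΩ.mem_nhds hz₀] with z hz using hmeas G Ψ hΨ.continuousOn z hz
      · exact (hslice G Ψ hΨ.continuousOn z₀ hz₀).integrableOn_compact hK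
      · exact hmeas _ Ψ' hder'.continuousOn z₀ hz₀
      · rw [ae_restrict_iff' hK.measurableSet]
        exact Filter.Eventually.of_forall fun η hη z hz => hC z hz η hη
      · exact integrable_const C
      · rw [ae_restrict_iff' hK.measurableSet]
        refine Filter.Eventually.of_forall fun η hη z hz => ?_
        have h2 : HasFDerivAt Ψ (fderiv ℝ Ψ (z, η)) (z, η) :=
          (hdiff.differentiableAt (hopen.mem_nhds ⟨hsΩ hz, hKO hη⟩)).hasFDerivAt
        exact h2.comp z (hasFDerivAt_prodMk_left z η)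
    rw [contDiffOn_succ_iff_fderiv_of_isOpen hΩ]
    refine ⟨fun z hz => (key z hz).differentiableAt.differentiableWithinAt, fun h => ?_, ?_⟩
    · simp at h
    · exact (ih _ Ψ' hder').congr fun z hz => (key z hz).fderiv

end AvgSmoothAux

theorem contDiffOn_param {E F G : Type} [NormedAddCommGroup E] [NormedSpace ℝ E]
    [FiniteDimensional ℝ E] [NormedAddCommGroup F] [NormedSpace ℝ F] [FiniteDimensional ℝ F]
    [MeasurableSpace F] [BorelSpace F] [NormedAddCommGroup G] [NormedSpace ℝ G]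
    [FiniteDimensional ℝ G] (μ : Measure F) [IsFiniteMeasureOnCompacts μ] {Ω : Set E} {O K : Set F}
    (hΩ : IsOpen Ω) (hO : IsOpen O) (hK : IsCompact K) (hKO : K ⊆ O) {Ψ : E × F → G}
    (hΨ : ContDiffOn ℝ ∞ Ψ (Ω ×ˢ O)) :
    ContDiffOn ℝ ∞ (fun z => ∫ η in K, Ψ (z, η) ∂μ) Ω := by
  rw [contDiffOn_infty] at hΨ ⊢
  exact fun m => AvgSmoothAux.param_aux μ hΩ hO hK hKO m G Ψ (hΨ m)

variable {n : ℕ} {Φ : W n → W n}

theorem rad_le (z : W n) : rad z ≤ ((n : ℝ) + 1) * ‖z‖ := by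
  unfold rad
  rw [Real.sqrt_le_iff]
  refine ⟨by positivity, ?_⟩
  have h1 : nsq z ≤ ∑ _k : Fin (n + 1), ‖z‖ ^ 2 := by
    unfold nsq
    apply Finset.sum_le_sum
    intro k _
    rw [Complex.normSq_eq_norm_sq]
    exact pow_le_pow_left₀ (norm_nonneg _) (norm_le_pi_norm z k) 2
  rw [Finset.sum_const, Finset.card_univ, Fintype.card_fin, nsmul_eq_mul] at h1
  push_cast at h1
  have h2 : (0 : ℝ) ≤ n := Nat.cast_nonneg n
  have h3 : (0 : ℝ) ≤ ‖z‖ ^ 2 := by positivity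
  nlinarith [mul_nonneg h2 h3, mul_nonneg (mul_nonneg h2 h2) h3]

theorem norm_le_rad (z : W n) : ‖z‖ ≤ rad z := by
  have hr0 : 0 ≤ rad z := Real.sqrt_nonneg _
  rw [pi_norm_le_iff_of_nonneg hr0]
  intro k
  unfold rad
  apply Real.le_sqrt_of_sq_le
  rw [← Complex.normSq_eq_norm_sq]
  unfold nsq
  exact Finset.single_le_sum (f := fun k => Complex.normSq (z k)) (fun i _ => Complex.normSq_nonneg _) (Finset.mem_univ k)

namespace AvgSmoothAux

theorem nsq_smul (c : ℂ) (z : W n) : nsq (c • z) = ‖c‖ ^ 2 * nsq z := by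
  unfold nsq
  rw [Finset.mul_sum]
  apply Finset.sum_congr rfl
  intro k _
  rw [Pi.smul_apply, smul_eq_mul, Complex.normSq_mul, Complex.normSq_eq_norm_sq c]

theorem rad_smul (c : ℂ) (z : W n) : rad (c • z) = ‖c‖ * rad z := by
  unfold rad
  rw [nsq_smul, Real.sqrt_mul (by positivity), Real.sqrt_sq (norm_nonneg _)]

theorem rad_smooth : ContDiffOn ℝ ∞ (fun z : W n => rad z) {0}ᶜ := by
  unfold rad
  exact contDiff_nsq.contDiffOn.sqrt fun z hz => (nsq_pos hz).ne'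

theorem rot_preserving (u : ℂ) (hu : ‖u‖ = 1) :
    MeasurePreserving (fun η : W n => u • η) volume volume := by
  have h1 : MeasurePreserving (fun w : ℂ => u * w) volume volume := by
    have := (rotation ⟨u, by rw [Submonoid.unitSphere.eq_1]; simpa using hu⟩).measurePreserving
    exact this
  exact volume_preserving_pi (f := fun (_ : Fin (n + 1)) (w : ℂ) => u * w) (fun _ => h1)

theorem ne_zero_of_mem {s : ℝ} {z η : W n} (hs : |s| < 2 * sm n) (hz : z ≠ 0) (hη : ‖η‖ < 2) :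
    z + (s * rad z) • η ≠ 0 := by
  intro h
  have h1 : z = -((s * rad z) • η) := eq_neg_of_add_eq_zero_left h
  have hz' : 0 < ‖z‖ := norm_pos_iff.2 hz
  have h2 : ‖z‖ ≤ |s| * rad z * ‖η‖ := by
    have hr0 : 0 ≤ rad z := Real.sqrt_nonneg _
    have h2 : ‖z‖ = ‖(s * rad z) • η‖ := by
      conv_lhs => rw [h1]
      rw [norm_neg]
    rw [h2, norm_smul, Real.norm_eq_abs, abs_mul, abs_of_nonneg hr0]
  have h3 := rad_le z
  have hn : (0 : ℝ) < (n : ℝ) + 1 := by positivity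
  have h4 : |s| * rad z ≤ 2 * sm n * (((n : ℝ) + 1) * ‖z‖) := by
    have : 0 ≤ rad z := Real.sqrt_nonneg _
    have h5 : 0 ≤ sm n := by unfold sm; positivity
    exact mul_le_mul hs.le h3 this (by positivity)
  have h6 : 2 * sm n * (((n : ℝ) + 1) * ‖z‖) = ‖z‖ / 4 := by
    unfold sm; field_simp; ring
  rw [h6] at h4
  have h7 : |s| * rad z * ‖η‖ ≤ ‖z‖ / 4 * 2 :=
    mul_le_mul h4 hη.le (norm_nonneg _) (by positivity)
  linarith

end AvgSmoothAux

open AvgSmoothAux in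
theorem avg_smooth (h : HLoc Φ) :
    ContDiffOn ℝ ∞ (fun p : ℝ × W n => Avg Φ p.1 p.2)
      (Ioo (-(2 * sm n)) (2 * sm n) ×ˢ {0}ᶜ) := by
  unfold Avg
  apply ContDiffOn.const_smul
  have hΨ : ContDiffOn ℝ ∞ (fun q : (ℝ × W n) × W n => Φ (q.1.2 + (q.1.1 * rad q.1.2) • q.2))
      ((Ioo (-(2 * sm n)) (2 * sm n) ×ˢ {0}ᶜ) ×ˢ ball (0 : W n) 2) := by
    have hr : ContDiffOn ℝ ∞ (fun q : (ℝ × W n) × W n => rad q.1.2)
        ((Ioo (-(2 * sm n)) (2 * sm n) ×ˢ {0}ᶜ) ×ˢ ball (0 : W n) 2) :=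
      rad_smooth.comp (contDiff_snd.comp contDiff_fst).contDiffOn (fun q hq => hq.1.2)
    have h0 : ContDiffOn ℝ ∞ (fun q : (ℝ × W n) × W n => q.1.2 + (q.1.1 * rad q.1.2) • q.2)
        ((Ioo (-(2 * sm n)) (2 * sm n) ×ˢ {0}ᶜ) ×ˢ ball (0 : W n) 2) :=
      (contDiff_snd.comp contDiff_fst).contDiffOn.add
        (((contDiff_fst.comp contDiff_fst).contDiffOn.mul hr).smul contDiff_snd.contDiffOn)
    apply h.smooth.comp h0
    rintro ⟨⟨s, z⟩, η⟩ ⟨⟨hs, hz⟩, hη⟩
    rw [mem_ball_zero_iff] at hη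
    exact ne_zero_of_mem (abs_lt.2 hs) hz hη
  exact contDiffOn_param (E := ℝ × W n) volume
    (isOpen_Ioo.prod isOpen_compl_singleton) isOpen_ball (isCompact_closedBall 0 1)
    (closedBall_subset_ball (by norm_num)) hΨ

theorem avg_zero (Φ : W n → W n) : Avg Φ 0 = Φ := by
  funext z
  unfold Avg
  simp only [zero_mul, zero_smul, add_zero]
  rw [setIntegral_const, smul_smul, Measure.real, inv_mul_cancel₀, one_smul]
  rw [ENNReal.toReal_ne_zero]
  exact ⟨(measure_closedBall_pos volume 0 one_pos).ne', measure_closedBall_lt_top.ne⟩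

open AvgSmoothAux in
theorem avg_hom (h : HLoc Φ) (s : ℝ) (c : ℂ) (z : W n) : Avg Φ s (c • z) = c • Avg Φ s z := by
  have hΦ0 : Φ 0 = 0 := by
    have := h.hom 0 0
    simpa using this
  rcases eq_or_ne c 0 with rfl | hc
  · rw [zero_smul, zero_smul]
    unfold Avg
    have : rad (0 : W n) = 0 := by
      have := rad_smul 0 (0 : W n)
      simpa using this
    simp [this, hΦ0]
  have hc' : ‖c‖ ≠ 0 := norm_ne_zero_iff.2 hc
  set u : ℂ := c / ‖c‖ with hu
  have hu1 : ‖u‖ = 1 := by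
    rw [hu, norm_div, Complex.norm_real, norm_norm, div_self hc']
  have hcu : c = (‖c‖ : ℂ) * u := by
    rw [hu, mul_div_cancel₀]
    exact_mod_cast hc'
  have hu0 : u ≠ 0 := by
    intro h0; rw [h0, norm_zero] at hu1; exact zero_ne_one hu1
  unfold Avg
  rw [smul_comm c, ← integral_smul (c := c)]
  congr 1
  have hpre : (fun η : W n => u • η) ⁻¹' closedBall 0 1 = closedBall 0 1 := by
    ext η
    simp [norm_smul, hu1]
  have hemb : MeasurableEmbedding (fun η : W n => u • η) :=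
    (Homeomorph.smulOfNeZero u hu0).measurableEmbedding
  have h1 := (rot_preserving (n := n) u hu1).setIntegral_preimage_emb hemb
    (fun η => Φ (c • z + (s * rad (c • z)) • η)) (closedBall 0 1)
  rw [hpre] at h1
  rw [← h1]
  apply setIntegral_congr_fun measurableSet_closedBall
  intro η _
  show Φ (c • z + (s * rad (c • z)) • u • η) = c • Φ (z + (s * rad z) • η)
  rw [← h.hom, smul_add, rad_smul]
  congr 2
  funext k
  simp only [Pi.smul_apply, smul_eq_mul, Complex.real_smul]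
  push_cast
  conv_rhs => rw [hcu]
  ring

end Pool.Agent.Lib.P28e
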