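import Pool.Agent.Lib.P28e.Defs

set_option autoImplicit false

/-!
# Change of variables `(c, y) ↦ c • (1, y)`
-/

open MeasureTheory Set Metric
open scoped ENNReal

namespace Pool.Agent.Lib.P28e

open Pool.Agent.P28b04d

/-- Real coordinates of `ℂ^n`. -/
noncomputable def kapL (n : ℕ) : (Fin (n * 2) → ℝ) ≃ₗ[ℝ] (Fin n → ℂ) where
  toFun y k := ⟨y (finProdFinEquiv (k, 0)), y (finProdFinEquiv (k, 1))⟩
  map_add' x y := by
    funext k
    apply Complex.ext <;> simp
  map_smul' r y := by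
    funext k
    apply Complex.ext <;> simp
  invFun w j := if (finProdFinEquiv.symm j).2 = 0 then (w (finProdFinEquiv.symm j).1).re
    else (w (finProdFinEquiv.symm j).1).im
  left_inv y := by
    ext j
    obtain ⟨⟨k, b⟩, rfl⟩ := finProdFinEquiv.surjective j
    simp only [Equiv.symm_apply_apply]
    fin_cases b
    · simp
    · simp
  right_inv w := by
    funext k
    apply Complex.ext <;> simp

/-- Real coordinates of `ℂ^n`, as a continuous equivalence. -/
noncomputable def kap (n : ℕ) : (Fin (n * 2) → ℝ) ≃L[ℝ] (Fin n → ℂ) :=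
  (kapL n).toContinuousLinearEquiv

theorem kap_apply (n : ℕ) (y : Fin (n * 2) → ℝ) (k : Fin n) :
    kap n y k = ⟨y (finProdFinEquiv (k, 0)), y (finProdFinEquiv (k, 1))⟩ := rfl

theorem norm_kap_le (n : ℕ) (y : Fin (n * 2) → ℝ) : ‖kap n y‖ ≤ 2 * ‖y‖ := by
  rw [pi_norm_le_iff_of_nonneg (by positivity)]
  intro k
  rw [kap_apply]
  refine (Complex.norm_le_abs_re_add_abs_im _).trans ?_
  have h1 := norm_le_pi_norm y (finProdFinEquiv (k, 0))
  have h2 := norm_le_pi_norm y (finProdFinEquiv (k, 1))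
  rw [Real.norm_eq_abs] at h1 h2
  show |y (finProdFinEquiv (k, 0))| + |y (finProdFinEquiv (k, 1))| ≤ _
  linarith

theorem norm_le_kap (n : ℕ) (y : Fin (n * 2) → ℝ) : ‖y‖ ≤ ‖kap n y‖ := by
  rw [pi_norm_le_iff_of_nonneg (norm_nonneg _)]
  intro j
  obtain ⟨⟨k, b⟩, rfl⟩ := finProdFinEquiv.surjective j
  refine le_trans ?_ (norm_le_pi_norm (kap n y) k)
  rw [kap_apply, Real.norm_eq_abs]
  fin_cases b
  · exact Complex.abs_re_le_norm ⟨y (finProdFinEquiv (k, 0)), y (finProdFinEquiv (k, 1))⟩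
  · exact Complex.abs_im_le_norm ⟨y (finProdFinEquiv (k, 0)), y (finProdFinEquiv (k, 1))⟩

/-- The affine slice through the base point. -/
noncomputable def sl (n : ℕ) (y : Fin (n * 2) → ℝ) : W n := Fin.cons 1 (kap n y)

/-- The product chart. -/
noncomputable def TL (n : ℕ) : (ℂ × (Fin (n * 2) → ℝ)) ≃ₗ[ℝ] W n where
  toFun p := Fin.cons p.1 (kap n p.2)
  map_add' p q := by
    ext i
    refine Fin.cases ?_ (fun j => ?_) i
    · simp
    · simp
  map_smul' r p := by
    ext i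
    refine Fin.cases ?_ (fun j => ?_) i
    · simp
    · simp
  invFun x := (x 0, (kap n).symm (Fin.tail x))
  left_inv p := by simp
  right_inv x := by simp

/-- The product chart, continuous. -/
noncomputable def T (n : ℕ) : (ℂ × (Fin (n * 2) → ℝ)) ≃L[ℝ] W n :=
  (TL n).toContinuousLinearEquiv

theorem T_apply (n : ℕ) (c : ℂ) (y : Fin (n * 2) → ℝ) : T n (c, y) = Fin.cons c (kap n y) := rfl

/-- Complex structure in real coordinates. -/
noncomputable def JJ (n : ℕ) : (Fin (n * 2) → ℝ) →L[ℝ] (Fin (n * 2) → ℝ) :=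
  ((kap n).symm : (Fin n → ℂ) →L[ℝ] (Fin (n * 2) → ℝ)).comp
    (((Complex.I • ContinuousLinearMap.id ℂ (Fin n → ℂ)).restrictScalars ℝ).comp
      (kap n : (Fin (n * 2) → ℝ) →L[ℝ] (Fin n → ℂ)))

/-- Multiplication by `c` in real coordinates. -/
noncomputable def Rc (n : ℕ) (c : ℂ) : (Fin (n * 2) → ℝ) →L[ℝ] (Fin (n * 2) → ℝ) :=
  c.re • ContinuousLinearMap.id ℝ _ + c.im • JJ n

theorem kap_Rc (n : ℕ) (c : ℂ) (y : Fin (n * 2) → ℝ) : kap n (Rc n c y) = c • kap n y := by
  have h1 : kap n (JJ n y) = Complex.I • kap n y := by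
    simp [JJ]
  simp only [Rc, ContinuousLinearMap.add_apply, ContinuousLinearMap.smul_apply,
    ContinuousLinearMap.id_apply, map_add, map_smul, h1]
  conv_rhs => rw [← Complex.re_add_im c, add_smul, mul_smul]
  simp

theorem smul_sl (n : ℕ) (c : ℂ) (y : Fin (n * 2) → ℝ) : c • sl n y = T n (c, Rc n c y) := by
  rw [T_apply, kap_Rc, sl]
  ext i
  refine Fin.cases ?_ (fun j => ?_) i
  · simp
  · simp

theorem det_Rc (n : ℕ) {c : ℂ} (hc : c ≠ 0) : (Rc n c).det ≠ 0 := by
  have h1 : Function.Injective (Rc n c) := by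
    intro x y hxy
    have h2 : kap n (Rc n c x) = kap n (Rc n c y) := by rw [hxy]
    rw [kap_Rc, kap_Rc] at h2
    exact (kap n).injective (smul_right_injective _ hc h2)
  have h2 : LinearMap.ker (Rc n c : (Fin (n * 2) → ℝ) →ₗ[ℝ] (Fin (n * 2) → ℝ)) = ⊥ :=
    LinearMap.ker_eq_bot.2 h1
  have h3 : IsUnit (Rc n c : (Fin (n * 2) → ℝ) →ₗ[ℝ] (Fin (n * 2) → ℝ)) :=
    (LinearMap.isUnit_iff_ker_eq_bot _).2 h2
  exact (LinearMap.isUnit_det _ h3).ne_zero

theorem det_bounds (n : ℕ) : ∃ a b : ℝ, 0 < a ∧ 0 < b ∧ ∀ c : ℂ, 1 / 4 ≤ ‖c‖ → ‖c‖ ≤ 2 →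
    a ≤ |(Rc n c).det| ∧ |(Rc n c).det| ≤ b := by
  have hcont : Continuous fun c : ℂ => |(Rc n c).det| := by
    have h1 : Continuous fun c : ℂ => Rc n c := by
      unfold Rc
      exact (Complex.continuous_re.smul continuous_const).add
        (Complex.continuous_im.smul continuous_const)
    exact (ContinuousLinearMap.continuous_det.comp h1).abs
  have hK : IsCompact ({c : ℂ | 1 / 4 ≤ ‖c‖} ∩ closedBall 0 2) :=
    (isCompact_closedBall 0 2).inter_left (isClosed_le continuous_const continuous_norm)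
  have hne : ({c : ℂ | 1 / 4 ≤ ‖c‖} ∩ closedBall 0 2).Nonempty := ⟨1, by simp; norm_num⟩
  obtain ⟨c1, hc1, h1⟩ := hK.exists_isMinOn hne hcont.continuousOn
  obtain ⟨c2, hc2, h2⟩ := hK.exists_isMaxOn hne hcont.continuousOn
  have hpos : ∀ c ∈ ({c : ℂ | 1 / 4 ≤ ‖c‖} ∩ closedBall 0 2), 0 < |(Rc n c).det| := by
    intro c hc
    have : c ≠ 0 := by
      intro h0
      have := hc.1
      simp [h0] at this
      norm_num at this
    exact abs_pos.2 (det_Rc n this)
  refine ⟨_, _, hpos c1 hc1, hpos c2 hc2, fun c h3 h4 => ?_⟩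
  have hc : c ∈ ({c : ℂ | 1 / 4 ≤ ‖c‖} ∩ closedBall 0 2) := ⟨h3, by simpa using h4⟩
  exact ⟨h1 hc, h2 hc⟩

theorem lintegral_Rc (n : ℕ) {c : ℂ} (hc : c ≠ 0) {H : (Fin (n * 2) → ℝ) → ℝ≥0∞}
    (hH : Measurable H) :
    ∫⁻ y, H (Rc n c y) = ENNReal.ofReal |(Rc n c).det|⁻¹ * ∫⁻ y, H y := by
  have h1 := Measure.map_linearMap_addHaar_pi_eq_smul_addHaar (det_Rc n hc)
    (volume : Measure (Fin (n * 2) → ℝ))
  have hm : Measurable (Rc n c) := (Rc n c).continuous.measurable
  calc ∫⁻ y, H (Rc n c y) = ∫⁻ y, H y ∂(Measure.map (Rc n c) volume) :=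
        (lintegral_map hH hm).symm
    _ = _ := by
        have h2 : Measure.map (Rc n c) (volume : Measure (Fin (n * 2) → ℝ)) =
          ENNReal.ofReal |((Rc n c).det)⁻¹| • volume := h1
        rw [h2, lintegral_smul_measure, smul_eq_mul, abs_inv]

theorem slice_exists_T (n : ℕ) : ∃ k : ℝ≥0∞, k ≠ 0 ∧ k ≠ ∞ ∧ ∀ H : W n → ℝ≥0∞, Measurable H →
    ∫⁻ c, ∫⁻ y, H (T n (c, y)) = k * ∫⁻ x, H x := by
  set ν : Measure (W n) := Measure.map (T n)
    ((volume : Measure ℂ).prod (volume : Measure (Fin (n * 2) → ℝ))) with hν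
  have hνH : ν.IsAddHaarMeasure := (T n).isAddHaarMeasure_map _
  have hk' := Measure.isAddLeftInvariant_eq_smul ν (volume : Measure (W n))
  set k : ℝ≥0∞ := (Measure.addHaarScalarFactor ν (volume : Measure (W n)) : ℝ≥0∞) with hkdef
  have hk : ν = k • (volume : Measure (W n)) := hk'
  have hk0 : k ≠ 0 := by
    rw [hkdef]
    exact_mod_cast (Measure.addHaarScalarFactor_pos_of_isAddHaarMeasure ν
      (volume : Measure (W n))).ne'
  have hkt : k ≠ ∞ := ENNReal.coe_ne_top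
  refine ⟨k, hk0, hkt, fun H hH => ?_⟩
  have hm : Measurable (T n) := (T n).continuous.measurable
  calc ∫⁻ c, ∫⁻ y, H (T n (c, y)) =
        ∫⁻ p, H (T n p) ∂((volume : Measure ℂ).prod (volume : Measure (Fin (n * 2) → ℝ))) :=
        (lintegral_prod (fun p => H (T n p)) (hH.comp hm).aemeasurable).symm
    _ = ∫⁻ x, H x ∂(Measure.map (T n)
          ((volume : Measure ℂ).prod (volume : Measure (Fin (n * 2) → ℝ)))) :=
        (lintegral_map hH hm).symm
    _ = k * ∫⁻ x, H x := by rw [← hν, hk, lintegral_smul_measure, smul_eq_mul]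

/-- The annulus used for the energy. -/
def Ann : Set ℂ := {c : ℂ | 1 / 4 ≤ ‖c‖ ∧ ‖c‖ ≤ 1 / 3}

theorem norm_sl_le (n : ℕ) {y : Fin (n * 2) → ℝ} (hy : ‖y‖ ≤ 1) : ‖sl n y‖ ≤ 2 := by
  rw [pi_norm_le_iff_of_nonneg (by norm_num)]
  intro i
  refine Fin.cases ?_ (fun j => ?_) i
  · simp [sl]
  · simp only [sl, Fin.cons_succ]
    have := norm_le_pi_norm (kap n y) j
    have h2 := norm_kap_le n y
    linarith

theorem mem_Icc_iff_norm (n : ℕ) {s : ℝ} (hs : 0 ≤ s) (y : Fin n → ℝ) :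
    y ∈ Icc (fun _ => -s) (fun _ => s) ↔ ‖y‖ ≤ s := by
  rw [pi_norm_le_iff_of_nonneg hs]
  simp only [mem_Icc, Pi.le_def, Real.norm_eq_abs, abs_le]
  exact forall_and.symm

theorem cv_lower (n : ℕ) : ∃ C : ℝ≥0∞, C ≠ ∞ ∧ ∀ G : W n → ℝ≥0∞, Measurable G →
    ∫⁻ c in Ann, ∫⁻ y in Icc (fun _ : Fin (n * 2) => (-1 : ℝ)) (fun _ => 1), G (c • sl n y) ≤
      C * ∫⁻ x in ball (0 : W n) 1, G x := by
  obtain ⟨a, b, ha, hb, hab⟩ := det_bounds n
  obtain ⟨k, hk0, hkt, hk⟩ := slice_exists_T n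
  refine ⟨ENNReal.ofReal a⁻¹ * k, ENNReal.mul_ne_top ENNReal.ofReal_ne_top hkt, fun G hG => ?_⟩
  set G' : W n → ℝ≥0∞ := (ball (0 : W n) 1).indicator G with hG'
  have hG'm : Measurable G' := hG.indicator measurableSet_ball
  have hAnn : MeasurableSet Ann := by
    have : Ann = {c : ℂ | 1 / 4 ≤ ‖c‖} ∩ {c : ℂ | ‖c‖ ≤ 1 / 3} := rfl
    rw [this]
    exact ((isClosed_le continuous_const continuous_norm).inter
      (isClosed_le continuous_norm continuous_const)).measurableSet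
  calc ∫⁻ c in Ann, ∫⁻ y in Icc (fun _ : Fin (n * 2) => (-1 : ℝ)) (fun _ => 1), G (c • sl n y)
      ≤ ∫⁻ c in Ann, ENNReal.ofReal a⁻¹ * ∫⁻ y, G' (T n (c, y)) := by
        refine setLIntegral_mono' hAnn fun c hc => ?_
        have hc0 : c ≠ 0 := by
          intro h0
          have := hc.1
          rw [h0, norm_zero] at this
          norm_num at this
        have hm : Measurable fun y => G' (T n (c, y)) :=
          hG'm.comp ((T n).continuous.measurable.comp (by fun_prop))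
        calc ∫⁻ y in Icc (fun _ : Fin (n * 2) => (-1 : ℝ)) (fun _ => 1), G (c • sl n y)
            ≤ ∫⁻ y in Icc (fun _ : Fin (n * 2) => (-1 : ℝ)) (fun _ => 1),
                G' (T n (c, Rc n c y)) := by
              refine setLIntegral_mono' measurableSet_Icc fun y hy => ?_
              rw [← smul_sl, hG', indicator_of_mem]
              have hy' : ‖y‖ ≤ 1 := (mem_Icc_iff_norm _ zero_le_one y).1 hy
              rw [mem_ball_zero_iff, norm_smul]
              have h1 := norm_sl_le n hy'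
              have h2 := hc.2
              have h3 : 0 ≤ ‖c‖ := norm_nonneg c
              nlinarith
          _ ≤ ∫⁻ y, G' (T n (c, Rc n c y)) := setLIntegral_le_lintegral _ _
          _ = ENNReal.ofReal |(Rc n c).det|⁻¹ * ∫⁻ y, G' (T n (c, y)) :=
              lintegral_Rc n hc0 (H := fun y => G' (T n (c, y))) hm
          _ ≤ ENNReal.ofReal a⁻¹ * ∫⁻ y, G' (T n (c, y)) := by
              gcongr
              exact (hab c hc.1 (hc.2.trans (by norm_num))).1
    _ ≤ ∫⁻ c, ENNReal.ofReal a⁻¹ * ∫⁻ y, G' (T n (c, y)) := setLIntegral_le_lintegral _ _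
    _ = ENNReal.ofReal a⁻¹ * ∫⁻ c, ∫⁻ y, G' (T n (c, y)) :=
        lintegral_const_mul' _ _ ENNReal.ofReal_ne_top
    _ = ENNReal.ofReal a⁻¹ * k * ∫⁻ x in ball (0 : W n) 1, G x := by
        rw [hk G' hG'm, mul_assoc, hG', lintegral_indicator measurableSet_ball]

theorem cv_upper (n : ℕ) : ∃ C : ℝ≥0∞, C ≠ ∞ ∧ ∀ G : W n → ℝ≥0∞, Measurable G →
    ∀ s : ℝ, 0 < s → s ≤ 1 / 4 → ∫⁻ x in closedBall (e0 n) s, G x ≤
      C * ∫⁻ c in closedBall (1 : ℂ) s,
        ∫⁻ y in Icc (fun _ : Fin (n * 2) => -(2 * s)) (fun _ => 2 * s), G (c • sl n y) := by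
  obtain ⟨a, b, ha, hb, hab⟩ := det_bounds n
  obtain ⟨k, hk0, hkt, hk⟩ := slice_exists_T n
  refine ⟨k⁻¹ * ENNReal.ofReal b, ENNReal.mul_ne_top (ENNReal.inv_ne_top.2 hk0)
    ENNReal.ofReal_ne_top, fun G hG s hs hs4 => ?_⟩
  set G' : W n → ℝ≥0∞ := (closedBall (e0 n) s).indicator G with hG'
  have hG'm : Measurable G' := hG.indicator measurableSet_closedBall
  have key : ∫⁻ c, ∫⁻ y, G' (T n (c, y)) ≤ ENNReal.ofReal b * ∫⁻ c in closedBall (1 : ℂ) s,
        ∫⁻ y in Icc (fun _ : Fin (n * 2) => -(2 * s)) (fun _ => 2 * s), G (c • sl n y) := by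
    have hzero : ∀ c ∉ closedBall (1 : ℂ) s, ∫⁻ y, G' (T n (c, y)) = 0 := by
      intro c hc
      have : ∀ y, G' (T n (c, y)) = 0 := by
        intro y
        rw [hG', indicator_of_notMem]
        intro hmem
        apply hc
        rw [mem_closedBall, dist_pi_le_iff hs.le] at hmem
        have := hmem 0
        simpa [T_apply, e0] using this
      simp [this]
    have h1 : ∫⁻ c, ∫⁻ y, G' (T n (c, y)) =
        ∫⁻ c in closedBall (1 : ℂ) s, ∫⁻ y, G' (T n (c, y)) := by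
      rw [← lintegral_indicator measurableSet_closedBall]
      refine lintegral_congr fun c => ?_
      by_cases hc : c ∈ closedBall (1 : ℂ) s
      · rw [indicator_of_mem hc]
      · rw [indicator_of_notMem hc, hzero c hc]
    rw [h1, ← lintegral_const_mul' _ _ ENNReal.ofReal_ne_top]
    refine setLIntegral_mono' measurableSet_closedBall fun c hc => ?_
    have hcn : ‖c - 1‖ ≤ s := by simpa [dist_eq_norm] using hc
    have hc1 : 3 / 4 ≤ ‖c‖ := by
      have h2 : ‖(1 : ℂ)‖ ≤ ‖c‖ + ‖c - 1‖ := by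
        calc ‖(1 : ℂ)‖ = ‖c - (c - 1)‖ := by rw [sub_sub_cancel]
          _ ≤ ‖c‖ + ‖c - 1‖ := norm_sub_le _ _
      rw [norm_one] at h2
      linarith
    have hc2 : ‖c‖ ≤ 2 := by
      have h2 : ‖c‖ ≤ ‖c - 1‖ + ‖(1 : ℂ)‖ := by
        calc ‖c‖ = ‖(c - 1) + 1‖ := by rw [sub_add_cancel]
          _ ≤ _ := norm_add_le _ _
      rw [norm_one] at h2
      linarith
    have hc0 : c ≠ 0 := by
      intro h0
      rw [h0, norm_zero] at hc1
      norm_num at hc1
    have hm : Measurable fun y => G' (T n (c, y)) :=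
      hG'm.comp ((T n).continuous.measurable.comp (by fun_prop))
    have hdet := hab c (by linarith) hc2
    have hdpos : 0 < |(Rc n c).det| := lt_of_lt_of_le ha hdet.1
    have h3 := lintegral_Rc n hc0 (H := fun y => G' (T n (c, y))) hm
    have h4 : ∫⁻ y, G' (T n (c, y)) =
        ENNReal.ofReal |(Rc n c).det| * ∫⁻ y, G' (T n (c, Rc n c y)) := by
      rw [h3, ← mul_assoc, ← ENNReal.ofReal_mul hdpos.le, mul_inv_cancel₀ hdpos.ne',
        ENNReal.ofReal_one, one_mul]
    rw [h4]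
    refine mul_le_mul' (ENNReal.ofReal_le_ofReal hdet.2) ?_
    · rw [← lintegral_indicator measurableSet_Icc]
      refine lintegral_mono fun y => ?_
      rw [← smul_sl]
      by_cases hmem : c • sl n y ∈ closedBall (e0 n) s
      · have hy : y ∈ Icc (fun _ : Fin (n * 2) => -(2 * s)) (fun _ => 2 * s) := by
          rw [mem_Icc_iff_norm _ (by positivity)]
          refine (norm_le_kap n y).trans ?_
          have h5 : ‖c • kap n y‖ ≤ s := by
            rw [pi_norm_le_iff_of_nonneg hs.le]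
            intro j
            rw [mem_closedBall, dist_pi_le_iff hs.le] at hmem
            have := hmem j.succ
            simpa [sl, e0] using this
          rw [norm_smul] at h5
          have h6 : 0 ≤ ‖kap n y‖ := norm_nonneg _
          nlinarith
        rw [indicator_of_mem hy, hG', indicator_of_mem hmem]
      · rw [hG', indicator_of_notMem hmem]
        exact zero_le
  calc ∫⁻ x in closedBall (e0 n) s, G x = k⁻¹ * ∫⁻ c, ∫⁻ y, G' (T n (c, y)) := by
        rw [hk G' hG'm, ← mul_assoc, ENNReal.inv_mul_cancel hk0 hkt, one_mul, hG',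
          lintegral_indicator measurableSet_closedBall]
    _ ≤ k⁻¹ * (ENNReal.ofReal b * ∫⁻ c in closedBall (1 : ℂ) s,
        ∫⁻ y in Icc (fun _ : Fin (n * 2) => -(2 * s)) (fun _ => 2 * s), G (c • sl n y)) := by
        gcongr
    _ = _ := by rw [mul_assoc]

end Pool.Agent.Lib.P28e
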