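import Pool.Agent.Lib.P28e.Homog

set_option autoImplicit false

/-!
# Comparison of the matrices `M` at different points

PROOF SKETCH. (a) Local step: for every `τ ∈ (0, 1/2)` there is `δ > 0` such that for `z, z' ≠ 0` with `‖z - z'‖ ≤ ‖z‖ / 100` and
`Good Φ z (‖z‖ / 8) δ M`, `Good Φ z' (‖z'‖ / 8) δ M'`: `‖M⁻¹ M' - 1‖ ≤ 4 τ`. Indeed `B = closedBall z (‖z‖ / 16)` is contained in both balls; by the
Markov inequality (`mul_meas_ge_le_lintegral`, `measurable_fderiv_sub`) the set of `x ∈ B` with `‖M⁻¹ dΦ_x - 1‖ ≥ τ` has measure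
`≤ (δ / τ) 2^(2n+2) vol B`, the same set for `M'` at most `(δ / τ) 3^(2n+2) vol B` (`Measure.addHaar_closedBall`, finrank `2 n + 2`); for
`δ` small the sum is `< vol B`, so there is `x` with `w = M⁻¹ dΦ_x`, `w' = M'⁻¹ dΦ_x` both within `τ` of `1`; `M w = dΦ_x = M' w'`,
`M⁻¹ M' = w w'⁻¹`, `‖w w'⁻¹ - 1‖ = ‖(w - w') w'⁻¹‖ ≤ 2 τ / (1 - τ) ≤ 4 τ`.
(b) Multiplying: if `‖A - 1‖ ≤ a`, `‖B - 1‖ ≤ b` then `‖A B - 1‖ ≤ a + b + a b`. So by induction on `k`: for every `k` and `ε > 0` there is `δ > 0`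
such that the conclusion holds with `ε` for the ends of every chain of `k` steps `‖z_{i+1} - z_i‖ ≤ ‖z_i‖ / 100`, `z_i ≠ 0` (the matrices at the
intermediate points exist by the hypothesis on `Φ`; note `M⁻¹ M'' = (M⁻¹ M') (M'⁻¹ M'')`).
(c) Any two points of norm one are joined by a chain of `3000` steps: `b = e_0` or `e_1` (`n ≥ 1`): if some `|z_k| ≥ 1/2`, `k ≠ 0`, then the segment from `e_0`
to `z` has norm `≥ 1/5` (coordinates `0` and `k`); otherwise `|z_0| = 1`, `|z_1| ≤ 1/2` and the segment from `e_1` to `z` has norm `≥ 1/5`; the segment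
from `e_0` to `e_1` has norm `≥ 1/2`; divide each of the (at most) three segments into `1000` steps, each of length `≤ 2/1000 ≤ (1/5)/100`.
(d) Reduction to norm one: `good_smul` (`z = ‖z‖ • (‖z‖⁻¹ • z)`).
-/

open MeasureTheory Set Metric
open scoped ENNReal ContDiff

namespace Pool.Agent.Lib.P28e

open Pool.Agent.P28b04d

namespace ChnAux

variable {n : ℕ}

lemma good_mono {Φ : W n → W n} {z : W n} {ρ δ δ' : ℝ} {M : (EndW n)ˣ} (h : Good Φ z ρ δ M)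
    (hδ : δ ≤ δ') : Good Φ z ρ δ' M :=
  h.trans (mul_le_mul_left (ENNReal.ofReal_le_ofReal hδ) _)

/-- The local relation. -/
def L (z z' : W n) : Prop := z ≠ 0 ∧ z' ≠ 0 ∧ ‖z - z'‖ ≤ ‖z‖ / 100

lemma vol_ball (z : W n) {r : ℝ} (hr : 0 ≤ r) {k : ℝ} (hk : 0 ≤ k) :
    volume (closedBall z (k * r)) =
      ENNReal.ofReal (k ^ (Module.finrank ℝ (W n))) * volume (closedBall z r) := by
  rw [Measure.addHaar_closedBall _ _ (mul_nonneg hk hr), Measure.addHaar_closedBall _ _ hr,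
    mul_pow, ENNReal.ofReal_mul (by positivity), mul_assoc]

lemma alg_step {w w' M M' : EndW n} {Mi : EndW n} (hM : Mi * M = 1) {D : EndW n} (hMi' : M * Mi = 1)
    {M'i : EndW n} (hM' : M' * M'i = 1) (hw : w = Mi * D) (hw' : w' = M'i * D) {τ : ℝ}
    (hτ2 : τ ≤ 1 / 2) (h1 : ‖w - 1‖ ≤ τ) (h2 : ‖w' - 1‖ ≤ τ) : ‖Mi * M' - 1‖ ≤ 4 * τ := by
  have e1 : Mi * M' * w' = w := by
    rw [hw', hw, mul_assoc, ← mul_assoc M' M'i, hM', one_mul]
  set P := Mi * M' with hP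
  have e2 : P - 1 = (w - 1) - (w' - 1) - (P - 1) * (w' - 1) := by
    have : (P - 1) * (w' - 1) = P * w' - P - w' + 1 := by
      rw [sub_mul, mul_sub, mul_sub, mul_one, one_mul, mul_one]
      abel
    rw [this, e1]
    abel
  have e3 : ‖P - 1‖ ≤ ‖w - 1‖ + ‖w' - 1‖ + ‖P - 1‖ * ‖w' - 1‖ := by
    calc ‖P - 1‖ = ‖(w - 1) - (w' - 1) - (P - 1) * (w' - 1)‖ := by rw [← e2]
      _ ≤ ‖(w - 1) - (w' - 1)‖ + ‖(P - 1) * (w' - 1)‖ := norm_sub_le _ _
      _ ≤ (‖w - 1‖ + ‖w' - 1‖) + ‖P - 1‖ * ‖w' - 1‖ :=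
          add_le_add (norm_sub_le _ _) (norm_mul_le _ _)
  have h0 : 0 ≤ ‖P - 1‖ := norm_nonneg _
  have h4 : ‖P - 1‖ * ‖w' - 1‖ ≤ ‖P - 1‖ * (1 / 2) :=
    mul_le_mul_of_nonneg_left (h2.trans hτ2) h0
  linarith

lemma local_step (n : ℕ) {τ : ℝ} (hτ : 0 < τ) (hτ2 : τ ≤ 1 / 2) : ∃ δ : ℝ, 0 < δ ∧
    ∀ Φ : W n → W n, HLoc Φ → ∀ z z' : W n, L z z' → ∀ M M' : (EndW n)ˣ,
      Good Φ z (‖z‖ / 8) δ M → Good Φ z' (‖z'‖ / 8) δ M' →
        ‖(↑M⁻¹ : EndW n) * (M' : EndW n) - 1‖ ≤ 4 * τ := by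
  set N := Module.finrank ℝ (W n) with hN
  refine ⟨τ / (4 * 3 ^ N), by positivity, fun Φ hΦ z z' hL M M' hM hM' => ?_⟩
  obtain ⟨hz, hz', hzz⟩ := hL
  set δ : ℝ := τ / (4 * 3 ^ N) with hδ
  have hznorm : 0 < ‖z‖ := norm_pos_iff.mpr hz
  set r : ℝ := ‖z‖ / 16 with hr
  have hr0 : 0 < r := by positivity
  set B := closedBall z r with hB
  have hz'1 : ‖z'‖ ≤ ‖z‖ + ‖z‖ / 100 := by
    have := norm_sub_norm_le z' z
    rw [norm_sub_rev] at this
    linarith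
  have hz'2 : ‖z‖ - ‖z‖ / 100 ≤ ‖z'‖ := by
    have := norm_sub_norm_le z z'
    linarith
  have hBB : B ⊆ closedBall z (‖z‖ / 8) := closedBall_subset_closedBall (by rw [hr]; linarith)
  have hBB' : B ⊆ closedBall z' (‖z'‖ / 8) := by
    refine closedBall_subset_closedBall' ?_
    rw [dist_eq_norm, hr]
    linarith
  have hv1 : volume (closedBall z (‖z‖ / 8)) ≤ ENNReal.ofReal (3 ^ N) * volume B := by
    rw [← vol_ball z hr0.le (by norm_num : (0:ℝ) ≤ 3)]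
    exact measure_mono (closedBall_subset_closedBall (by rw [hr]; linarith))
  have hv2 : volume (closedBall z' (‖z'‖ / 8)) ≤ ENNReal.ofReal (3 ^ N) * volume B := by
    have : volume B = volume (closedBall z' r) := by
      rw [hB, Measure.addHaar_closedBall _ _ hr0.le, Measure.addHaar_closedBall _ _ hr0.le]
    rw [this, ← vol_ball z' hr0.le (by norm_num : (0:ℝ) ≤ 3)]
    exact measure_mono (closedBall_subset_closedBall (by rw [hr]; linarith))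
  have hBpos : 0 < volume B := by
    rw [hB]
    exact measure_closedBall_pos volume z hr0
  have hBfin : volume B ≠ ⊤ := by
    rw [hB]
    exact measure_closedBall_lt_top.ne
  -- a common good point
  obtain ⟨x, hxB, hx1, hx2⟩ : ∃ x ∈ B, ‖(↑M⁻¹ : EndW n) * fderiv ℝ Φ x - 1‖ ≤ τ ∧
      ‖(↑M'⁻¹ : EndW n) * fderiv ℝ Φ x - 1‖ ≤ τ := by
    by_contra hcon
    push Not at hcon
    have hlow : ∀ x ∈ B, ENNReal.ofReal τ ≤ ‖(↑M⁻¹ : EndW n) * fderiv ℝ Φ x - 1‖ₑ +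
        ‖(↑M'⁻¹ : EndW n) * fderiv ℝ Φ x - 1‖ₑ := by
      intro x hx
      by_cases h1 : ‖(↑M⁻¹ : EndW n) * fderiv ℝ Φ x - 1‖ ≤ τ
      · refine le_trans ?_ le_add_self
        rw [← ofReal_norm]
        exact ENNReal.ofReal_le_ofReal (hcon x hx h1).le
      · refine le_trans ?_ le_self_add
        rw [← ofReal_norm]
        exact ENNReal.ofReal_le_ofReal (not_le.mp h1).le
    have hint : ENNReal.ofReal τ * volume B ≤
        ∫⁻ x in B, (‖(↑M⁻¹ : EndW n) * fderiv ℝ Φ x - 1‖ₑ +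
          ‖(↑M'⁻¹ : EndW n) * fderiv ℝ Φ x - 1‖ₑ) := by
      rw [← setLIntegral_const]
      exact setLIntegral_mono' measurableSet_closedBall hlow
    rw [lintegral_add_left (measurable_fderiv_sub hΦ _)] at hint
    have hb1 : ∫⁻ x in B, ‖(↑M⁻¹ : EndW n) * fderiv ℝ Φ x - 1‖ₑ ≤
        ENNReal.ofReal (τ / 4) * volume B := by
      calc ∫⁻ x in B, ‖(↑M⁻¹ : EndW n) * fderiv ℝ Φ x - 1‖ₑ ≤
          ∫⁻ x in closedBall z (‖z‖ / 8), ‖(↑M⁻¹ : EndW n) * fderiv ℝ Φ x - 1‖ₑ :=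
            lintegral_mono_set hBB
        _ ≤ ENNReal.ofReal δ * volume (closedBall z (‖z‖ / 8)) := hM
        _ ≤ ENNReal.ofReal δ * (ENNReal.ofReal (3 ^ N) * volume B) := mul_le_mul_right hv1 _
        _ = ENNReal.ofReal (τ / 4) * volume B := by
            rw [← mul_assoc, ← ENNReal.ofReal_mul (by positivity)]
            congr 2
            rw [hδ]
            field_simp
    have hb2 : ∫⁻ x in B, ‖(↑M'⁻¹ : EndW n) * fderiv ℝ Φ x - 1‖ₑ ≤
        ENNReal.ofReal (τ / 4) * volume B := by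
      calc ∫⁻ x in B, ‖(↑M'⁻¹ : EndW n) * fderiv ℝ Φ x - 1‖ₑ ≤
          ∫⁻ x in closedBall z' (‖z'‖ / 8), ‖(↑M'⁻¹ : EndW n) * fderiv ℝ Φ x - 1‖ₑ :=
            lintegral_mono_set hBB'
        _ ≤ ENNReal.ofReal δ * volume (closedBall z' (‖z'‖ / 8)) := hM'
        _ ≤ ENNReal.ofReal δ * (ENNReal.ofReal (3 ^ N) * volume B) := mul_le_mul_right hv2 _
        _ = ENNReal.ofReal (τ / 4) * volume B := by
            rw [← mul_assoc, ← ENNReal.ofReal_mul (by positivity)]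
            congr 2
            rw [hδ]
            field_simp
    have hfin := hint.trans (add_le_add hb1 hb2)
    rw [← add_mul, ← ENNReal.ofReal_add (by positivity) (by positivity)] at hfin
    have h3 := (ENNReal.mul_le_mul_iff_left hBpos.ne' hBfin).mp hfin
    rw [ENNReal.ofReal_le_ofReal_iff (by positivity)] at h3
    linarith
  exact alg_step (w := (↑M⁻¹ : EndW n) * fderiv ℝ Φ x) (w' := (↑M'⁻¹ : EndW n) * fderiv ℝ Φ x)
    (M := (M : EndW n)) (M.inv_mul) (M.mul_inv) (M'i := (↑M'⁻¹ : EndW n)) (M'.mul_inv) rfl rfl hτ2 hx1 hx2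

/-- Uniform comparison along a relation. -/
def UP (n : ℕ) (S : W n → W n → Prop) : Prop :=
  ∀ ε : ℝ, 0 < ε → ∃ δ : ℝ, 0 < δ ∧ ∀ Φ : W n → W n,
    HLoc Φ → (∀ z : W n, z ≠ 0 → ∃ M : (EndW n)ˣ, Good Φ z (‖z‖ / 8) δ M) →
    ∀ z z' : W n, S z z' → ∀ M M' : (EndW n)ˣ,
      Good Φ z (‖z‖ / 8) δ M → Good Φ z' (‖z'‖ / 8) δ M' →
        ‖(↑M⁻¹ : EndW n) * (M' : EndW n) - 1‖ ≤ ε

lemma UP_L (n : ℕ) : UP n L := by
  intro ε hε
  obtain ⟨δ, hδ, h⟩ := local_step n (τ := min (ε / 4) (1 / 2)) (by positivity) (min_le_right _ _)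
  refine ⟨δ, hδ, fun Φ hΦ _ z z' hL M M' hM hM' => (h Φ hΦ z z' hL M M' hM hM').trans ?_⟩
  have := min_le_left (ε / 4) (1 / 2 : ℝ)
  linarith

lemma UP_mono {S T : W n → W n → Prop} (hST : ∀ z z', S z z' → T z z') (hT : UP n T) : UP n S := by
  intro ε hε
  obtain ⟨δ, hδ, h⟩ := hT ε hε
  exact ⟨δ, hδ, fun Φ hΦ hex z z' hS => h Φ hΦ hex z z' (hST z z' hS)⟩

lemma UP_comp {S T : W n → W n → Prop} (hS : UP n S) (hT : UP n T) (h0 : ∀ z y, S z y → y ≠ 0) :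
    UP n (fun z z' => ∃ y, S z y ∧ T y z') := by
  intro ε hε
  set ε₁ : ℝ := min (ε / 3) 1 with hε₁
  have hε₁0 : 0 < ε₁ := by positivity
  have hε₁1 : ε₁ ≤ 1 := min_le_right _ _
  have hε₁2 : ε₁ ≤ ε / 3 := min_le_left _ _
  obtain ⟨δ₁, hδ₁, h1⟩ := hS ε₁ hε₁0
  obtain ⟨δ₂, hδ₂, h2⟩ := hT ε₁ hε₁0
  refine ⟨min δ₁ δ₂, by positivity, ?_⟩
  rintro Φ hΦ hex z z' ⟨y, hzy, hyz'⟩ M M' hM hM'
  obtain ⟨My, hMy⟩ := hex y (h0 z y hzy)
  have hex1 : ∀ z : W n, z ≠ 0 → ∃ M : (EndW n)ˣ, Good Φ z (‖z‖ / 8) δ₁ M := by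
    intro z hz
    obtain ⟨M, hM⟩ := hex z hz
    exact ⟨M, good_mono hM (min_le_left _ _)⟩
  have hex2 : ∀ z : W n, z ≠ 0 → ∃ M : (EndW n)ˣ, Good Φ z (‖z‖ / 8) δ₂ M := by
    intro z hz
    obtain ⟨M, hM⟩ := hex z hz
    exact ⟨M, good_mono hM (min_le_right _ _)⟩
  have e1 := h1 Φ hΦ hex1 z y hzy M My (good_mono hM (min_le_left _ _))
    (good_mono hMy (min_le_left _ _))
  have e2 := h2 Φ hΦ hex2 y z' hyz' My M' (good_mono hMy (min_le_right _ _))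
    (good_mono hM' (min_le_right _ _))
  set A : EndW n := (↑M⁻¹ : EndW n) * (My : EndW n) with hA
  set B : EndW n := (↑My⁻¹ : EndW n) * (M' : EndW n) with hB
  have e3 : (↑M⁻¹ : EndW n) * (M' : EndW n) = A * B := by
    rw [hA, hB, mul_assoc, ← mul_assoc (My : EndW n), My.mul_inv, one_mul]
  have e4 : A * B - 1 = (A - 1) + (B - 1) + (A - 1) * (B - 1) := by
    rw [sub_mul, mul_sub, mul_sub, mul_one, one_mul, mul_one]
    abel
  rw [e3, e4]
  calc ‖(A - 1) + (B - 1) + (A - 1) * (B - 1)‖ ≤ ‖(A - 1) + (B - 1)‖ + ‖(A - 1) * (B - 1)‖ :=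
        norm_add_le _ _
    _ ≤ (‖A - 1‖ + ‖B - 1‖) + ‖A - 1‖ * ‖B - 1‖ := add_le_add (norm_add_le _ _) (norm_mul_le _ _)
    _ ≤ (ε₁ + ε₁) + ε₁ * 1 := by
        refine add_le_add (add_le_add e1 e2) ?_
        exact mul_le_mul e1 (e2.trans hε₁1) (norm_nonneg _) hε₁0.le
    _ ≤ ε := by linarith

/-- Chains. -/
def Lk : ℕ → W n → W n → Prop
  | 0 => L
  | (k + 1) => fun z z' => ∃ y, Lk k z y ∧ L y z'

lemma Lk_ne (k : ℕ) : ∀ z y : W n, Lk k z y → y ≠ 0 := by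
  induction k with
  | zero => exact fun z y h => h.2.1
  | succ k ih =>
    rintro z y ⟨_, _, h⟩
    exact h.2.1

lemma UP_Lk (k : ℕ) : UP n (Lk k) := by
  induction k with
  | zero => exact UP_L n
  | succ k ih => exact UP_comp ih (UP_L n) (Lk_ne k)

lemma Lk_path (c : ℕ → W n) (k : ℕ) (h : ∀ i ≤ k, L (c i) (c (i + 1))) : Lk k (c 0) (c (k + 1)) := by
  induction k with
  | zero => exact h 0 le_rfl
  | succ k ih => exact ⟨c (k + 1), ih fun i hi => h i (by omega), h (k + 1) le_rfl⟩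

/-- Segments along which one coordinate is constant of modulus one. -/
def Seg (z z' : W n) : Prop := ‖z‖ = 1 ∧ ‖z'‖ = 1 ∧ ∃ k, z k = z' k ∧ ‖z k‖ = 1

lemma Seg_Lk (z z' : W n) (h : Seg z z') : Lk 199 z z' := by
  obtain ⟨h1, h2, k, hk, hk1⟩ := h
  set c : ℕ → W n := fun i => z + ((i : ℝ) / 200) • (z' - z) with hc
  have hck : ∀ i, c i k = z k := by
    intro i
    simp only [hc, Pi.add_apply, Pi.smul_apply, Pi.sub_apply, hk, sub_self, smul_zero, add_zero]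
  have hcn : ∀ i, 1 ≤ ‖c i‖ := by
    intro i
    rw [← hk1, ← hck i]
    exact norm_le_pi_norm _ _
  have hc0 : ∀ i, c i ≠ 0 := by
    intro i h0
    have := hcn i
    rw [h0, norm_zero] at this
    linarith
  have hstep : ∀ i, L (c i) (c (i + 1)) := by
    intro i
    refine ⟨hc0 i, hc0 (i + 1), ?_⟩
    have e : c i - c (i + 1) = (-(1 / 200 : ℝ)) • (z' - z) := by
      simp only [hc]
      push_cast
      rw [add_sub_add_left_eq_sub, ← sub_smul]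
      congr 1
      ring
    rw [e, norm_smul]
    have h3 : ‖z' - z‖ ≤ 2 := by
      calc ‖z' - z‖ ≤ ‖z'‖ + ‖z‖ := norm_sub_le _ _
        _ = 2 := by rw [h1, h2]; norm_num
    have h4 : ‖(-(1 / 200 : ℝ))‖ = 1 / 200 := by
      rw [norm_neg, Real.norm_eq_abs, abs_of_pos (by norm_num)]
    rw [h4]
    have := hcn i
    linarith
  have h := Lk_path c 199 fun i _ => hstep i
  have e0 : c 0 = z := by simp [hc]
  have e1 : c (199 + 1) = z' := by
    simp only [hc]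
    norm_num
  rw [e0, e1] at h
  exact h

lemma UP_Seg : UP n Seg := UP_mono Seg_Lk (UP_Lk 199)

lemma Seg_ne (z y : W n) (h : Seg z y) : y ≠ 0 := by
  rintro rfl
  have := h.2.1
  rw [norm_zero] at this
  exact zero_ne_one this

/-- Two points of norm one are joined by three segments. -/
lemma three_seg (hn : 1 ≤ n) (z z' : W n) (hz : ‖z‖ = 1) (hz' : ‖z'‖ = 1) :
    ∃ y, (∃ x, Seg z x ∧ Seg x y) ∧ Seg y z' := by
  have hex : ∀ z : W n, ‖z‖ = 1 → ∃ k, ‖z k‖ = 1 := by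
    intro z hz
    by_contra hcon
    push Not at hcon
    have hlt : ‖z‖ < 1 := by
      rw [pi_norm_lt_iff one_pos]
      intro k
      refine lt_of_le_of_ne ?_ (hcon k)
      rw [← hz]
      exact norm_le_pi_norm z k
    exact absurd hz hlt.ne
  obtain ⟨k, hk⟩ := hex z hz
  obtain ⟨l, hl⟩ := hex z' hz'
  have hup : ∀ (z : W n) (m : Fin (n + 1)) (a : ℂ), ‖z‖ = 1 → ‖a‖ = 1 →
      ‖Function.update z m a‖ = 1 := by
    intro z m a hz ha
    apply le_antisymm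
    · rw [pi_norm_le_iff_of_nonneg zero_le_one]
      intro i
      by_cases hi : i = m
      · subst hi
        rw [Function.update_self, ha]
      · rw [Function.update_of_ne hi, ← hz]
        exact norm_le_pi_norm _ _
    · have := norm_le_pi_norm (Function.update z m a) m
      rwa [Function.update_self, ha] at this
  by_cases hkl : k = l
  · subst hkl
    obtain ⟨m, hm⟩ : ∃ m : Fin (n + 1), m ≠ k := by
      have : Nontrivial (Fin (n + 1)) := Fin.nontrivial_iff_two_le.mpr (by omega)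
      exact exists_ne k
    refine ⟨Function.update z' m 1, ⟨Function.update z m 1, ⟨hz, hup z m 1 hz norm_one, k, ?_, hk⟩,
      ⟨hup z m 1 hz norm_one, hup z' m 1 hz' norm_one, m, ?_, ?_⟩⟩,
      ⟨hup z' m 1 hz' norm_one, hz', k, ?_, ?_⟩⟩
    · rw [Function.update_of_ne hm.symm]
    · rw [Function.update_self, Function.update_self]
    · rw [Function.update_self, norm_one]
    · rw [Function.update_of_ne hm.symm]
    · rw [Function.update_of_ne hm.symm, hl]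
  · refine ⟨z', ⟨Function.update z l (z' l), ⟨hz, hup z l _ hz hl, k, ?_, hk⟩,
      ⟨hup z l _ hz hl, hz', l, ?_, ?_⟩⟩, ⟨hz', hz', l, rfl, hl⟩⟩
    · rw [Function.update_of_ne hkl]
    · rw [Function.update_self]
    · rw [Function.update_self, hl]

end ChnAux

open ChnAux in
theorem compare (n : ℕ) (hn : 1 ≤ n) : ∀ ε : ℝ, 0 < ε → ∃ δ : ℝ, 0 < δ ∧ ∀ Φ : W n → W n,
    HLoc Φ → (∀ z : W n, z ≠ 0 → ∃ M : (EndW n)ˣ, Good Φ z (‖z‖ / 8) δ M) →
    ∀ z z' : W n, z ≠ 0 → z' ≠ 0 → ∀ M M' : (EndW n)ˣ,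
      Good Φ z (‖z‖ / 8) δ M → Good Φ z' (‖z'‖ / 8) δ M' →
        ‖(↑M⁻¹ : EndW n) * (M' : EndW n) - 1‖ ≤ ε := by
  intro ε hε
  obtain ⟨δ, hδ, h⟩ := UP_comp (UP_comp (UP_Seg (n := n)) UP_Seg Seg_ne) UP_Seg
    (fun z y ⟨x, _, hx⟩ => Seg_ne x y hx) ε hε
  refine ⟨δ, hδ, fun Φ hΦ hex z z' hz hz' M M' hM hM' => ?_⟩
  have hnorm : ∀ z : W n, z ≠ 0 → ‖(‖z‖⁻¹ : ℝ) • z‖ = 1 := by
    intro z hz
    rw [norm_smul, norm_inv, norm_norm, inv_mul_cancel₀ (norm_ne_zero_iff.mpr hz)]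
  have hgood : ∀ (z : W n) (M : (EndW n)ˣ), z ≠ 0 → Good Φ z (‖z‖ / 8) δ M →
      Good Φ ((‖z‖⁻¹ : ℝ) • z) (‖(‖z‖⁻¹ : ℝ) • z‖ / 8) δ M := by
    intro z M hz hM
    have hpos : 0 < ‖z‖ := norm_pos_iff.mpr hz
    have := (good_smul hΦ (r := ‖z‖⁻¹) (by positivity) hz (ρ := ‖z‖ / 8) (by positivity)
      (by linarith) (ε := δ) (M := M)).mpr hM
    rw [hnorm z hz]
    rwa [show ‖z‖⁻¹ * (‖z‖ / 8) = 1 / 8 by field_simp] at this
  exact h Φ hΦ hex _ _ (three_seg hn _ _ (hnorm z hz) (hnorm z' hz')) M M' (hgood z M hz hM)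
    (hgood z' M' hz' hM')

end Pool.Agent.Lib.P28e
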