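import Pool.Agent.Lib.P28b04d.Final

set_option autoImplicit false

/-!
# The critical energy of a homogeneous lift: definitions

`W n = ℂ^(n+1)` with the maximum norm; `HLoc Φ` (helper28): `Φ` is smooth (over `ℝ`) off `0`, `Φ (c z) = c Φ z` for complex `c`, and
`dΦ_z` is injective for `z ≠ 0`. `conn Φ x = (dΦ_x)⁻¹ ∘ D²Φ_x`, `energy Φ = ∫_{|x| < 1} |conn Φ x|^(2n) dx`.
`Good Φ z ρ ε M`: the mean of `|M⁻¹ dΦ_x - 1|` over the ball `B(z, ρ)` is at most `ε`.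
-/

open MeasureTheory Set Metric
open scoped ENNReal

namespace Pool.Agent.Lib.P28e

open Pool.Agent.P28b04d

/-- `ℂ^(n+1)` with the maximum norm. -/
abbrev W (n : ℕ) : Type := Fin (n + 1) → ℂ

/-- Endomorphisms over `ℝ`. -/
abbrev EndW (n : ℕ) : Type := W n →L[ℝ] W n

/-- `v ↦ (dΦ_x)⁻¹ ∘ D²Φ_x (v, ·)`. -/
noncomputable def conn {n : ℕ} (Φ : W n → W n) (x : W n) : W n →L[ℝ] EndW n :=
  (ContinuousLinearMap.compL ℝ (W n) (W n) (W n) (fderiv ℝ Φ x).inverse).comp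
    (fderiv ℝ (fderiv ℝ Φ) x)

/-- The critical energy of a lift. -/
noncomputable def energy {n : ℕ} (Φ : W n → W n) : ℝ≥0∞ :=
  ∫⁻ x in ball (0 : W n) 1, ‖conn Φ x‖ₑ ^ (2 * n)

/-- The mean of `|M⁻¹ dΦ - 1|` over the ball is at most `ε`. -/
def Good {n : ℕ} (Φ : W n → W n) (z : W n) (ρ ε : ℝ) (M : (EndW n)ˣ) : Prop :=
  ∫⁻ x in closedBall z ρ, ‖(↑M⁻¹ : EndW n) * fderiv ℝ Φ x - 1‖ₑ ≤
    ENNReal.ofReal ε * volume (closedBall z ρ)

/-- The base point `(1, 0, …, 0)`. -/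
def e0 (n : ℕ) : W n := Fin.cons 1 0

/-- Multiplication by a complex number, as a real endomorphism. -/
noncomputable def mulC {n : ℕ} (c : ℂ) : EndW n :=
  (c • ContinuousLinearMap.id ℂ (W n)).restrictScalars ℝ

/-- Hermitian length. -/
noncomputable def rad {n : ℕ} (z : W n) : ℝ := Real.sqrt (nsq z)

/-- The largest parameter of the averages. -/
noncomputable def sm (n : ℕ) : ℝ := 1 / (8 * ((n : ℝ) + 1))

/-- The averages of a lift. -/
noncomputable def Avg {n : ℕ} (Φ : W n → W n) (s : ℝ) (z : W n) : W n :=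
  ((volume (closedBall (0 : W n) 1)).toReal)⁻¹ •
    ∫ η in closedBall (0 : W n) 1, Φ (z + (s * rad z) • η)

end Pool.Agent.Lib.P28e
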