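import Pool.Agent.Lib.P28e.Gns

set_option autoImplicit false

/-!
# The gap lemma: invertible means for functions with small critical energy
-/

open MeasureTheory Set
open scoped ENNReal

namespace Pool.Agent.Lib.P28e

variable {A : Type*} [NormedRing A] [NormedAlgebra ℝ A] [CompleteSpace A] [NormOneClass A]

omit [NormedAlgebra ℝ A] [CompleteSpace A] [NormOneClass A] in
theorem enorm_mul_le2 (a b : A) : ‖a * b‖ₑ ≤ ‖a‖ₑ * ‖b‖ₑ := by
  have := nnnorm_mul_le a b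
  simp only [enorm]
  exact_mod_cast this

theorem rpow_vol {d : ℕ} (hd : 2 ≤ d) {p : ℝ} (hp : Real.HolderConjugate d p) {ℓ : ℝ}
    (hℓ : 0 < ℓ) : (ENNReal.ofReal ℓ ^ d) ^ (1 / p) = ENNReal.ofReal (ℓ ^ (d - 1)) := by
  have hp0 : 0 < p := hp.symm.pos
  have h1 : 1 ≤ d := by omega
  have e : (d : ℝ) * (1 / p) = ((d - 1 : ℕ) : ℝ) := by
    have := hp.inv_add_inv_eq_one
    have hd0 : (d : ℝ) ≠ 0 := by positivity
    rw [Nat.cast_sub h1, Nat.cast_one]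
    field_simp at this ⊢
    linarith
  rw [← ENNReal.rpow_natCast, ← ENNReal.rpow_mul, e, ENNReal.rpow_natCast, ENNReal.ofReal_pow hℓ.le]

theorem rpow_vol' {d : ℕ} (hd : 2 ≤ d) (ℓ : ℝ) :
    (ENNReal.ofReal ℓ ^ d) ^ (1 / (d : ℝ)) = ENNReal.ofReal ℓ := by
  have hd0 : (d : ℝ) ≠ 0 := by positivity
  rw [← ENNReal.rpow_natCast, ← ENNReal.rpow_mul, mul_one_div_cancel hd0, ENNReal.rpow_one]

theorem lintegral_le_Lp {d : ℕ} (hd : 2 ≤ d) {p : ℝ} (hp : Real.HolderConjugate d p)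
    (a : Fin d → ℝ) (ℓ : ℝ) {φ : (Fin d → ℝ) → ℝ≥0∞} (hφ : Measurable φ) :
    ∫⁻ x, φ x ∂cm a ℓ ≤ ENNReal.ofReal ℓ * (∫⁻ x, φ x ^ p ∂cm a ℓ) ^ (1 / p) := by
  have h := ENNReal.lintegral_mul_le_Lp_mul_Lq (cm a ℓ) hp (f := fun _ => 1) (g := φ)
    measurable_const.aemeasurable hφ.aemeasurable
  simp only [Pi.mul_apply, one_mul, ENNReal.one_rpow, lintegral_const, cm_univ] at h
  rwa [rpow_vol' hd] at h

/-- The absorption argument. -/
theorem absorb {d : ℕ} (hd : 2 ≤ d) {p : ℝ} (hp : Real.HolderConjugate d p) (a : Fin d → ℝ)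
    {ℓ : ℝ} (hℓ : 0 < ℓ) {u : (Fin d → ℝ) → A} {U : Fin d → (Fin d → ℝ) → A} (h : Par u U)
    (hu : ∀ y, IsUnit (u y)) {α : (Fin d → ℝ) → ℝ≥0∞} (hα : Measurable α)
    (hU : ∀ i y, ‖Ring.inverse (u y) * U i y‖ₑ ≤ α y) {κ : ℝ} (hκ0 : 0 ≤ κ) (hκ : κ ≤ 1 / 4)
    (hE : ((d : ℝ≥0∞) / 2 + 1) * (∫⁻ y, α y ^ (d : ℝ) ∂cm a ℓ) ^ (1 / (d : ℝ)) ≤
      ENNReal.ofReal κ) (N : A) :
    (∫⁻ x, ‖N * u x - mn a ℓ (fun y => N * u y)‖ₑ ^ p ∂cm a ℓ) ^ (1 / p) ≤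
      ENNReal.ofReal (4 / 3 * κ * ‖mn a ℓ (fun y => N * u y)‖ * ℓ ^ (d - 1)) := by
  have hp0 : 0 < p := hp.symm.pos
  have hp1 : 1 ≤ p := hp.symm.lt.le
  have cw : Continuous fun y => N * u y := continuous_const.mul h.cont
  have hPar : Par (fun y => N * u y) (fun i y => N * U i y) := by
    refine ⟨cw, fun i => continuous_const.mul (h.contG i), fun i x => ?_⟩
    exact (h.deriv i x).const_mul N
  set m := mn a ℓ (fun y => N * u y) with hm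
  have hD : Measurable fun y => ‖N * u y‖ₑ * α y := cw.enorm.measurable.mul hα
  have hGD : ∀ i y, ‖N * U i y‖ₑ ≤ ‖N * u y‖ₑ * α y := by
    intro i y
    have e : N * U i y = (N * u y) * (Ring.inverse (u y) * U i y) := by
      rw [mul_assoc N, ← mul_assoc (u y), Ring.mul_inverse_cancel _ (hu y), one_mul]
    rw [e]
    exact (enorm_mul_le2 _ _).trans (by gcongr; exact hU i y)
  have hS := sobolev hd a hℓ hPar hD hGD hp
  set X : ℝ≥0∞ := (∫⁻ x, ‖N * u x - m‖ₑ ^ p ∂cm a ℓ) ^ (1 / p) with hX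
  set B : ℝ≥0∞ := ‖m‖ₑ * ENNReal.ofReal (ℓ ^ (d - 1)) with hB
  have hH : ∫⁻ y, ‖N * u y‖ₑ * α y ∂cm a ℓ ≤
      (∫⁻ y, α y ^ (d : ℝ) ∂cm a ℓ) ^ (1 / (d : ℝ)) *
        (∫⁻ y, ‖N * u y‖ₑ ^ p ∂cm a ℓ) ^ (1 / p) := by
    have h1 := ENNReal.lintegral_mul_le_Lp_mul_Lq (cm a ℓ) hp (f := α) (g := fun y => ‖N * u y‖ₑ)
      hα.aemeasurable cw.enorm.measurable.aemeasurable
    refine le_trans (le_of_eq ?_) h1
    refine lintegral_congr fun y => ?_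
    simp [mul_comm]
  have hY : (∫⁻ y, ‖N * u y‖ₑ ^ p ∂cm a ℓ) ^ (1 / p) ≤ X + B := by
    have h1 := ENNReal.lintegral_Lp_add_le (μ := cm a ℓ) (f := fun y => ‖N * u y - m‖ₑ)
      (g := fun _ => ‖m‖ₑ) ((cw.sub continuous_const).enorm.measurable.aemeasurable)
      measurable_const.aemeasurable hp1
    have h2 : (∫⁻ y, ‖N * u y‖ₑ ^ p ∂cm a ℓ) ^ (1 / p) ≤
        (∫⁻ y, ((fun y => ‖N * u y - m‖ₑ) + (fun _ => ‖m‖ₑ) : (Fin d → ℝ) → ℝ≥0∞) y ^ p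
          ∂cm a ℓ) ^ (1 / p) := by
      refine ENNReal.rpow_le_rpow (lintegral_mono fun y => ?_) (by positivity)
      refine ENNReal.rpow_le_rpow ?_ hp0.le
      have e : N * u y = (N * u y - m) + m := by abel
      calc ‖N * u y‖ₑ = ‖(N * u y - m) + m‖ₑ := by rw [← e]
        _ ≤ _ := enorm_add_le _ _
    refine (h2.trans h1).trans ?_
    gcongr
    rw [lintegral_const, cm_univ, ENNReal.mul_rpow_of_nonneg _ _ (by positivity),
      ← ENNReal.rpow_mul, mul_one_div_cancel hp0.ne', ENNReal.rpow_one, rpow_vol hd hp hℓ]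
  have hXle : X ≤ ENNReal.ofReal κ * (X + B) := by
    calc X ≤ ((d : ℝ≥0∞) / 2 + 1) * ∫⁻ y, ‖N * u y‖ₑ * α y ∂cm a ℓ := hS
      _ ≤ ((d : ℝ≥0∞) / 2 + 1) * ((∫⁻ y, α y ^ (d : ℝ) ∂cm a ℓ) ^ (1 / (d : ℝ)) * (X + B)) := by
          gcongr
          exact hH.trans (by gcongr)
      _ = (((d : ℝ≥0∞) / 2 + 1) * (∫⁻ y, α y ^ (d : ℝ) ∂cm a ℓ) ^ (1 / (d : ℝ))) * (X + B) := by
          rw [mul_assoc]
      _ ≤ ENNReal.ofReal κ * (X + B) := by gcongr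
  have hXfin : X ≠ ∞ := by
    rw [hX]
    refine ENNReal.rpow_ne_top_of_nonneg (by positivity) ?_
    have hc : Continuous fun y => N * u y - m := cw.sub continuous_const
    obtain ⟨C, hC⟩ := isCompact_Icc.exists_bound_of_continuousOn
      (s := Icc a (fun i => a i + ℓ)) hc.continuousOn
    have hC' : ∀ᵐ x ∂cm a ℓ, ‖N * u x - m‖ₑ ^ p ≤ ENNReal.ofReal C ^ p := by
      rw [cm_eq]
      filter_upwards [ae_restrict_mem measurableSet_Icc] with x hx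
      refine ENNReal.rpow_le_rpow ?_ hp0.le
      rw [← ofReal_norm_eq_enorm]
      exact ENNReal.ofReal_le_ofReal (hC x hx)
    refine ne_top_of_le_ne_top ?_ (lintegral_mono_ae hC')
    rw [lintegral_const]
    exact ENNReal.mul_ne_top (ENNReal.rpow_ne_top_of_nonneg hp0.le ENNReal.ofReal_ne_top)
      (measure_ne_top _ _)
  have hBfin : B ≠ ∞ := ENNReal.mul_ne_top enorm_ne_top ENNReal.ofReal_ne_top
  -- real arithmetic
  have hx : X.toReal ≤ κ * (X.toReal + ‖m‖ * ℓ ^ (d - 1)) := by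
    have h1 := ENNReal.toReal_mono (ENNReal.mul_ne_top ENNReal.ofReal_ne_top
      (ENNReal.add_ne_top.2 ⟨hXfin, hBfin⟩)) hXle
    rw [ENNReal.toReal_mul, ENNReal.toReal_ofReal hκ0, ENNReal.toReal_add hXfin hBfin] at h1
    have h2 : B.toReal = ‖m‖ * ℓ ^ (d - 1) := by
      rw [hB, ENNReal.toReal_mul, toReal_enorm, ENNReal.toReal_ofReal (by positivity)]
    rwa [h2] at h1
  have hb0 : 0 ≤ ‖m‖ * ℓ ^ (d - 1) := by positivity
  have hx0 : 0 ≤ X.toReal := ENNReal.toReal_nonneg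
  have hx2 : X.toReal ≤ 4 / 3 * κ * ‖m‖ * ℓ ^ (d - 1) := by
    have h3 : (1 - κ) * X.toReal ≤ κ * (‖m‖ * ℓ ^ (d - 1)) := by linarith
    have h4 : 3 / 4 * X.toReal ≤ (1 - κ) * X.toReal := by
      apply mul_le_mul_of_nonneg_right _ hx0
      linarith
    nlinarith
  rw [← ENNReal.ofReal_toReal hXfin]
  exact ENNReal.ofReal_le_ofReal hx2

/-- The centred cube with half side `s`. -/
noncomputable def cs (d : ℕ) (s : ℝ) : Measure (Fin d → ℝ) := cm (fun _ : Fin d => -s) (2 * s)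

/-- The mean over the centred cube with half side `s`. -/
noncomputable def ms {d : ℕ} (s : ℝ) (g : (Fin d → ℝ) → A) : A :=
  mn (fun _ : Fin d => -s) (2 * s) g

theorem cs_mono {d : ℕ} {s s' : ℝ} (h : s ≤ s') : cs d s ≤ cs d s' := by
  unfold cs
  rw [cm_eq, cm_eq]
  refine Measure.restrict_mono_set _ ?_
  refine Icc_subset_Icc ?_ ?_
  · intro i; simpa using h
  · intro i
    show -s + 2 * s ≤ -s' + 2 * s'
    linarith

theorem mn_const_mul {d : ℕ} (a : Fin d → ℝ) (ℓ : ℝ) {u : (Fin d → ℝ) → A} (hu : Continuous u)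
    (N : A) : mn a ℓ (fun y => N * u y) = N * mn a ℓ u := by
  unfold mn
  rw [integral_const_mul_of_integrable (integrable_cm a ℓ hu), mul_smul_comm]

/-- Two concentric cubes. -/
theorem two_cubes {d : ℕ} (hd : 2 ≤ d) {p : ℝ} (hp : Real.HolderConjugate d p)
    {u : (Fin d → ℝ) → A} {U : Fin d → (Fin d → ℝ) → A} (h : Par u U)
    (hu : ∀ y, IsUnit (u y)) {α : (Fin d → ℝ) → ℝ≥0∞} (hα : Measurable α)
    (hU : ∀ i y, ‖Ring.inverse (u y) * U i y‖ₑ ≤ α y) {κ : ℝ} (hκ0 : 0 ≤ κ) (hκ : κ ≤ 1 / 4)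
    {s s' : ℝ} (hs : 0 < s) (hss : s ≤ s') (hratio : s' ^ (d - 1) ≤ 6 / 5 * s ^ (d - 1))
    (hE : ((d : ℝ≥0∞) / 2 + 1) * (∫⁻ y, α y ^ (d : ℝ) ∂cs d s') ^ (1 / (d : ℝ)) ≤
      ENNReal.ofReal κ) (hM : IsUnit (ms s u)) : IsUnit (ms s' u) := by
  obtain ⟨M, hM⟩ := hM
  have hs' : 0 < s' := lt_of_lt_of_le hs hss
  set N : A := ↑M⁻¹ with hN
  have hNM : N * ms s u = 1 := by rw [← hM, hN]; exact Units.inv_mul M
  have cw : Continuous fun y => N * u y := continuous_const.mul h.cont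
  set m := ms s' (fun y => N * u y) with hm
  have hX := absorb hd hp (fun _ : Fin d => -s') (ℓ := 2 * s') (by positivity) h hu hα hU hκ0 hκ
    hE N
  have h1 : mn (fun _ : Fin d => -s) (2 * s) (fun y => N * u y) = 1 := by
    rw [mn_const_mul _ _ h.cont]; exact hNM
  have hℓ : (0 : ℝ) < 2 * s := by positivity
  have hdev := enorm_sub_mn_le (fun _ : Fin d => -s) hℓ cw m
  rw [h1] at hdev
  have hint : ∫⁻ y, ‖m - N * u y‖ₑ ∂cm (fun _ : Fin d => -s) (2 * s) ≤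
      ENNReal.ofReal (2 * s) * ENNReal.ofReal (4 / 3 * κ * ‖m‖ * (2 * s') ^ (d - 1)) := by
    have hφ : Measurable fun y => ‖m - N * u y‖ₑ := (continuous_const.sub cw).enorm.measurable
    refine (lintegral_le_Lp hd hp _ _ hφ).trans ?_
    gcongr
    refine le_trans ?_ hX
    refine ENNReal.rpow_le_rpow ?_ (by have := hp.symm.pos; positivity)
    calc ∫⁻ y, ‖m - N * u y‖ₑ ^ p ∂cm (fun _ : Fin d => -s) (2 * s)
        ≤ ∫⁻ y, ‖m - N * u y‖ₑ ^ p ∂cm (fun _ : Fin d => -s') (2 * s') :=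
          lintegral_mono' (cs_mono hss) le_rfl
      _ = ∫⁻ y, ‖N * u y - m‖ₑ ^ p ∂cm (fun _ : Fin d => -s') (2 * s') := by
          refine lintegral_congr fun y => ?_
          rw [← enorm_neg, neg_sub]
  have hdev2 : ‖m - 1‖ₑ ≤ ENNReal.ofReal (((2 * s) ^ d)⁻¹ * ((2 * s) *
      (4 / 3 * κ * ‖m‖ * (2 * s') ^ (d - 1)))) := by
    refine hdev.trans ?_
    have e1 : ∀ ℓ T : ℝ, 0 < ℓ → ENNReal.ofReal ((ℓ ^ d)⁻¹ * (ℓ * T)) =
        (ENNReal.ofReal ℓ ^ d)⁻¹ * (ENNReal.ofReal ℓ * ENNReal.ofReal T) := by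
      intro ℓ T hℓ
      rw [ENNReal.ofReal_mul (by positivity), ENNReal.ofReal_mul hℓ.le,
        ENNReal.ofReal_inv_of_pos (by positivity), ENNReal.ofReal_pow hℓ.le]
    rw [e1 _ _ hℓ]
    gcongr
  have hdev3 : ‖m - 1‖ ≤ ((2 * s) ^ d)⁻¹ * ((2 * s) * (4 / 3 * κ * ‖m‖ * (2 * s') ^ (d - 1))) := by
    rw [← ofReal_norm_eq_enorm] at hdev2
    exact (ENNReal.ofReal_le_ofReal_iff (by positivity)).1 hdev2
  have hd1 : d = (d - 1) + 1 := by omega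
  have hdev4 : ‖m - 1‖ ≤ 2 / 5 * ‖m‖ := by
    refine hdev3.trans ?_
    have e : ((2 * s) ^ d)⁻¹ * ((2 * s) * (4 / 3 * κ * ‖m‖ * (2 * s') ^ (d - 1))) =
        (4 / 3 * κ) * (s' ^ (d - 1) / s ^ (d - 1)) * ‖m‖ := by
      have : (2 * s) ^ d = (2 * s) ^ (d - 1) * (2 * s) := by
        conv_lhs => rw [hd1, pow_succ]
      rw [this, mul_pow, mul_pow]
      field_simp
    rw [e]
    have hr : s' ^ (d - 1) / s ^ (d - 1) ≤ 6 / 5 := by
      rw [div_le_iff₀ (by positivity)]; exact hratio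
    have hr0 : 0 ≤ s' ^ (d - 1) / s ^ (d - 1) := by positivity
    have : (4 / 3 * κ) * (s' ^ (d - 1) / s ^ (d - 1)) ≤ 2 / 5 := by
      calc (4 / 3 * κ) * (s' ^ (d - 1) / s ^ (d - 1)) ≤ (4 / 3 * (1 / 4)) * (6 / 5) := by
            gcongr
        _ = 2 / 5 := by norm_num
    exact mul_le_mul_of_nonneg_right this (norm_nonneg _)
  have hlt : ‖1 - m‖ < 1 := by
    rw [norm_sub_rev]
    have h2 : ‖m‖ ≤ ‖m - 1‖ + 1 := by
      calc ‖m‖ = ‖(m - 1) + 1‖ := by rw [sub_add_cancel]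
        _ ≤ ‖m - 1‖ + ‖(1 : A)‖ := norm_add_le _ _
        _ = ‖m - 1‖ + 1 := by rw [norm_one]
    linarith
  have hmu : IsUnit m := by
    have := (Units.oneSub (1 - m) hlt).isUnit
    rwa [Units.val_oneSub, sub_sub_cancel] at this
  have hmN : m = N * ms s' u := mn_const_mul _ _ h.cont N
  have : ms s' u = M * m := by
    rw [hmN, ← mul_assoc, hN, Units.mul_inv, one_mul]
  rw [this]
  exact M.isUnit.mul hmu

end Pool.Agent.Lib.P28e
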