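import Pool.Agent.Lib.P28e.Gap

set_option autoImplicit false

/-!
# The gap lemma, continued: the continuity argument
-/

open MeasureTheory Set
open scoped ENNReal Pointwise

namespace Pool.Agent.Lib.P28e

variable {A : Type*} [NormedRing A] [NormedAlgebra ℝ A] [CompleteSpace A] [NormOneClass A]

theorem cs_eq (d : ℕ) (s : ℝ) : cs d s = (volume : Measure (Fin d → ℝ)).restrict
    (Icc (fun _ => -s) (fun _ => s)) := by
  unfold cs
  rw [cm_eq]
  congr 2
  ext i
  ring

/-- The mean in scaled form. -/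
noncomputable def fs {d : ℕ} (u : (Fin d → ℝ) → A) (s : ℝ) : A :=
  ((2 : ℝ) ^ d)⁻¹ • ∫ y in Icc (fun _ : Fin d => (-1 : ℝ)) (fun _ => 1), u (s • y)

theorem continuous_fs {d : ℕ} {u : (Fin d → ℝ) → A} (hu : Continuous u) : Continuous (fs u) := by
  unfold fs
  refine Continuous.const_smul ?_ _
  have hc : Continuous (Function.uncurry fun (s : ℝ) (y : Fin d → ℝ) => u (s • y)) := by
    have : Continuous fun p : ℝ × (Fin d → ℝ) => p.1 • p.2 := by fun_prop
    exact hu.comp this
  exact continuous_parametric_integral_of_continuous hc isCompact_Icc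

theorem fs_zero {d : ℕ} (u : (Fin d → ℝ) → A) : fs u 0 = u 0 := by
  unfold fs
  simp only [zero_smul, integral_const, MeasurableSet.univ, measureReal_restrict_apply, univ_inter]
  rw [smul_smul]
  have : (volume : Measure (Fin d → ℝ)).real (Icc (fun _ => -1) (fun _ => 1)) = 2 ^ d := by
    rw [Measure.real, Real.volume_Icc_pi]
    simp
    norm_num
  rw [this, inv_mul_cancel₀ (by positivity), one_smul]

theorem fs_eq {d : ℕ} (u : (Fin d → ℝ) → A) {s : ℝ} (hs : 0 < s) : fs u s = ms s u := by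
  unfold fs ms mn
  have h1 : cm (fun _ : Fin d => -s) (2 * s) = (volume : Measure (Fin d → ℝ)).restrict
    (Icc (fun _ => -s) (fun _ => s)) := cs_eq d s
  rw [h1]
  have h2 : s • Icc (fun _ : Fin d => (-1 : ℝ)) (fun _ => 1) =
      Icc (fun _ : Fin d => -s) (fun _ => s) := by
    ext x
    rw [mem_smul_set_iff_inv_smul_mem₀ hs.ne']
    simp only [mem_Icc, Pi.le_def, Pi.smul_apply, smul_eq_mul]
    constructor
    · rintro ⟨h1, h2⟩
      refine ⟨fun i => ?_, fun i => ?_⟩
      · have := h1 i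
        rw [inv_mul_eq_div, le_div_iff₀ hs] at this
        linarith
      · have := h2 i
        rw [inv_mul_eq_div, div_le_iff₀ hs] at this
        linarith
    · rintro ⟨h1, h2⟩
      refine ⟨fun i => ?_, fun i => ?_⟩
      · rw [inv_mul_eq_div, le_div_iff₀ hs]
        have := h1 i
        linarith
      · rw [inv_mul_eq_div, div_le_iff₀ hs]
        have := h2 i
        linarith
  have h3 := Measure.setIntegral_comp_smul_of_pos (volume : Measure (Fin d → ℝ)) u
    (Icc (fun _ : Fin d => (-1 : ℝ)) (fun _ => 1)) hs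
  rw [h3, h2, smul_smul]
  congr 1
  rw [Module.finrank_pi, Fintype.card_fin, mul_pow, mul_inv]

/-- **The gap lemma.** Small critical energy on the cube with half side `S` implies that all
means over the smaller concentric cubes are invertible and close to the function. -/
theorem gap {d : ℕ} (hd : 2 ≤ d) {p : ℝ} (hp : Real.HolderConjugate d p)
    {u : (Fin d → ℝ) → A} {U : Fin d → (Fin d → ℝ) → A} (h : Par u U)
    (hu : ∀ y, IsUnit (u y)) {α : (Fin d → ℝ) → ℝ≥0∞} (hα : Measurable α)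
    (hU : ∀ i y, ‖Ring.inverse (u y) * U i y‖ₑ ≤ α y) {κ : ℝ} (hκ0 : 0 ≤ κ) (hκ : κ ≤ 1 / 4)
    {S : ℝ} (hE : ((d : ℝ≥0∞) / 2 + 1) * (∫⁻ y, α y ^ (d : ℝ) ∂cs d S) ^ (1 / (d : ℝ)) ≤
      ENNReal.ofReal κ) {s : ℝ} (hs : 0 < s) (hsS : s ≤ S) :
    ∃ M : Aˣ, (M : A) = ms s u ∧
      (∫⁻ y, ‖(↑M⁻¹ : A) * u y - 1‖ₑ ^ p ∂cs d s) ^ (1 / p) ≤
        ENNReal.ofReal (4 / 3 * κ * (2 * s) ^ (d - 1)) := by
  have hEs : ∀ s' ≤ S, ((d : ℝ≥0∞) / 2 + 1) * (∫⁻ y, α y ^ (d : ℝ) ∂cs d s') ^ (1 / (d : ℝ)) ≤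
      ENNReal.ofReal κ := by
    intro s' hs'
    refine le_trans ?_ hE
    gcongr
    exact cs_mono hs'
  have hunit : IsUnit (ms s u) := by
    by_contra hcon
    set B : Set ℝ := {t | t ∈ Icc 0 S ∧ ¬ IsUnit (fs u t)} with hB
    have hBc : IsClosed B := by
      have h1 : IsClosed {t : ℝ | ¬ IsUnit (fs u t)} := by
        have : IsOpen {t : ℝ | IsUnit (fs u t)} :=
          (Units.isOpen (R := A)).preimage (continuous_fs h.cont)
        exact isClosed_compl_iff.2 this
      exact isClosed_Icc.inter h1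
    have hne : B.Nonempty := ⟨s, ⟨hs.le, hsS⟩, by rwa [fs_eq u hs]⟩
    have hbdd : BddBelow B := ⟨0, fun t ht => ht.1.1⟩
    have hmem := hBc.csInf_mem hne hbdd
    set t := sInf B with ht
    have ht0 : t ≠ 0 := by
      intro h0
      have := hmem.2
      rw [h0, fs_zero] at this
      exact this (hu 0)
    have htpos : 0 < t := lt_of_le_of_ne hmem.1.1 (Ne.symm ht0)
    -- a slightly smaller parameter
    set k : ℕ := d - 1 with hk
    have hk1 : 1 ≤ k := by omega
    have hkr : (1 : ℝ) ≤ k := by exact_mod_cast hk1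
    set r : ℝ := 1 - 1 / (6 * k) with hr
    have hr1 : r < 1 := by
      rw [hr]
      have : 0 < 1 / (6 * (k : ℝ)) := by positivity
      linarith
    have hr0 : 0 < r := by
      rw [hr]
      have : 1 / (6 * (k : ℝ)) ≤ 1 / 6 := by
        apply one_div_le_one_div_of_le (by norm_num)
        linarith
      linarith
    have hrk : 5 / 6 ≤ r ^ k := by
      have h1 := one_add_mul_le_pow (a := -(1 / (6 * (k : ℝ)))) (by
        have : 1 / (6 * (k : ℝ)) ≤ 1 / 6 := by
          apply one_div_le_one_div_of_le (by norm_num)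
          linarith
        linarith) k
      have h2 : 1 + (k : ℝ) * -(1 / (6 * (k : ℝ))) = 5 / 6 := by
        field_simp
        norm_num
      rw [h2] at h1
      have h3 : 1 + -(1 / (6 * (k : ℝ))) = r := by rw [hr]; ring
      rwa [h3] at h1
    have hrt : 0 < r * t := by positivity
    have hlt : r * t < t := by nlinarith
    have hnot : r * t ∉ B := notMem_of_lt_csInf hlt hbdd
    have hun : IsUnit (fs u (r * t)) := by
      by_contra hc
      exact hnot ⟨⟨hrt.le, hlt.le.trans hmem.1.2⟩, hc⟩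
    rw [fs_eq u hrt] at hun
    have hratio : t ^ (d - 1) ≤ 6 / 5 * (r * t) ^ (d - 1) := by
      rw [← hk, mul_pow]
      have : 0 < t ^ k := by positivity
      nlinarith
    have := two_cubes hd hp h hu hα hU hκ0 hκ hrt hlt.le hratio (hEs t hmem.1.2) hun
    rw [← fs_eq u htpos] at this
    exact hmem.2 this
  obtain ⟨M, hM⟩ := hunit
  refine ⟨M, hM, ?_⟩
  have hX := absorb hd hp (fun _ : Fin d => -s) (ℓ := 2 * s) (by positivity) h hu hα hU hκ0 hκ
    (hEs s hsS) (↑M⁻¹ : A)
  have h1 : mn (fun _ : Fin d => -s) (2 * s) (fun y => (↑M⁻¹ : A) * u y) = 1 := by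
    rw [mn_const_mul _ _ h.cont]
    show (↑M⁻¹ : A) * ms s u = 1
    rw [← hM]; exact Units.inv_mul M
  rw [h1, norm_one, mul_one] at hX
  exact hX

end Pool.Agent.Lib.P28e
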