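import Pool.Agent.Lib.P28e.Sob

set_option autoImplicit false

/-!
# The Sobolev-Poincaré inequality on cubes
-/

open MeasureTheory Set
open scoped ENNReal

namespace Pool.Agent.Lib.P28e

variable {F : Type*} [NormedAddCommGroup F] [NormedSpace ℝ F] [CompleteSpace F]

theorem ae_cm {d : ℕ} (a : Fin d → ℝ) (ℓ : ℝ) : ∀ᵐ x ∂cm a ℓ, ∀ i, x i ∈ Icc (a i) (a i + ℓ) := by
  rw [cm_eq]
  filter_upwards [ae_restrict_mem measurableSet_Icc] with x hx i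
  exact ⟨hx.1 i, hx.2 i⟩

/-- One-dimensional bound of the value by the mean and the derivative. -/
theorem value_le {h h' : ℝ → F} (hd : ∀ t, HasDerivAt h (h' t) t) (hc : Continuous h')
    (a ℓ : ℝ) (hℓ : 0 < ℓ) {x : ℝ} (hx : x ∈ Icc a (a + ℓ)) :
    ‖h x‖ₑ ≤ ∫⁻ t in Icc a (a + ℓ), ((ENNReal.ofReal ℓ)⁻¹ * ‖h t‖ₑ + ‖h' t‖ₑ) := by
  have hch : Continuous h := continuous_iff_continuousAt.2 fun t => (hd t).continuousAt
  have hℓ0 : ENNReal.ofReal ℓ ≠ 0 := by simpa using hℓ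
  have hℓt : ENNReal.ofReal ℓ ≠ ∞ := ENNReal.ofReal_ne_top
  have h1 : ∀ t ∈ Icc a (a + ℓ), ‖h x‖ₑ ≤ ‖h t‖ₑ + ∫⁻ r in Icc a (a + ℓ), ‖h' r‖ₑ := by
    intro t ht
    have e : h x = h t + (h x - h t) := by abel
    have h2 : ‖h x‖ₑ ≤ ‖h t‖ₑ + ‖h x - h t‖ₑ := by
      conv_lhs => rw [e]
      exact enorm_add_le _ _
    refine h2.trans ?_
    gcongr
    refine (enorm_sub_le hd hc t x).trans (lintegral_mono_set ?_)
    intro r hr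
    rw [uIcc, mem_Icc] at hr
    exact ⟨(le_inf ht.1 hx.1).trans hr.1, hr.2.trans (sup_le ht.2 hx.2)⟩
  have h2 : ENNReal.ofReal ℓ * ‖h x‖ₑ ≤
      ENNReal.ofReal ℓ * ∫⁻ t in Icc a (a + ℓ), ((ENNReal.ofReal ℓ)⁻¹ * ‖h t‖ₑ + ‖h' t‖ₑ) := by
    calc ENNReal.ofReal ℓ * ‖h x‖ₑ = ∫⁻ t in Icc a (a + ℓ), ‖h x‖ₑ := by
          rw [lintegral_const, Measure.restrict_apply MeasurableSet.univ, univ_inter,
            Real.volume_Icc, mul_comm]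
          simp
      _ ≤ ∫⁻ t in Icc a (a + ℓ), (‖h t‖ₑ + ∫⁻ r in Icc a (a + ℓ), ‖h' r‖ₑ) :=
          setLIntegral_mono' measurableSet_Icc h1
      _ = (∫⁻ t in Icc a (a + ℓ), ‖h t‖ₑ) +
            ENNReal.ofReal ℓ * ∫⁻ r in Icc a (a + ℓ), ‖h' r‖ₑ := by
          rw [lintegral_add_right _ measurable_const, lintegral_const,
            Measure.restrict_apply MeasurableSet.univ, univ_inter, Real.volume_Icc, mul_comm]
          congr 2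
          simp [mul_comm]
      _ = ENNReal.ofReal ℓ * ∫⁻ t in Icc a (a + ℓ), ((ENNReal.ofReal ℓ)⁻¹ * ‖h t‖ₑ + ‖h' t‖ₑ) := by
          rw [lintegral_add_right _ hc.enorm.measurable, lintegral_const_mul _ hch.enorm.measurable,
            mul_add, ← mul_assoc, ENNReal.mul_inv_cancel hℓ0 hℓt, one_mul]
  exact (ENNReal.mul_le_mul_iff_right hℓ0 hℓt).1 h2

/-- Gagliardo-Nirenberg on a cube. -/
theorem gns {d : ℕ} (hd : 2 ≤ d) (a : Fin d → ℝ) {ℓ : ℝ} (hℓ : 0 < ℓ) {g : (Fin d → ℝ) → F}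
    {G : Fin d → (Fin d → ℝ) → F} (h : Par g G) {D : (Fin d → ℝ) → ℝ≥0∞} (hD : Measurable D)
    (hGD : ∀ i x, ‖G i x‖ₑ ≤ D x) {p : ℝ} (hp : Real.HolderConjugate d p) :
    ∫⁻ x, ‖g x‖ₑ ^ p ∂cm a ℓ ≤
      (∫⁻ x, ((ENNReal.ofReal ℓ)⁻¹ * ‖g x‖ₑ + D x) ∂cm a ℓ) ^ p := by
  have hd1 : (0 : ℝ) < (d : ℝ) - 1 := by
    have : (2 : ℝ) ≤ d := by exact_mod_cast hd
    linarith
  have hf : Measurable fun x => (ENNReal.ofReal ℓ)⁻¹ * ‖g x‖ₑ + D x :=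
    (h.cont.enorm.measurable.const_mul _).add hD
  have hp' : Real.HolderConjugate (Fintype.card (Fin d)) p := by simpa using hp
  have key := lintegral_prod_lintegral_pow_le
    (μ := fun i : Fin d => (volume : Measure ℝ).restrict (Icc (a i) (a i + ℓ))) hp' hf
  refine le_trans ?_ key
  have hpe : p = (1 / ((d : ℝ) - 1)) * d := by
    have := hp.sub_one_mul_conj
    field_simp
    linarith
  show ∫⁻ x, ‖g x‖ₑ ^ p ∂cm a ℓ ≤ ∫⁻ x, _ ∂cm a ℓ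
  refine lintegral_mono_ae ?_
  filter_upwards [ae_cm a ℓ] with x hx
  have h1 : ∀ i, ‖g x‖ₑ ≤ ∫⁻ t in Icc (a i) (a i + ℓ),
      ((ENNReal.ofReal ℓ)⁻¹ * ‖g (Function.update x i t)‖ₑ + D (Function.update x i t)) := by
    intro i
    have hcG : Continuous fun t : ℝ => G i (Function.update x i t) :=
      (h.contG i).comp (continuous_const.update i continuous_id)
    have h2 := value_le (h := fun t => g (Function.update x i t))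
      (h' := fun t => G i (Function.update x i t)) (fun t => h.line x i t) hcG (a i) ℓ hℓ (hx i)
    simp only [Function.update_eq_self] at h2
    refine h2.trans (lintegral_mono fun t => ?_)
    gcongr
    exact hGD i _
  calc ‖g x‖ₑ ^ p = ∏ _i : Fin d, ‖g x‖ₑ ^ (1 / ((d : ℝ) - 1)) := by
        rw [Finset.prod_const, Finset.card_univ, Fintype.card_fin, ← ENNReal.rpow_natCast,
          ← ENNReal.rpow_mul, hpe]
    _ ≤ ∏ i : Fin d, (∫⁻ t in Icc (a i) (a i + ℓ),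
          ((ENNReal.ofReal ℓ)⁻¹ * ‖g (Function.update x i t)‖ₑ + D (Function.update x i t))) ^
            (1 / ((d : ℝ) - 1)) := by
        refine Finset.prod_le_prod' fun i _ => ?_
        exact ENNReal.rpow_le_rpow (h1 i) (by positivity)
    _ = _ := by
        simp

/-- Mean value over the cube. -/
noncomputable def mn {d : ℕ} (a : Fin d → ℝ) (ℓ : ℝ) (g : (Fin d → ℝ) → F) : F :=
  (ℓ ^ d)⁻¹ • ∫ x, g x ∂cm a ℓ

theorem integrable_cm {d : ℕ} (a : Fin d → ℝ) (ℓ : ℝ) {g : (Fin d → ℝ) → F} (hg : Continuous g) :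
    Integrable g (cm a ℓ) := by
  rw [cm_eq]
  exact hg.integrableOn_Icc

theorem cm_real {d : ℕ} (a : Fin d → ℝ) {ℓ : ℝ} (hℓ : 0 ≤ ℓ) : (cm a ℓ).real univ = ℓ ^ d := by
  rw [Measure.real, cm_univ, ENNReal.toReal_pow, ENNReal.toReal_ofReal hℓ]

theorem sub_mn {d : ℕ} (a : Fin d → ℝ) {ℓ : ℝ} (hℓ : 0 < ℓ) {g : (Fin d → ℝ) → F}
    (hg : Continuous g) (v : F) :
    v - mn a ℓ g = (ℓ ^ d)⁻¹ • ∫ y, (v - g y) ∂cm a ℓ := by
  rw [integral_sub (integrable_const v) (integrable_cm a ℓ hg), integral_const, cm_real a hℓ.le,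
    smul_sub, smul_smul, inv_mul_cancel₀ (by positivity), one_smul, mn]

theorem enorm_sub_mn_le {d : ℕ} (a : Fin d → ℝ) {ℓ : ℝ} (hℓ : 0 < ℓ) {g : (Fin d → ℝ) → F}
    (hg : Continuous g) (v : F) :
    ‖v - mn a ℓ g‖ₑ ≤ (ENNReal.ofReal ℓ ^ d)⁻¹ * ∫⁻ y, ‖v - g y‖ₑ ∂cm a ℓ := by
  rw [sub_mn a hℓ hg v, enorm_smul]
  have e : ‖(ℓ ^ d)⁻¹‖ₑ = (ENNReal.ofReal ℓ ^ d)⁻¹ := by
    rw [Real.enorm_of_nonneg (by positivity), ENNReal.ofReal_inv_of_pos (by positivity),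
      ENNReal.ofReal_pow hℓ.le]
  rw [e]
  gcongr
  exact enorm_integral_le_lintegral_enorm _

theorem dev_le {d : ℕ} (a : Fin d → ℝ) {ℓ : ℝ} (hℓ : 0 < ℓ) {g : (Fin d → ℝ) → F}
    {G : Fin d → (Fin d → ℝ) → F} (h : Par g G) :
    ∫⁻ x, ‖g x - mn a ℓ g‖ₑ ∂cm a ℓ ≤
      ENNReal.ofReal (ℓ / 2) * ∑ i, ∫⁻ x, ‖G i x‖ₑ ∂cm a ℓ := by
  have hc0 : ENNReal.ofReal ℓ ^ d ≠ 0 := pow_ne_zero _ (by simpa using hℓ)
  have hct : ENNReal.ofReal ℓ ^ d ≠ ∞ := ENNReal.pow_ne_top ENNReal.ofReal_ne_top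
  have hm : Measurable fun x => ∫⁻ y, ‖g x - g y‖ₑ ∂cm a ℓ := by
    have : Measurable fun p : (Fin d → ℝ) × (Fin d → ℝ) => ‖g p.1 - g p.2‖ₑ :=
      ((h.cont.comp continuous_fst).sub (h.cont.comp continuous_snd)).enorm.measurable
    exact this.lintegral_prod_right' (ν := cm a ℓ)
  calc ∫⁻ x, ‖g x - mn a ℓ g‖ₑ ∂cm a ℓ
      ≤ ∫⁻ x, (ENNReal.ofReal ℓ ^ d)⁻¹ * ∫⁻ y, ‖g x - g y‖ₑ ∂cm a ℓ ∂cm a ℓ :=
        lintegral_mono fun x => enorm_sub_mn_le a hℓ h.cont (g x)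
    _ = (ENNReal.ofReal ℓ ^ d)⁻¹ * ∫⁻ x, ∫⁻ y, ‖g x - g y‖ₑ ∂cm a ℓ ∂cm a ℓ :=
        lintegral_const_mul _ hm
    _ ≤ (ENNReal.ofReal ℓ ^ d)⁻¹ * (ENNReal.ofReal (ℓ / 2) * ENNReal.ofReal ℓ ^ d *
          ∑ i, ∫⁻ x, ‖G i x‖ₑ ∂cm a ℓ) := by
        gcongr
        exact poincare d ℓ hℓ.le a g G h
    _ = ENNReal.ofReal (ℓ / 2) * ∑ i, ∫⁻ x, ‖G i x‖ₑ ∂cm a ℓ := by
        rw [mul_comm (ENNReal.ofReal (ℓ / 2)), mul_assoc, ← mul_assoc,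
          ENNReal.inv_mul_cancel hc0 hct, one_mul]

omit [CompleteSpace F] in
theorem Par.sub_const {d : ℕ} {g : (Fin d → ℝ) → F} {G : Fin d → (Fin d → ℝ) → F}
    (h : Par g G) (m : F) : Par (fun x => g x - m) G where
  cont := h.cont.sub continuous_const
  contG := h.contG
  deriv i x := (h.deriv i x).sub_const m

/-- **Sobolev-Poincaré inequality** on a cube, `L¹` to `L^{d/(d-1)}`. -/
theorem sobolev {d : ℕ} (hd : 2 ≤ d) (a : Fin d → ℝ) {ℓ : ℝ} (hℓ : 0 < ℓ) {g : (Fin d → ℝ) → F}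
    {G : Fin d → (Fin d → ℝ) → F} (h : Par g G) {D : (Fin d → ℝ) → ℝ≥0∞} (hD : Measurable D)
    (hGD : ∀ i x, ‖G i x‖ₑ ≤ D x) {p : ℝ} (hp : Real.HolderConjugate d p) :
    (∫⁻ x, ‖g x - mn a ℓ g‖ₑ ^ p ∂cm a ℓ) ^ (1 / p) ≤
      ((d : ℝ≥0∞) / 2 + 1) * ∫⁻ x, D x ∂cm a ℓ := by
  have hp0 : 0 < p := hp.symm.pos
  have hℓ0 : ENNReal.ofReal ℓ ≠ 0 := by simpa using hℓ
  have hℓt : ENNReal.ofReal ℓ ≠ ∞ := ENNReal.ofReal_ne_top
  have h1 := gns hd a hℓ (h.sub_const (mn a ℓ g)) hD hGD hp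
  have h2 : (∫⁻ x, ‖g x - mn a ℓ g‖ₑ ^ p ∂cm a ℓ) ^ (1 / p) ≤
      ∫⁻ x, ((ENNReal.ofReal ℓ)⁻¹ * ‖g x - mn a ℓ g‖ₑ + D x) ∂cm a ℓ := by
    have := ENNReal.rpow_le_rpow h1 (by positivity : 0 ≤ 1 / p)
    rwa [← ENNReal.rpow_mul _ p, mul_one_div_cancel hp0.ne', ENNReal.rpow_one] at this
  refine h2.trans ?_
  have hm : Measurable fun x => ‖g x - mn a ℓ g‖ₑ :=
    (h.cont.sub continuous_const).enorm.measurable
  rw [lintegral_add_right _ hD, lintegral_const_mul _ hm, add_mul, one_mul]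
  refine add_le_add ?_ le_rfl
  calc (ENNReal.ofReal ℓ)⁻¹ * ∫⁻ x, ‖g x - mn a ℓ g‖ₑ ∂cm a ℓ
      ≤ (ENNReal.ofReal ℓ)⁻¹ * (ENNReal.ofReal (ℓ / 2) * ∑ i, ∫⁻ x, ‖G i x‖ₑ ∂cm a ℓ) := by
        gcongr
        exact dev_le a hℓ h
    _ ≤ (ENNReal.ofReal ℓ)⁻¹ * (ENNReal.ofReal (ℓ / 2) * ∑ _i : Fin d, ∫⁻ x, D x ∂cm a ℓ) := by
        gcongr with i
        exact hGD i _
    _ = (d : ℝ≥0∞) / 2 * ∫⁻ x, D x ∂cm a ℓ := by
        have e : ENNReal.ofReal (ℓ / 2) = ENNReal.ofReal ℓ * 2⁻¹ := by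
          rw [ENNReal.ofReal_div_of_pos (by norm_num), div_eq_mul_inv]
          simp
        rw [e, Finset.sum_const, Finset.card_univ, Fintype.card_fin, nsmul_eq_mul, mul_assoc,
          ← mul_assoc (ENNReal.ofReal ℓ)⁻¹, ENNReal.inv_mul_cancel hℓ0 hℓt, one_mul,
          div_eq_mul_inv]
        ring

end Pool.Agent.Lib.P28e
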