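import Pool.Agent.Lib.P28e.Slice

set_option autoImplicit false

/-!
# `Good` at all points

PROOF SKETCH. For `z'` of norm `1/2` let `u = 2 z'` and choose `j` with `‖u j‖ = 1` (maximum norm). `exists_T`: the
complex linear map `T x = (x 0 • u + j.insertNth 0 (Fin.tail x)) / 2` satisfies `T (e0 n) = z'`, `‖T x‖ ≤ ‖x‖`; inverse
`w ↦ (2 w j / u j, 2 w_i - (2 w j / u j) u_i (i ≠ j))`, `‖T⁻¹ w‖ ≤ 4 ‖w‖`. Let `c = |det T|`, so
`volume (T '' s) = c * volume s`, `4 ^ (-(2n+2)) ≤ c ≤ 1`.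
Energy: `conn (Φ ∘ T) x v = T⁻¹ * conn Φ (T x) (T v) * T`, so `‖conn (Φ ∘ T) x‖ ≤ 4 ‖conn Φ (T x)‖` and
`energy (Φ ∘ T) ≤ 4 ^ (2 n) * 4 ^ (2 n + 2) * energy Φ`.
Good: apply `good_e0` to `Φ ∘ T` with `ε' = ε / (4 * 4 ^ (2 n + 2))` and `s = 4 ρ'`, get `M'`; `M := M' T⁻¹`; for `w = T x`:
`M⁻¹ dΦ_w - 1 = T (M'⁻¹ d(Φ ∘ T)_x - 1) T⁻¹`, norm `≤ 4 ‖·‖`; `closedBall z' ρ' ⊆ T '' closedBall e0 (4 ρ')`; change variables.
Finally `good_smul` with `z = (2 ‖z‖) z'`.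
-/

open MeasureTheory Set Metric
open scoped ENNReal ContDiff

namespace Pool.Agent.Lib.P28e

open Pool.Agent.P28b04d

namespace GoodAllAux

variable {n : ℕ}

/-- The underlying complex linear equivalence. -/
noncomputable def TE (u : W n) (j : Fin (n + 1)) (hj : u j ≠ 0) : W n ≃ₗ[ℂ] W n where
  toFun x := fun i => (x 0 * u i + (j.insertNth (0 : ℂ) (fun k : Fin n => x k.succ) : W n) i) / 2
  map_add' x y := by
    ext i
    refine Fin.succAboveCases j ?_ (fun i => ?_) i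
    · simp; ring
    · simp; ring
  map_smul' c x := by
    ext i
    refine Fin.succAboveCases j ?_ (fun i => ?_) i
    · simp; ring
    · simp; ring
  invFun w := Fin.cons (2 * w j / u j)
    (fun k : Fin n => 2 * w (j.succAbove k) - (2 * w j / u j) * u (j.succAbove k))
  left_inv x := by
    ext i
    refine Fin.cases ?_ (fun i => ?_) i
    · simp; field_simp
    · simp; field_simp; ring
  right_inv w := by
    ext i
    refine Fin.succAboveCases j ?_ (fun i => ?_) i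
    · simp; field_simp
    · simp

theorem TE_apply_same (u : W n) (j : Fin (n + 1)) (hj : u j ≠ 0) (x : W n) :
    TE u j hj x j = x 0 * u j / 2 := by
  simp [TE]

theorem TE_apply_succAbove (u : W n) (j : Fin (n + 1)) (hj : u j ≠ 0) (x : W n) (k : Fin n) :
    TE u j hj x (j.succAbove k) = (x 0 * u (j.succAbove k) + x k.succ) / 2 := by
  simp [TE]

theorem exists_T {z' : W n} (hz' : ‖z'‖ = 1 / 2) : ∃ T : W n ≃L[ℝ] W n,
    (∀ (c : ℂ) (x : W n), T (c • x) = c • T x) ∧ T (e0 n) = z' ∧ (∀ x, ‖T x‖ ≤ ‖x‖) ∧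
    (∀ w, ‖T.symm w‖ ≤ 4 * ‖w‖) := by
  set u : W n := (2 : ℂ) • z' with hu
  have hnu : ‖u‖ = 1 := by rw [hu, norm_smul, hz']; norm_num
  obtain ⟨j, hj⟩ := Finite.exists_max (fun i => ‖u i‖)
  have hj1 : ‖u j‖ = 1 := by
    apply le_antisymm
    · rw [← hnu]; exact norm_le_pi_norm u j
    · rw [← hnu]; exact (pi_norm_le_iff_of_nonneg (norm_nonneg _)).2 hj
  have hj0 : u j ≠ 0 := by
    intro h; rw [h, norm_zero] at hj1; exact zero_ne_one hj1
  have hui : ∀ i, ‖u i‖ ≤ 1 := fun i => hj1 ▸ hj i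
  set E := (TE u j hj0).toContinuousLinearEquiv with hE
  have hEapp : ∀ x, E x = TE u j hj0 x := fun x => rfl
  have hEsymm : ∀ w, E.symm w = (TE u j hj0).symm w := fun w => rfl
  refine ⟨E.restrictScalars ℝ, fun c x => E.map_smul c x, ?_, ?_, ?_⟩
  · show E (e0 n) = z'
    rw [hEapp]
    ext i
    refine Fin.succAboveCases j ?_ (fun i => ?_) i
    · rw [TE_apply_same]
      simp [e0, hu]
    · rw [TE_apply_succAbove]
      simp [e0, hu]
  · intro x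
    show ‖E x‖ ≤ ‖x‖
    rw [hEapp, pi_norm_le_iff_of_nonneg (norm_nonneg _)]
    intro i
    refine Fin.succAboveCases j ?_ (fun i => ?_) i
    · rw [TE_apply_same, norm_div, norm_mul, hj1]
      have := norm_le_pi_norm x 0
      have := norm_nonneg x
      simp only [Complex.norm_ofNat]
      linarith
    · rw [TE_apply_succAbove, norm_div]
      simp only [Complex.norm_ofNat]
      have h1 := norm_le_pi_norm x 0
      have h2 := norm_le_pi_norm x i.succ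
      have h3 : ‖x 0 * u (j.succAbove i)‖ ≤ ‖x‖ := by
        rw [norm_mul]
        calc ‖x 0‖ * ‖u (j.succAbove i)‖ ≤ ‖x‖ * 1 :=
              mul_le_mul h1 (hui _) (norm_nonneg _) (norm_nonneg _)
          _ = ‖x‖ := mul_one _
      have h4 := norm_add_le (x 0 * u (j.succAbove i)) (x i.succ)
      linarith
  · intro w
    show ‖E.symm w‖ ≤ 4 * ‖w‖
    rw [hEsymm, pi_norm_le_iff_of_nonneg (by positivity)]
    have h0 : ‖2 * w j / u j‖ ≤ 2 * ‖w‖ := by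
      rw [norm_div, norm_mul, hj1, div_one]
      simp only [Complex.norm_ofNat]
      have := norm_le_pi_norm w j
      linarith
    intro i
    refine Fin.cases ?_ (fun i => ?_) i
    · show ‖2 * w j / u j‖ ≤ 4 * ‖w‖
      have := norm_nonneg w
      linarith
    · show ‖2 * w (j.succAbove i) - (2 * w j / u j) * u (j.succAbove i)‖ ≤ 4 * ‖w‖
      have h1 : ‖2 * w (j.succAbove i)‖ ≤ 2 * ‖w‖ := by
        rw [norm_mul]
        simp only [Complex.norm_ofNat]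
        have := norm_le_pi_norm w (j.succAbove i)
        linarith
      have h2 : ‖(2 * w j / u j) * u (j.succAbove i)‖ ≤ 2 * ‖w‖ := by
        rw [norm_mul]
        calc ‖2 * w j / u j‖ * ‖u (j.succAbove i)‖ ≤ (2 * ‖w‖) * 1 :=
              mul_le_mul h0 (hui _) (norm_nonneg _) (by positivity)
          _ = 2 * ‖w‖ := mul_one _
      have := norm_sub_le (2 * w (j.succAbove i)) ((2 * w j / u j) * u (j.succAbove i))
      linarith

theorem hloc_T (T : W n ≃L[ℝ] W n) (hT : ∀ (c : ℂ) (x : W n), T (c • x) = c • T x) :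
    HLoc (T : W n → W n) where
  smooth := T.contDiff.contDiffOn
  hom := hT
  inj := by
    intro z _ v hv
    have : fderiv ℝ (T : W n → W n) z = (T : W n →L[ℝ] W n) := T.hasFDerivAt.fderiv
    rw [this] at hv
    exact T.injective (by simpa using hv)

theorem finrank_W' (n : ℕ) : Module.finrank ℝ (W n) = 2 * n + 2 := by
  rw [Module.finrank_pi_fintype]
  simp [Complex.finrank_real_complex]
  ring

/-- The volume factor. -/
noncomputable def vf (T : W n ≃L[ℝ] W n) : ℝ≥0∞ :=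
  ENNReal.ofReal |(T : W n →L[ℝ] W n).det|

theorem cov (T : W n ≃L[ℝ] W n) {s : Set (W n)} (hs : MeasurableSet s) (g : W n → ℝ≥0∞) :
    ∫⁻ w in T '' s, g w = vf T * ∫⁻ x in s, g (T x) := by
  rw [lintegral_image_eq_lintegral_abs_det_fderiv_mul volume hs
    (fun x _ => T.hasFDerivAt.hasFDerivWithinAt) T.injective.injOn]
  unfold vf
  rw [lintegral_const_mul' _ _ ENNReal.ofReal_ne_top]

theorem vol_image (T : W n ≃L[ℝ] W n) {s : Set (W n)} (hs : MeasurableSet s) :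
    volume (T '' s) = vf T * volume s := by
  have := cov T hs (fun _ => 1)
  simpa using this

theorem vf_le (T : W n ≃L[ℝ] W n) (h : ∀ x, ‖T x‖ ≤ ‖x‖) : vf T ≤ 1 := by
  have h1 := vol_image T (measurableSet_ball (x := (0 : W n)) (ε := 1))
  have h2 : T '' ball (0 : W n) 1 ⊆ ball 0 1 := by
    rintro _ ⟨x, hx, rfl⟩
    rw [mem_ball_zero_iff] at hx ⊢
    exact (h x).trans_lt hx
  have h3 : vf T * volume (ball (0 : W n) 1) ≤ 1 * volume (ball (0 : W n) 1) := by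
    rw [← h1, one_mul]; exact measure_mono h2
  exact (ENNReal.mul_le_mul_iff_left (measure_ball_pos _ _ one_pos).ne' measure_ball_lt_top.ne).1 h3

theorem le_vf (T : W n ≃L[ℝ] W n) (h : ∀ w, ‖T.symm w‖ ≤ 4 * ‖w‖) :
    1 ≤ (4 : ℝ≥0∞) ^ (2 * n + 2) * vf T := by
  have h1 := vol_image T (measurableSet_ball (x := (0 : W n)) (ε := 1))
  have h2 : ball (0 : W n) (1 / 4) ⊆ T '' ball (0 : W n) 1 := by
    intro w hw
    refine ⟨T.symm w, ?_, T.apply_symm_apply w⟩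
    rw [mem_ball_zero_iff] at hw ⊢
    have := h w
    linarith
  have h3 : volume (ball (0 : W n) (1 / 4)) =
      ENNReal.ofReal ((1 / 4) ^ (2 * n + 2)) * volume (ball (0 : W n) 1) := by
    rw [Measure.addHaar_ball _ _ (by norm_num), finrank_W']
  have h4 : ENNReal.ofReal ((1 / 4) ^ (2 * n + 2)) * volume (ball (0 : W n) 1) ≤
      vf T * volume (ball (0 : W n) 1) := by
    rw [← h3, ← h1]; exact measure_mono h2
  have h5 : ENNReal.ofReal ((1 / 4) ^ (2 * n + 2)) ≤ vf T :=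
    (ENNReal.mul_le_mul_iff_left (measure_ball_pos _ _ one_pos).ne' measure_ball_lt_top.ne).1 h4
  calc (1 : ℝ≥0∞) = (4 : ℝ≥0∞) ^ (2 * n + 2) * ENNReal.ofReal ((1 / 4) ^ (2 * n + 2)) := by
        have e4 : (4 : ℝ≥0∞) = ENNReal.ofReal 4 := by norm_num
        rw [e4, ← ENNReal.ofReal_pow (by norm_num), ← ENNReal.ofReal_mul (by positivity),
          ← mul_pow]
        norm_num
    _ ≤ (4 : ℝ≥0∞) ^ (2 * n + 2) * vf T := by gcongr

variable {Φ : W n → W n}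

theorem fderiv_comp_T (h : HLoc Φ) (T : W n ≃L[ℝ] W n) {x : W n} (hx : x ≠ 0) :
    fderiv ℝ (Φ ∘ T) x = (fderiv ℝ Φ (T x) : EndW n) * (T : EndW n) := by
  have hTx : T x ≠ 0 := by
    intro h0; exact hx (T.injective (by rw [h0, map_zero]))
  rw [fderiv_comp x ((h.contDiffAt hTx).differentiableAt (by simp)) T.differentiableAt]
  rw [T.fderiv]
  rfl

theorem conn_comp_T (h : HLoc Φ) (T : W n ≃L[ℝ] W n) {x : W n} (hx : x ≠ 0) (v : W n) :
    conn (Φ ∘ T) x v = (T.symm : EndW n) * conn Φ (T x) (T v) * (T : EndW n) := by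
  have hTx : T x ≠ 0 := by
    intro h0; exact hx (T.injective (by rw [h0, map_zero]))
  have hev : fderiv ℝ (Φ ∘ T) =ᶠ[nhds x] fun y => (fderiv ℝ Φ (T y) : EndW n) * (T : EndW n) := by
    filter_upwards [isOpen_compl_singleton.mem_nhds (show x ∈ ({0}ᶜ : Set (W n)) from hx)]
      with y hy
    exact fderiv_comp_T h T hy
  have hd : DifferentiableAt ℝ (fderiv ℝ Φ) (T x) :=
    ((h.contDiffAt hTx).fderiv_right (m := 1) (by norm_cast)).differentiableAt (by simp)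
  have hd2 : HasFDerivAt (fun y => (fderiv ℝ Φ (T y) : EndW n))
      ((fderiv ℝ (fderiv ℝ Φ) (T x)).comp (T : W n →L[ℝ] W n)) x :=
    hd.hasFDerivAt.comp x T.hasFDerivAt
  have hd3 : fderiv ℝ (fderiv ℝ (Φ ∘ T)) x v =
      (fderiv ℝ (fderiv ℝ Φ) (T x) (T v) : EndW n) * (T : EndW n) := by
    rw [hev.fderiv_eq]
    have := hd2.mul_const' (T : EndW n)
    rw [this.fderiv]
    rfl
  rw [conn_apply, conn_apply, hd3, fderiv_comp_T h T hx]
  obtain ⟨A, hA⟩ := isUnit_fderiv h hTx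
  have e1 : (fderiv ℝ Φ (T x) : EndW n) * (T : EndW n) =
      ((A * T.toUnit : (EndW n)ˣ) : EndW n) := by
    rw [← hA]; rfl
  rw [e1, Ring.inverse_unit, mul_inv_rev, ← hA, Ring.inverse_unit]
  have e2 : ((T.toUnit⁻¹ : (EndW n)ˣ) : EndW n) = (T.symm : EndW n) := rfl
  rw [Units.val_mul, e2]
  simp only [mul_assoc]

theorem norm_T_le {T : W n ≃L[ℝ] W n} (h : ∀ x, ‖T x‖ ≤ ‖x‖) : ‖(T : EndW n)‖ ≤ 1 :=
  ContinuousLinearMap.opNorm_le_bound _ zero_le_one fun x => by rw [one_mul]; exact h x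

theorem norm_Tsymm_le {T : W n ≃L[ℝ] W n} (h : ∀ w, ‖T.symm w‖ ≤ 4 * ‖w‖) :
    ‖(T.symm : EndW n)‖ ≤ 4 :=
  ContinuousLinearMap.opNorm_le_bound _ (by norm_num) fun x => h x

theorem norm_conn_comp (h : HLoc Φ) {T : W n ≃L[ℝ] W n} (h1 : ∀ x, ‖T x‖ ≤ ‖x‖)
    (h2 : ∀ w, ‖T.symm w‖ ≤ 4 * ‖w‖) {x : W n} (hx : x ≠ 0) :
    ‖conn (Φ ∘ T) x‖ ≤ 4 * ‖conn Φ (T x)‖ := by
  refine ContinuousLinearMap.opNorm_le_bound _ (by positivity) fun v => ?_
  rw [conn_comp_T h T hx]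
  calc ‖(T.symm : EndW n) * conn Φ (T x) (T v) * (T : EndW n)‖
      ≤ ‖(T.symm : EndW n) * conn Φ (T x) (T v)‖ * ‖(T : EndW n)‖ := norm_mul_le _ _
    _ ≤ ‖(T.symm : EndW n)‖ * ‖conn Φ (T x) (T v)‖ * ‖(T : EndW n)‖ := by
        gcongr; exact norm_mul_le _ _
    _ ≤ 4 * (‖conn Φ (T x)‖ * ‖v‖) * 1 := by
        gcongr
        · exact norm_Tsymm_le h2
        · exact ((conn Φ (T x)).le_opNorm _).trans
            (mul_le_mul_of_nonneg_left (h1 v) (norm_nonneg _))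
        · exact norm_T_le h1
    _ = 4 * ‖conn Φ (T x)‖ * ‖v‖ := by ring

theorem energy_comp (h : HLoc Φ) {T : W n ≃L[ℝ] W n} (h1 : ∀ x, ‖T x‖ ≤ ‖x‖)
    (h2 : ∀ w, ‖T.symm w‖ ≤ 4 * ‖w‖) :
    energy (Φ ∘ T) ≤ (4 : ℝ≥0∞) ^ (4 * n + 2) * energy Φ := by
  have hae : ∀ᵐ x ∂(volume.restrict (ball (0 : W n) 1)), x ≠ 0 := by
    apply ae_restrict_of_ae
    exact (measure_eq_zero_iff_ae_notMem).1 (measure_singleton (0 : W n))
  have step1 : energy (Φ ∘ T) ≤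
      ∫⁻ x in ball (0 : W n) 1, (4 : ℝ≥0∞) ^ (2 * n) * ‖conn Φ (T x)‖ₑ ^ (2 * n) := by
    unfold energy
    refine lintegral_mono_ae ?_
    filter_upwards [hae] with x hx
    rw [← mul_pow]
    refine pow_le_pow_left' ?_ _
    have := norm_conn_comp h h1 h2 hx
    rw [← ofReal_norm, ← ofReal_norm]
    have e4 : (4 : ℝ≥0∞) = ENNReal.ofReal 4 := by norm_num
    rw [e4, ← ENNReal.ofReal_mul (by norm_num)]
    exact ENNReal.ofReal_le_ofReal this
  rw [lintegral_const_mul' _ _ (by simp)] at step1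
  have step2 : vf T * ∫⁻ x in ball (0 : W n) 1, ‖conn Φ (T x)‖ₑ ^ (2 * n) ≤ energy Φ := by
    rw [← cov T measurableSet_ball (fun w => ‖conn Φ w‖ₑ ^ (2 * n))]
    unfold energy
    apply lintegral_mono_set
    rintro _ ⟨x, hx, rfl⟩
    rw [mem_ball_zero_iff] at hx ⊢
    exact (h1 x).trans_lt hx
  have step3 : ∫⁻ x in ball (0 : W n) 1, ‖conn Φ (T x)‖ₑ ^ (2 * n) ≤
      (4 : ℝ≥0∞) ^ (2 * n + 2) * energy Φ := by
    calc ∫⁻ x in ball (0 : W n) 1, ‖conn Φ (T x)‖ₑ ^ (2 * n)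
        = 1 * ∫⁻ x in ball (0 : W n) 1, ‖conn Φ (T x)‖ₑ ^ (2 * n) := (one_mul _).symm
      _ ≤ ((4 : ℝ≥0∞) ^ (2 * n + 2) * vf T) *
          ∫⁻ x in ball (0 : W n) 1, ‖conn Φ (T x)‖ₑ ^ (2 * n) := by
          gcongr; exact le_vf T h2
      _ = (4 : ℝ≥0∞) ^ (2 * n + 2) *
          (vf T * ∫⁻ x in ball (0 : W n) 1, ‖conn Φ (T x)‖ₑ ^ (2 * n)) := mul_assoc _ _ _
      _ ≤ (4 : ℝ≥0∞) ^ (2 * n + 2) * energy Φ := by gcongr
  calc energy (Φ ∘ T) ≤ (4 : ℝ≥0∞) ^ (2 * n) * ((4 : ℝ≥0∞) ^ (2 * n + 2) * energy Φ) :=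
        step1.trans (by gcongr)
    _ = (4 : ℝ≥0∞) ^ (4 * n + 2) * energy Φ := by
        rw [← mul_assoc, ← pow_add]; congr 2; ring

/-- `Good` for `Φ ∘ T` at `e0` gives `Good` for `Φ` at `T e0`. -/
theorem good_of_comp (h : HLoc Φ) {T : W n ≃L[ℝ] W n} (h1 : ∀ x, ‖T x‖ ≤ ‖x‖)
    (h2 : ∀ w, ‖T.symm w‖ ≤ 4 * ‖w‖) {z' : W n} (hz : T (e0 n) = z') {ρ ε : ℝ}
    (hρ : 0 < ρ) (hρ' : ρ < ‖z'‖) (hε : 0 ≤ ε) {M' : (EndW n)ˣ}
    (hM : Good (Φ ∘ T) (e0 n) (4 * ρ) ε M') :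
    Good Φ z' ρ (4 * 4 ^ (2 * n + 2) * ε) (M' * T.toUnit⁻¹) := by
  unfold Good at hM ⊢
  have hsub : closedBall z' ρ ⊆ T '' closedBall (e0 n) (4 * ρ) := by
    intro w hw
    refine ⟨T.symm w, ?_, T.apply_symm_apply w⟩
    rw [mem_closedBall, dist_eq_norm] at hw ⊢
    have e1 : T.symm w - e0 n = T.symm (w - z') := by
      rw [map_sub, ← hz, T.symm_apply_apply]
    rw [e1]
    have := h2 (w - z')
    linarith
  -- the set in the source
  set s : Set (W n) := T ⁻¹' closedBall z' ρ with hs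
  have hsm : MeasurableSet s := measurableSet_closedBall.preimage T.continuous.measurable
  have hTs : T '' s = closedBall z' ρ := image_preimage_eq _ T.surjective
  have hss : s ⊆ closedBall (e0 n) (4 * ρ) := by
    intro x hx
    obtain ⟨y, hy, hxy⟩ := hsub hx
    rw [← T.injective hxy]; exact hy
  have hs0 : ∀ x ∈ s, x ≠ 0 := by
    rintro x hx rfl
    rw [hs, mem_preimage, map_zero, mem_closedBall, dist_eq_norm, zero_sub, norm_neg] at hx
    linarith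
  rw [← hTs, cov T hsm]
  have key : ∀ x ∈ s, ‖(↑(M' * T.toUnit⁻¹)⁻¹ : EndW n) * fderiv ℝ Φ (T x) - 1‖ₑ ≤
      4 * ‖(↑M'⁻¹ : EndW n) * fderiv ℝ (Φ ∘ T) x - 1‖ₑ := by
    intro x hx
    have e1 : (↑(M' * T.toUnit⁻¹)⁻¹ : EndW n) * fderiv ℝ Φ (T x) - 1 =
        (T : EndW n) * ((↑M'⁻¹ : EndW n) * fderiv ℝ (Φ ∘ T) x - 1) * (T.symm : EndW n) := by
      rw [fderiv_comp_T h T (hs0 x hx), mul_inv_rev, inv_inv, Units.val_mul]
      have e2 : ((T.toUnit : (EndW n)ˣ) : EndW n) = (T : EndW n) := rfl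
      have e3 : (T : EndW n) * (T.symm : EndW n) = 1 := by
        ext v : 1
        exact T.apply_symm_apply v
      rw [e2, mul_sub, sub_mul, mul_one, e3]
      congr 1
      rw [mul_assoc, mul_assoc, mul_assoc, mul_assoc, e3, mul_one]
    rw [e1]
    have h3 : ‖(T : EndW n) * ((↑M'⁻¹ : EndW n) * fderiv ℝ (Φ ∘ T) x - 1) * (T.symm : EndW n)‖ ≤
        4 * ‖(↑M'⁻¹ : EndW n) * fderiv ℝ (Φ ∘ T) x - 1‖ := by
      calc _ ≤ ‖(T : EndW n) * ((↑M'⁻¹ : EndW n) * fderiv ℝ (Φ ∘ T) x - 1)‖ *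
            ‖(T.symm : EndW n)‖ := norm_mul_le _ _
        _ ≤ ‖(T : EndW n)‖ * ‖(↑M'⁻¹ : EndW n) * fderiv ℝ (Φ ∘ T) x - 1‖ *
            ‖(T.symm : EndW n)‖ := by gcongr; exact norm_mul_le _ _
        _ ≤ 1 * ‖(↑M'⁻¹ : EndW n) * fderiv ℝ (Φ ∘ T) x - 1‖ * 4 := by
            gcongr
            · exact norm_T_le h1
            · exact norm_Tsymm_le h2
        _ = _ := by ring
    rw [← ofReal_norm, ← ofReal_norm]
    have e4 : (4 : ℝ≥0∞) = ENNReal.ofReal 4 := by norm_num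
    rw [e4, ← ENNReal.ofReal_mul (by norm_num)]
    exact ENNReal.ofReal_le_ofReal h3
  have e0ne : (0 : ℝ) ≤ 4 * ρ := by linarith
  have hvol : volume (closedBall (e0 n) (4 * ρ)) =
      ENNReal.ofReal (4 ^ (2 * n + 2)) * volume (closedBall z' ρ) := by
    have e1 : volume (closedBall (e0 n) (4 * ρ)) = ENNReal.ofReal ((4 * ρ) ^ (2 * n + 2)) *
        volume (closedBall (0 : W n) 1) := by
      rw [Measure.addHaar_closedBall' _ _ e0ne, finrank_W']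
    have e2 : volume (closedBall z' ρ) = ENNReal.ofReal (ρ ^ (2 * n + 2)) *
        volume (closedBall (0 : W n) 1) := by
      rw [Measure.addHaar_closedBall' _ _ hρ.le, finrank_W']
    rw [e1, e2, ← mul_assoc, ← ENNReal.ofReal_mul (by positivity), ← mul_pow]
  rw [hTs]
  calc vf T * ∫⁻ x in s, ‖(↑(M' * T.toUnit⁻¹)⁻¹ : EndW n) * fderiv ℝ Φ (T x) - 1‖ₑ
      ≤ 1 * ∫⁻ x in s, 4 * ‖(↑M'⁻¹ : EndW n) * fderiv ℝ (Φ ∘ T) x - 1‖ₑ := by
        gcongr ?_ * ?_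
        · exact vf_le T h1
        · exact setLIntegral_mono' hsm key
    _ = 4 * ∫⁻ x in s, ‖(↑M'⁻¹ : EndW n) * fderiv ℝ (Φ ∘ T) x - 1‖ₑ := by
        rw [one_mul, lintegral_const_mul' _ _ (by simp)]
    _ ≤ 4 * ∫⁻ x in closedBall (e0 n) (4 * ρ),
          ‖(↑M'⁻¹ : EndW n) * fderiv ℝ (Φ ∘ T) x - 1‖ₑ := by
        gcongr
    _ ≤ 4 * (ENNReal.ofReal ε * volume (closedBall (e0 n) (4 * ρ))) := by gcongr
    _ = ENNReal.ofReal (4 * 4 ^ (2 * n + 2) * ε) * volume (closedBall z' ρ) := by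
        rw [hvol]
        have e4 : (4 : ℝ≥0∞) = ENNReal.ofReal 4 := by norm_num
        rw [e4, ← mul_assoc, ← mul_assoc, ← ENNReal.ofReal_mul (by norm_num),
          ← ENNReal.ofReal_mul (by positivity)]
        congr 2
        ring

end GoodAllAux

open GoodAllAux

theorem good_all (n : ℕ) (hn : 1 ≤ n) : ∀ ε : ℝ, 0 < ε → ∃ δ : ℝ, 0 < δ ∧ ∀ Φ : W n → W n,
    HLoc Φ → energy Φ ≤ ENNReal.ofReal δ → ∀ z : W n, z ≠ 0 → ∀ ρ : ℝ, 0 < ρ → ρ ≤ ‖z‖ / 8 →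
      ∃ M : (EndW n)ˣ, Good Φ z ρ ε M := by
  intro ε hε
  obtain ⟨δ', hδ', hgood⟩ := good_e0 n hn (ε / (4 * 4 ^ (2 * n + 2))) (by positivity)
  refine ⟨δ' / 4 ^ (4 * n + 2), by positivity, ?_⟩
  intro Φ hΦ hen z hz ρ hρ hρz
  have hnz : 0 < ‖z‖ := norm_pos_iff.2 hz
  set z' : W n := (2 * ‖z‖)⁻¹ • z with hz'
  have hz'n : ‖z'‖ = 1 / 2 := by
    rw [hz', norm_smul, norm_inv, Real.norm_eq_abs, abs_of_pos (by positivity)]
    field_simp
  obtain ⟨T, hTc, hTe, hT1, hT2⟩ := exists_T hz'n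
  have hΨ : HLoc (Φ ∘ T) := HLoc.comp hΦ (hloc_T T hTc)
  have hen' : energy (Φ ∘ T) ≤ ENNReal.ofReal δ' := by
    refine (energy_comp hΦ hT1 hT2).trans ?_
    calc (4 : ℝ≥0∞) ^ (4 * n + 2) * energy Φ
        ≤ (4 : ℝ≥0∞) ^ (4 * n + 2) * ENNReal.ofReal (δ' / 4 ^ (4 * n + 2)) := by gcongr
      _ = ENNReal.ofReal δ' := by
          have e4 : (4 : ℝ≥0∞) = ENNReal.ofReal 4 := by norm_num
          rw [e4, ← ENNReal.ofReal_pow (by norm_num), ← ENNReal.ofReal_mul (by positivity)]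
          congr 1
          field_simp
  set ρ' : ℝ := ρ / (2 * ‖z‖) with hρ'
  have hρ'0 : 0 < ρ' := by positivity
  have hρ'1 : ρ' ≤ 1 / 16 := by
    rw [hρ', div_le_iff₀ (by positivity)]
    linarith
  obtain ⟨M', hM'⟩ := hgood (Φ ∘ T) hΨ hen' (4 * ρ') (by positivity) (by linarith)
  have hg := good_of_comp hΦ hT1 hT2 hTe hρ'0 (by rw [hz'n]; linarith) (by positivity) hM'
  have e1 : 4 * 4 ^ (2 * n + 2) * (ε / (4 * 4 ^ (2 * n + 2))) = ε := by field_simp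
  rw [e1] at hg
  refine ⟨M' * T.toUnit⁻¹, ?_⟩
  have hz'0 : z' ≠ 0 := by
    intro h0; rw [h0, norm_zero] at hz'n; norm_num at hz'n
  have h2 := (good_smul hΦ (r := 2 * ‖z‖) (by positivity) hz'0 hρ'0 (by rw [hz'n]; linarith)).2 hg
  have e2 : (2 * ‖z‖) • z' = z := by
    rw [hz', smul_smul, mul_inv_cancel₀ (by positivity), one_smul]
  have e3 : 2 * ‖z‖ * ρ' = ρ := by
    rw [hρ']; field_simp
  rw [e2, e3] at h2
  exact h2

end Pool.Agent.Lib.P28e
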