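import Pool.Agent.Lib.P28e.Defs

set_option autoImplicit false

/-!
# Homogeneity

PROOF SKETCH. `mulC c v = c • v`. `fderiv_mulC`: differentiate `Φ (c • x) = c • Φ x` (chain rule; `Φ` is differentiable at `c • x ≠ 0`).
`isUnit_fderiv`: `exists_equiv` (P28b04d.Fam) and `h.inj`.
`fderiv2_mulC`: differentiate `fderiv_mulC` in `x` (both sides are equal near `x`, `Filter.EventuallyEq.fderiv_eq`): `D²Φ (c x) (c v) = c D²Φ x v c⁻¹`.
`conn_smul`: by the two preceding lemmas `conn Φ (c • x) v = mulC c * conn Φ x (c⁻¹ • v) * mulC c⁻¹`, `‖mulC c‖ = ‖c‖`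
(use `ContinuousLinearMap.opNorm_le_bound` and `ringInverse_eq_inverse`, `Ring.mul_inverse_rev'` or `inverse` of an equivalence).
`conn_I`: differentiate `θ ↦ fderiv ℝ Φ (exp (θ I) • x) = mulC (exp (θ I)) * fderiv ℝ Φ x * mulC (exp (-θ I))` at `θ = 0`.
`continuousOn_conn`: `fderiv ℝ Φ`, `fderiv ℝ (fderiv ℝ Φ)` are continuous on `{0}ᶜ` (open), the inverse is continuous at units
(`NormedRing.inverse_continuousAt`, `ContinuousLinearMap.inverse`). `measurable_conn`: piecewise (`{0}` is closed).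
-/

open MeasureTheory Set Metric
open scoped ENNReal ContDiff

namespace Pool.Agent.Lib.P28e

open Pool.Agent.P28b04d

variable {n : ℕ} {Φ : W n → W n}

theorem mulC_apply (c : ℂ) (v : W n) : (mulC c : EndW n) v = c • v := rfl

theorem mulC_mul (c c' : ℂ) : (mulC c : EndW n) * mulC c' = mulC (c * c') := by
  ext1 v
  show c • (c' • v) = (c * c') • v
  rw [smul_smul]

theorem mulC_one : (mulC 1 : EndW n) = 1 := by
  ext1 v
  show (1 : ℂ) • v = v
  rw [one_smul]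

theorem norm_mulC (c : ℂ) : ‖(mulC c : EndW n)‖ = ‖c‖ := by
  apply le_antisymm
  · refine ContinuousLinearMap.opNorm_le_bound _ (norm_nonneg _) fun v => ?_
    rw [mulC_apply, norm_smul]
  · have h := (mulC c : EndW n).le_opNorm (fun _ => 1)
    have h1 : ‖(fun _ => 1 : W n)‖ = 1 := by
      rw [pi_norm_const]; simp
    rw [mulC_apply, norm_smul, h1, mul_one, mul_one] at h
    exact h

namespace Hom46

theorem smul_real (r : ℝ) (z : W n) : r • z = (r : ℂ) • z := by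
  ext i
  simp

theorem hasFDerivAt (h : HLoc Φ) {x : W n} (hx : x ≠ 0) :
    HasFDerivAt Φ (fderiv ℝ Φ x) x :=
  ((h.contDiffAt hx).differentiableAt (by simp)).hasFDerivAt

theorem contDiffAt_fderiv (h : HLoc Φ) {x : W n} (hx : x ≠ 0) :
    ContDiffAt ℝ ∞ (fderiv ℝ Φ) x :=
  (h.contDiffAt hx).fderiv_right (by simp)

theorem hasFDerivAt_fderiv (h : HLoc Φ) {x : W n} (hx : x ≠ 0) :
    HasFDerivAt (fderiv ℝ Φ) (fderiv ℝ (fderiv ℝ Φ) x) x :=
  ((contDiffAt_fderiv h hx).differentiableAt (by simp)).hasFDerivAt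

end Hom46

theorem fderiv_mulC (h : HLoc Φ) {c : ℂ} (hc : c ≠ 0) {x : W n} (hx : x ≠ 0) :
    fderiv ℝ Φ (c • x) = mulC c * fderiv ℝ Φ x * mulC c⁻¹ := by
  have hcx : c • x ≠ 0 := smul_ne_zero hc hx
  have h1 := Hom46.hasFDerivAt h hcx
  have h2 := Hom46.hasFDerivAt h hx
  have h3 : HasFDerivAt (fun y => (mulC c : EndW n) y) (mulC c) x := (mulC c).hasFDerivAt
  have h4 : HasFDerivAt (fun y => Φ (c • y)) ((fderiv ℝ Φ (c • x)).comp (mulC c)) x :=
    HasFDerivAt.comp x h1 h3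
  have h5 : HasFDerivAt (fun y => c • Φ y) ((mulC c : EndW n).comp (fderiv ℝ Φ x)) x :=
    (mulC c : EndW n).hasFDerivAt.comp x h2
  have h6 : (fun y => Φ (c • y)) = fun y => c • Φ y := funext fun y => h.hom c y
  rw [h6] at h4
  have h7 : fderiv ℝ Φ (c • x) * mulC c = mulC c * fderiv ℝ Φ x := h4.unique h5
  rw [← h7, mul_assoc, mulC_mul, mul_inv_cancel₀ hc, mulC_one, mul_one]

theorem isUnit_fderiv (h : HLoc Φ) {x : W n} (hx : x ≠ 0) : IsUnit (fderiv ℝ Φ x : EndW n) := by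
  obtain ⟨D', hD'⟩ := exists_equiv (fderiv ℝ Φ x) (h.inj x hx)
  refine ⟨ContinuousLinearEquiv.toUnit D', ?_⟩
  rw [← hD']
  rfl

theorem conn_apply (v : W n) (x : W n) :
    conn Φ x v = Ring.inverse (fderiv ℝ Φ x : EndW n) * fderiv ℝ (fderiv ℝ Φ) x v := by
  rw [ContinuousLinearMap.ringInverse_eq_inverse]
  rfl

theorem fderiv2_mulC (h : HLoc Φ) {c : ℂ} (hc : c ≠ 0) {x : W n} (hx : x ≠ 0) (v : W n) :
    fderiv ℝ (fderiv ℝ Φ) (c • x) (c • v) = mulC c * fderiv ℝ (fderiv ℝ Φ) x v * mulC c⁻¹ := by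
  have hcx : c • x ≠ 0 := smul_ne_zero hc hx
  have h1 := Hom46.hasFDerivAt_fderiv h hcx
  have h2 := Hom46.hasFDerivAt_fderiv h hx
  have h3 : HasFDerivAt (fun y => (mulC c : EndW n) y) (mulC c) x := (mulC c).hasFDerivAt
  have h4 : HasFDerivAt (fun y => fderiv ℝ Φ (c • y))
      ((fderiv ℝ (fderiv ℝ Φ) (c • x)).comp (mulC c)) x := HasFDerivAt.comp x h1 h3
  let T : EndW n →L[ℝ] EndW n := (ContinuousLinearMap.compL ℝ (W n) (W n) (W n) (mulC c)).comp
    ((ContinuousLinearMap.compL ℝ (W n) (W n) (W n)).flip (mulC c⁻¹))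
  have hT : ∀ A : EndW n, T A = mulC c * A * mulC c⁻¹ := fun A => rfl
  have h5 : HasFDerivAt (fun y => mulC c * fderiv ℝ Φ y * mulC c⁻¹)
      (T.comp (fderiv ℝ (fderiv ℝ Φ) x)) x :=
    T.hasFDerivAt.comp x h2
  have h6 : (fun y => fderiv ℝ Φ (c • y)) =ᶠ[nhds x]
      fun y => mulC c * fderiv ℝ Φ y * mulC c⁻¹ := by
    filter_upwards [isOpen_compl_singleton.mem_nhds (show x ∈ ({0}ᶜ : Set (W n)) from hx)] with y hy
    exact fderiv_mulC h hc hy
  have h7 := (h4.congr_of_eventuallyEq h6.symm).unique h5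
  have h8 := congrArg (fun L => L v) h7
  exact h8

namespace Hom46

theorem inverse_conj {c : ℂ} (hc : c ≠ 0) {A : EndW n} (hA : IsUnit A) :
    Ring.inverse (mulC c * A * mulC c⁻¹) = mulC c * Ring.inverse A * mulC c⁻¹ := by
  obtain ⟨u, rfl⟩ := hA
  have h1 : (mulC c : EndW n) * mulC c⁻¹ = 1 := by rw [mulC_mul, mul_inv_cancel₀ hc, mulC_one]
  have h2 : (mulC c⁻¹ : EndW n) * mulC c = 1 := by rw [mulC_mul, inv_mul_cancel₀ hc, mulC_one]
  let w : (EndW n)ˣ := ⟨mulC c, mulC c⁻¹, h1, h2⟩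
  have h3 : (mulC c * (u : EndW n) * mulC c⁻¹) = ((w * u * w⁻¹ : (EndW n)ˣ) : EndW n) := rfl
  rw [h3, Ring.inverse_unit, Ring.inverse_unit]
  rw [mul_inv_rev, mul_inv_rev, inv_inv, ← mul_assoc]
  rfl

theorem conn_mulC (h : HLoc Φ) {c : ℂ} (hc : c ≠ 0) {x : W n} (hx : x ≠ 0) (v : W n) :
    conn Φ (c • x) v = mulC c * conn Φ x (c⁻¹ • v) * mulC c⁻¹ := by
  have h2 : (mulC c⁻¹ : EndW n) * mulC c = 1 := by rw [mulC_mul, inv_mul_cancel₀ hc, mulC_one]
  have h3 : v = c • (c⁻¹ • v) := by rw [smul_smul, mul_inv_cancel₀ hc, one_smul]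
  conv_lhs => rw [h3]
  rw [conn_apply, conn_apply, fderiv_mulC h hc hx, fderiv2_mulC h hc hx,
    inverse_conj hc (isUnit_fderiv h hx)]
  simp only [mul_assoc]
  rw [← mul_assoc (mulC c⁻¹) (mulC c), h2, one_mul]

theorem conn_smul_le (h : HLoc Φ) {c : ℂ} (hc : c ≠ 0) {x : W n} (hx : x ≠ 0) :
    ‖conn Φ (c • x)‖ ≤ ‖c‖⁻¹ * ‖conn Φ x‖ := by
  refine ContinuousLinearMap.opNorm_le_bound _ (by positivity) fun v => ?_
  rw [conn_mulC h hc hx]
  have hc' : ‖c‖ ≠ 0 := norm_ne_zero_iff.2 hc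
  calc ‖mulC c * conn Φ x (c⁻¹ • v) * mulC c⁻¹‖
      ≤ ‖(mulC c : EndW n)‖ * ‖conn Φ x (c⁻¹ • v)‖ * ‖(mulC c⁻¹ : EndW n)‖ :=
        (norm_mul_le _ _).trans (mul_le_mul_of_nonneg_right (norm_mul_le _ _) (norm_nonneg _))
    _ ≤ ‖c‖ * (‖conn Φ x‖ * (‖c‖⁻¹ * ‖v‖)) * ‖c‖⁻¹ := by
        rw [norm_mulC, norm_mulC, norm_inv]
        have := (conn Φ x).le_opNorm (c⁻¹ • v)
        rw [norm_smul, norm_inv] at this
        gcongr
    _ = ‖c‖⁻¹ * ‖conn Φ x‖ * ‖v‖ := by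
        field_simp

end Hom46

theorem conn_smul (h : HLoc Φ) {c : ℂ} (hc : c ≠ 0) {x : W n} (hx : x ≠ 0) :
    ‖conn Φ (c • x)‖ = ‖c‖⁻¹ * ‖conn Φ x‖ := by
  apply le_antisymm (Hom46.conn_smul_le h hc hx)
  have hcx : c • x ≠ 0 := smul_ne_zero hc hx
  have h1 := Hom46.conn_smul_le h (inv_ne_zero hc) hcx
  rw [smul_smul, inv_mul_cancel₀ hc, one_smul, norm_inv, inv_inv] at h1
  have hc' : 0 < ‖c‖ := norm_pos_iff.2 hc
  rw [inv_mul_le_iff₀ hc']
  exact h1

theorem conn_I (h : HLoc Φ) {x : W n} (hx : x ≠ 0) :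
    fderiv ℝ (fderiv ℝ Φ) x (Complex.I • x) =
      mulC Complex.I * fderiv ℝ Φ x - fderiv ℝ Φ x * mulC Complex.I := by
  have h2 := Hom46.hasFDerivAt_fderiv h hx
  have h3 : HasDerivAt (fun t : ℝ => x + t • (Complex.I • x)) (Complex.I • x) 0 := by
    simpa using ((hasDerivAt_id (0 : ℝ)).smul_const (Complex.I • x)).const_add x
  have h2' : HasFDerivAt (fderiv ℝ Φ) (fderiv ℝ (fderiv ℝ Φ) x)
      (x + (0 : ℝ) • (Complex.I • x)) := by simpa using h2
  have h4 : HasDerivAt (fun t : ℝ => fderiv ℝ Φ (x + t • (Complex.I • x)))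
      (fderiv ℝ (fderiv ℝ Φ) x (Complex.I • x)) 0 := h2'.comp_hasDerivAt (0 : ℝ) h3
  have h5 : HasDerivAt (fun t : ℝ => (1 : EndW n) + t • (mulC Complex.I : EndW n))
      (mulC Complex.I) 0 := by
    simpa using ((hasDerivAt_id (0 : ℝ)).smul_const (mulC Complex.I : EndW n)).const_add 1
  have h6 := h4.mul h5
  have h7 : HasDerivAt (fun t : ℝ => ((1 : EndW n) + t • (mulC Complex.I : EndW n)) * fderiv ℝ Φ x)
      (mulC Complex.I * fderiv ℝ Φ x) 0 := h5.mul_const _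
  have h8 : (fun t : ℝ => fderiv ℝ Φ (x + t • (Complex.I • x))) *
      (fun t : ℝ => (1 : EndW n) + t • (mulC Complex.I : EndW n)) =
      fun t : ℝ => ((1 : EndW n) + t • (mulC Complex.I : EndW n)) * fderiv ℝ Φ x := by
    funext t
    have hc : (1 + t * Complex.I : ℂ) ≠ 0 := by
      intro h0
      have := congrArg Complex.re h0
      simp at this
    have e1 : x + t • (Complex.I • x) = (1 + t * Complex.I : ℂ) • x := by
      rw [add_smul, one_smul, mul_smul, Hom46.smul_real]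
    have e2 : (1 : EndW n) + t • (mulC Complex.I : EndW n) = mulC (1 + t * Complex.I : ℂ) := by
      ext1 v
      show v + t • (Complex.I • v) = (1 + t * Complex.I : ℂ) • v
      rw [add_smul, one_smul, mul_smul, Hom46.smul_real]
    show fderiv ℝ Φ (x + t • (Complex.I • x)) * ((1 : EndW n) + t • (mulC Complex.I : EndW n)) = _
    rw [e1, e2, fderiv_mulC h hc hx, mul_assoc, mulC_mul, inv_mul_cancel₀ hc, mulC_one, mul_one]
  rw [h8] at h6
  have h9 := h6.unique h7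
  have e1 : x + (0 : ℝ) • (Complex.I • x) = x := by rw [zero_smul, add_zero]
  have e2 : (1 : EndW n) + (0 : ℝ) • (mulC Complex.I : EndW n) = 1 := by
    ext1 v
    show v + (0 : ℝ) • (Complex.I • v) = v
    rw [zero_smul, add_zero]
  have h10 : fderiv ℝ (fderiv ℝ Φ) x (Complex.I • x) + fderiv ℝ Φ x * mulC Complex.I =
      mulC Complex.I * fderiv ℝ Φ x := by
    calc fderiv ℝ (fderiv ℝ Φ) x (Complex.I • x) + fderiv ℝ Φ x * mulC Complex.I
        = fderiv ℝ (fderiv ℝ Φ) x (Complex.I • x) * ((1 : EndW n) +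
            (0 : ℝ) • (mulC Complex.I : EndW n)) +
          fderiv ℝ Φ (x + (0 : ℝ) • (Complex.I • x)) * mulC Complex.I := by
          rw [e1, e2, mul_one]
      _ = _ := h9
  exact eq_sub_of_add_eq h10

theorem continuousOn_fderiv (h : HLoc Φ) : ContinuousOn (fderiv ℝ Φ) {0}ᶜ := fun _ hx =>
  (Hom46.contDiffAt_fderiv h hx).continuousAt.continuousWithinAt

theorem continuousOn_conn (h : HLoc Φ) : ContinuousOn (conn Φ) {0}ᶜ := by
  intro x hx
  apply ContinuousAt.continuousWithinAt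
  have h1 : ContinuousAt (fderiv ℝ Φ) x := (Hom46.contDiffAt_fderiv h hx).continuousAt
  have h2 : ContinuousAt (fderiv ℝ (fderiv ℝ Φ)) x :=
    ((Hom46.contDiffAt_fderiv h hx).fderiv_right (m := ∞) (by simp)).continuousAt
  have h3 : ContinuousAt (fun y => (fderiv ℝ Φ y : EndW n).inverse) x := by
    obtain ⟨u, hu⟩ := isUnit_fderiv h hx
    have h4 : ContinuousAt (Ring.inverse : EndW n → EndW n) (fderiv ℝ Φ x) := by
      rw [← hu]
      exact NormedRing.inverse_continuousAt u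
    rw [ContinuousLinearMap.ringInverse_eq_inverse] at h4
    exact ContinuousAt.comp (g := (ContinuousLinearMap.inverse : EndW n → EndW n)) h4 h1
  have h5 : ContinuousAt (fun y => ContinuousLinearMap.compL ℝ (W n) (W n) (W n)
      (fderiv ℝ Φ y).inverse) x :=
    (ContinuousLinearMap.compL ℝ (W n) (W n) (W n)).continuous.continuousAt.comp h3
  exact h5.clm_comp h2

theorem measurable_conn (h : HLoc Φ) : Measurable fun x => ‖conn Φ x‖ₑ :=
  measurable_of_continuousOn_compl_singleton 0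
    (continuous_enorm.comp_continuousOn (continuousOn_conn h))

theorem measurable_fderiv_sub (h : HLoc Φ) (N : EndW n) :
    Measurable fun x => ‖N * fderiv ℝ Φ x - 1‖ₑ :=
  measurable_of_continuousOn_compl_singleton 0
    (continuous_enorm.comp_continuousOn
      ((continuousOn_const.mul (continuousOn_fderiv h)).sub continuousOn_const))

/-- The derivative is unchanged under positive scaling. -/
theorem fderiv_pos_smul (h : HLoc Φ) {r : ℝ} (hr : 0 < r) {x : W n} (hx : x ≠ 0) :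
    fderiv ℝ Φ (r • x) = fderiv ℝ Φ x := by
  have hr' : (r : ℂ) ≠ 0 := by exact_mod_cast hr.ne'
  rw [Hom46.smul_real, fderiv_mulC h hr' hx]
  ext1 v
  show (r : ℂ) • fderiv ℝ Φ x ((r : ℂ)⁻¹ • v) = _
  rw [← Complex.ofReal_inv, ← Hom46.smul_real, ← Hom46.smul_real, map_smul, smul_smul,
    mul_inv_cancel₀ hr.ne', one_smul]

namespace Hom46

theorem exists_scale (A B : EndW n) (hAB : A * B = 1) :
    ∃ c : ℝ≥0∞, c ≠ 0 ∧ c ≠ ⊤ ∧ ∀ (S : Set (W n)) (g : W n → ℝ≥0∞), MeasurableSet S →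
      Measurable g → ∫⁻ y in A ⁻¹' S, g (A y) = c * ∫⁻ x in S, g x := by
  have hdet : LinearMap.det (A : W n →ₗ[ℝ] W n) * LinearMap.det (B : W n →ₗ[ℝ] W n) = 1 := by
    rw [← map_mul]
    have : (A : W n →ₗ[ℝ] W n) * (B : W n →ₗ[ℝ] W n) = 1 := by
      refine LinearMap.ext fun v => ?_
      exact congrArg (fun L : EndW n => L v) hAB
    rw [this, map_one]
  have hne : LinearMap.det (A : W n →ₗ[ℝ] W n) ≠ 0 := left_ne_zero_of_mul_eq_one hdet
  refine ⟨ENNReal.ofReal |(LinearMap.det (A : W n →ₗ[ℝ] W n))⁻¹|, ?_, ENNReal.ofReal_ne_top, ?_⟩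
  · rw [Ne, ENNReal.ofReal_eq_zero, not_le]
    exact abs_pos.2 (inv_ne_zero hne)
  · intro S g hS hg
    have hmap := Measure.map_linearMap_addHaar_eq_smul_addHaar (volume : Measure (W n)) hne
    have h1 := setLIntegral_map (μ := (volume : Measure (W n))) hS hg A.continuous.measurable
    rw [← h1]
    have h2 : Measure.map (A : W n → W n) volume =
      ENNReal.ofReal |(LinearMap.det (A : W n →ₗ[ℝ] W n))⁻¹| • volume := hmap
    rw [h2, Measure.restrict_smul, lintegral_smul_measure, smul_eq_mul]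

theorem ball_iff {c : ℂ} (hc : c ≠ 0) {g : W n → ℝ≥0∞} (hg : Measurable g) (z : W n) (ρ : ℝ)
    (K : ℝ≥0∞) :
    (∫⁻ x in closedBall (c • z) (‖c‖ * ρ), g x ≤ K * volume (closedBall (c • z) (‖c‖ * ρ))) ↔
    (∫⁻ y in closedBall z ρ, g (c • y) ≤ K * volume (closedBall z ρ)) := by
  obtain ⟨C, hC0, hC1, hC⟩ := exists_scale (mulC c : EndW n) (mulC c⁻¹)
    (by rw [mulC_mul, mul_inv_cancel₀ hc, mulC_one])
  have hpre : (mulC c : EndW n) ⁻¹' closedBall (c • z) (‖c‖ * ρ) = closedBall z ρ := by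
    ext y
    have hc' : 0 < ‖c‖ := norm_pos_iff.2 hc
    simp only [mem_preimage, mem_closedBall, mulC_apply, dist_eq_norm]
    rw [← smul_sub, norm_smul]
    exact mul_le_mul_iff_of_pos_left hc'
  have h1 := hC (closedBall (c • z) (‖c‖ * ρ)) g measurableSet_closedBall hg
  have h2 := hC (closedBall (c • z) (‖c‖ * ρ)) (fun _ => 1) measurableSet_closedBall
    measurable_const
  rw [hpre] at h1 h2
  simp only [lintegral_const, one_mul, Measure.restrict_apply MeasurableSet.univ, univ_inter] at h2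
  have h1' : ∫⁻ y in closedBall z ρ, g (c • y) =
    C * ∫⁻ x in closedBall (c • z) (‖c‖ * ρ), g x := h1
  rw [h1', h2, mul_left_comm K C]
  exact (ENNReal.mul_le_mul_iff_right hC0 hC1).symm

theorem ne_zero_of_mem {z y : W n} {ρ : ℝ} (hρz : ρ < ‖z‖) (hy : y ∈ closedBall z ρ) : y ≠ 0 := by
  rintro rfl
  rw [mem_closedBall, dist_zero_left] at hy
  exact absurd hy (not_le.2 hρz)

end Hom46

/-- `Good` is invariant under positive scaling. -/
theorem good_smul (h : HLoc Φ) {r : ℝ} (hr : 0 < r) {z : W n} (hz : z ≠ 0) {ρ : ℝ} (hρ : 0 < ρ)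
    (hρz : ρ < ‖z‖) {ε : ℝ} {M : (EndW n)ˣ} : Good Φ (r • z) (r * ρ) ε M ↔ Good Φ z ρ ε M := by
  have hr' : (r : ℂ) ≠ 0 := by exact_mod_cast hr.ne'
  have h1 := Hom46.ball_iff hr' (measurable_fderiv_sub h (↑M⁻¹ : EndW n)) z ρ (ENNReal.ofReal ε)
  have h2 : ‖(r : ℂ)‖ = r := by rw [Complex.norm_real, Real.norm_eq_abs, abs_of_pos hr]
  rw [h2, ← Hom46.smul_real] at h1
  unfold Good
  rw [h1]
  have h3 : ∫⁻ y in closedBall z ρ, ‖(↑M⁻¹ : EndW n) * fderiv ℝ Φ ((r : ℂ) • y) - 1‖ₑ =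
      ∫⁻ y in closedBall z ρ, ‖(↑M⁻¹ : EndW n) * fderiv ℝ Φ y - 1‖ₑ := by
    apply setLIntegral_congr_fun measurableSet_closedBall
    intro y hy
    have hy0 : y ≠ 0 := Hom46.ne_zero_of_mem hρz hy
    show ‖(↑M⁻¹ : EndW n) * fderiv ℝ Φ ((r : ℂ) • y) - 1‖ₑ = _
    rw [← Hom46.smul_real, fderiv_pos_smul h hr hy0]
  rw [h3]

/-- `Good` is compatible with multiplication by a complex number of modulus one. -/
theorem good_mulC (h : HLoc Φ) {z : W n} (hz : z ≠ 0) {ρ : ℝ} (hρ : 0 < ρ) (hρz : ρ < ‖z‖)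
    {ε : ℝ} {M M' : (EndW n)ˣ} (hM' : (M' : EndW n) = mulC Complex.I * (M : EndW n) * mulC (-Complex.I))
    (hM : Good Φ z ρ ε M) : Good Φ (Complex.I • z) ρ ε M' := by
  have hI : Complex.I ≠ 0 := Complex.I_ne_zero
  have h1 := Hom46.ball_iff hI (measurable_fderiv_sub h (↑M'⁻¹ : EndW n)) z ρ (ENNReal.ofReal ε)
  rw [Complex.norm_I, one_mul] at h1
  unfold Good at hM ⊢
  rw [h1]
  refine le_trans ?_ hM
  have hinv : (Complex.I)⁻¹ = -Complex.I := Complex.inv_I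
  have hM'2 : (↑M'⁻¹ : EndW n) = mulC Complex.I * (↑M⁻¹ : EndW n) * mulC (-Complex.I) := by
    rw [← hinv] at hM' ⊢
    rw [← Ring.inverse_unit M', hM', Hom46.inverse_conj hI M.isUnit, Ring.inverse_unit]
  have h5 : (mulC (-Complex.I) : EndW n) * mulC Complex.I = 1 := by
    rw [← hinv, mulC_mul, inv_mul_cancel₀ hI, mulC_one]
  have h6 : (mulC Complex.I : EndW n) * mulC (-Complex.I) = 1 := by
    rw [← hinv, mulC_mul, mul_inv_cancel₀ hI, mulC_one]
  apply setLIntegral_mono' measurableSet_closedBall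
  intro y hy
  have hy0 : y ≠ 0 := Hom46.ne_zero_of_mem hρz hy
  have h4 : (↑M'⁻¹ : EndW n) * fderiv ℝ Φ (Complex.I • y) - 1 =
      mulC Complex.I * ((↑M⁻¹ : EndW n) * fderiv ℝ Φ y - 1) * mulC (-Complex.I) := by
    rw [hM'2, fderiv_mulC h hI hy0, hinv]
    calc mulC Complex.I * (↑M⁻¹ : EndW n) * mulC (-Complex.I) *
          (mulC Complex.I * fderiv ℝ Φ y * mulC (-Complex.I)) - 1
        = mulC Complex.I * (↑M⁻¹ : EndW n) * (mulC (-Complex.I) * mulC Complex.I) *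
          fderiv ℝ Φ y * mulC (-Complex.I) - mulC Complex.I * mulC (-Complex.I) := by
          rw [h6]
          simp only [mul_assoc]
      _ = mulC Complex.I * ((↑M⁻¹ : EndW n) * fderiv ℝ Φ y - 1) * mulC (-Complex.I) := by
          rw [h5]
          simp only [mul_one, mul_sub, sub_mul, mul_assoc]
  rw [h4]
  rw [enorm_le_iff_norm_le]
  calc ‖mulC Complex.I * ((↑M⁻¹ : EndW n) * fderiv ℝ Φ y - 1) * mulC (-Complex.I)‖
      ≤ ‖(mulC Complex.I : EndW n)‖ * ‖(↑M⁻¹ : EndW n) * fderiv ℝ Φ y - 1‖ *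
        ‖(mulC (-Complex.I) : EndW n)‖ :=
        (norm_mul_le _ _).trans (mul_le_mul_of_nonneg_right (norm_mul_le _ _) (norm_nonneg _))
    _ = ‖(↑M⁻¹ : EndW n) * fderiv ℝ Φ y - 1‖ := by
        rw [norm_mulC, norm_mulC, norm_neg, Complex.norm_I, one_mul, mul_one]

end Pool.Agent.Lib.P28e
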