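import Pool.Agent.Lib.P28e.AvgSmooth

set_option autoImplicit false

/-!
# Chains of steps

The averages `Avg Φ s` of a lift, `0 ≤ s ≤ sm n`, are joined by a chain of steps when their derivatives are injective;
a complex linear map close to the derivatives is joined to the last average by one step.
-/

open MeasureTheory Set Metric
open scoped ENNReal ContDiff

namespace Pool.Agent.Lib.P28e

open Pool.Agent.P28b04d

variable {n : ℕ} {Φ : W n → W n}

theorem sm_pos (n : ℕ) : 0 < sm n := by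
  unfold sm
  positivity

theorem isOpen_dom (n : ℕ) : IsOpen (Ioo (-(2 * sm n)) (2 * sm n) ×ˢ ({0}ᶜ : Set (W n))) :=
  isOpen_Ioo.prod isClosed_singleton.isOpen_compl

theorem mem_dom {s : ℝ} (hs0 : 0 ≤ s) (hs : s ≤ sm n) {z : W n} (hz : z ≠ 0) :
    (s, z) ∈ Ioo (-(2 * sm n)) (2 * sm n) ×ˢ ({0}ᶜ : Set (W n)) := by
  have := sm_pos n
  exact ⟨⟨by linarith, by linarith⟩, hz⟩

theorem avg_lift (h : HLoc Φ) {s : ℝ} (hs0 : 0 ≤ s) (hs : s ≤ sm n) : Lift (Avg Φ s) where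
  smooth := by
    have h1 := avg_smooth h
    have h2 : ContDiffOn ℝ ∞ (fun z : W n => (s, z)) {0}ᶜ :=
      (contDiff_const.prodMk contDiff_id).contDiffOn
    exact h1.comp h2 fun z hz => mem_dom hs0 hs hz
  hom := fun c z => avg_hom h s c z

/-- the derivative in the second variable -/
noncomputable def derAvg (Φ : W n → W n) (p : ℝ × W n) : EndW n :=
  (fderiv ℝ (fun p : ℝ × W n => Avg Φ p.1 p.2) p).comp (ContinuousLinearMap.inr ℝ ℝ (W n))

theorem continuousOn_derAvg (h : HLoc Φ) :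
    ContinuousOn (derAvg Φ) (Ioo (-(2 * sm n)) (2 * sm n) ×ˢ ({0}ᶜ : Set (W n))) := by
  have h1 := (avg_smooth h).continuousOn_fderiv_of_isOpen (isOpen_dom n) (by simp)
  unfold derAvg
  exact h1.clm_comp continuousOn_const

theorem hasFDerivAt_avg (h : HLoc Φ) {s : ℝ} (hs0 : 0 ≤ s) (hs : s ≤ sm n) {z : W n}
    (hz : z ≠ 0) : HasFDerivAt (Avg Φ s) (derAvg Φ (s, z)) z := by
  have h1 : DifferentiableAt ℝ (fun p : ℝ × W n => Avg Φ p.1 p.2) (s, z) :=
    ((avg_smooth h).contDiffAt ((isOpen_dom n).mem_nhds (mem_dom hs0 hs hz))).differentiableAt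
      (by simp)
  have h2 : HasFDerivAt (fun w : W n => (s, w)) (ContinuousLinearMap.inr ℝ ℝ (W n)) z := by
    exact hasFDerivAt_prodMk_right s z
  exact h1.hasFDerivAt.comp z h2

theorem fderiv_avg (h : HLoc Φ) {s : ℝ} (hs0 : 0 ≤ s) (hs : s ≤ sm n) {z : W n}
    (hz : z ≠ 0) : fderiv ℝ (Avg Φ s) z = derAvg Φ (s, z) :=
  (hasFDerivAt_avg h hs0 hs hz).fderiv

theorem derAvg_smul (h : HLoc Φ) {s : ℝ} (hs0 : 0 ≤ s) (hs : s ≤ sm n) {z : W n}
    (hz : z ≠ 0) {r : ℝ} (hr : 0 < r) : derAvg Φ (s, r • z) = derAvg Φ (s, z) := by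
  have hrz : r • z ≠ 0 := smul_ne_zero hr.ne' hz
  have h1 : HasFDerivAt (Avg Φ s) (derAvg Φ (s, r • z)) (r • z) := hasFDerivAt_avg h hs0 hs hrz
  have h2 : HasFDerivAt (fun w : W n => r⁻¹ • Avg Φ s (r • w))
      (r⁻¹ • (derAvg Φ (s, r • z)).comp (r • ContinuousLinearMap.id ℝ (W n))) z := by
    have h5 : HasFDerivAt (fun w : W n => r • w) (r • ContinuousLinearMap.id ℝ (W n)) z :=
      (hasFDerivAt_id z).const_smul r
    exact (HasFDerivAt.comp z h1 h5).const_smul r⁻¹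
  have h3 : (fun w : W n => r⁻¹ • Avg Φ s (r • w)) = Avg Φ s := by
    funext w
    have h4 := avg_hom h s (r : ℂ) w
    have h5 : ((r : ℂ) • w) = r • w := by
      ext i
      simp
    have h6 : ((r : ℂ) • Avg Φ s w) = r • Avg Φ s w := by
      ext i
      simp
    rw [h5, h6] at h4
    rw [h4, smul_smul, inv_mul_cancel₀ hr.ne', one_smul]
  rw [h3] at h2
  have h4 := h2.unique (hasFDerivAt_avg h hs0 hs hz)
  rw [← h4]
  ext v i
  simp [hr.ne']

theorem step_of_close (h : HLoc Φ) {ε : ℝ}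
    (hlow : ∀ s : ℝ, 0 ≤ s → s ≤ sm n → ∀ z : W n, ‖z‖ = 1 → ∀ v : W n, ‖v‖ = 1 →
      ε ≤ ‖derAvg Φ (s, z) v‖) {s s' : ℝ} (hs0 : 0 ≤ s) (hs : s ≤ sm n) (hs0' : 0 ≤ s')
    (hs' : s' ≤ sm n)
    (hd : ∀ z : W n, ‖z‖ = 1 → ‖derAvg Φ (s, z) - derAvg Φ (s', z)‖ < ε) :
    Step (Avg Φ s') (Avg Φ s) := by
  refine ⟨avg_lift h hs0' hs', avg_lift h hs0 hs, fun z hz t ht0 ht1 v hv => ?_⟩
  rw [fderiv_avg h hs0 hs hz, fderiv_avg h hs0' hs' hz] at hv
  have hzn : 0 < ‖z‖ := norm_pos_iff.2 hz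
  set w : W n := ‖z‖⁻¹ • z with hw
  have hw1 : ‖w‖ = 1 := by
    rw [hw, norm_smul, norm_inv, norm_norm, inv_mul_cancel₀ hzn.ne']
  have e1 : derAvg Φ (s, w) = derAvg Φ (s, z) := derAvg_smul h hs0 hs hz (inv_pos.2 hzn)
  have e2 : derAvg Φ (s', w) = derAvg Φ (s', z) := derAvg_smul h hs0' hs' hz (inv_pos.2 hzn)
  rw [← e1, ← e2] at hv
  by_contra hne
  have hvn : 0 < ‖v‖ := norm_pos_iff.2 hne
  set D := derAvg Φ (s, w) with hD
  set D' := derAvg Φ (s', w) with hD'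
  have h1 : D v = (1 - t) • ((D - D') v) := by
    have : (1 - t) • D' v + t • D v = D v - (1 - t) • ((D - D') v) := by
      rw [sub_apply]
      module
    rw [this] at hv
    exact sub_eq_zero.1 hv
  have h2 : ε * ‖v‖ ≤ ‖D v‖ := by
    have h3 := hlow s hs0 hs w hw1 (‖v‖⁻¹ • v) (by
      rw [norm_smul, norm_inv, norm_norm, inv_mul_cancel₀ hvn.ne'])
    rw [map_smul, norm_smul, norm_inv, norm_norm] at h3
    calc ε * ‖v‖ ≤ (‖v‖⁻¹ * ‖D v‖) * ‖v‖ := by gcongr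
      _ = ‖D v‖ := by field_simp
  have h3 : ‖D v‖ ≤ ‖D - D'‖ * ‖v‖ := by
    rw [h1, norm_smul, Real.norm_eq_abs, abs_of_nonneg (by linarith)]
    calc (1 - t) * ‖(D - D') v‖ ≤ 1 * ‖(D - D') v‖ := by
          gcongr
          linarith
      _ = ‖(D - D') v‖ := one_mul _
      _ ≤ ‖D - D'‖ * ‖v‖ := (D - D').le_opNorm v
  have h4 := hd w hw1
  have h5 : ‖D - D'‖ * ‖v‖ < ε * ‖v‖ := by gcongr
  linarith

theorem chain_steps (h : HLoc Φ)
    (hinj : ∀ s : ℝ, 0 ≤ s → s ≤ sm n → ∀ z : W n, z ≠ 0 →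
      ∀ v : W n, fderiv ℝ (Avg Φ s) z v = 0 → v = 0) :
    Relation.ReflTransGen Step (Avg Φ (sm n)) Φ := by
  have hsm := sm_pos n
  set K : Set (ℝ × W n) := Icc 0 (sm n) ×ˢ sphere (0 : W n) 1 with hK
  have hKc : IsCompact K := isCompact_Icc.prod (isCompact_sphere _ _)
  have hKsub : K ⊆ Ioo (-(2 * sm n)) (2 * sm n) ×ˢ ({0}ᶜ : Set (W n)) := by
    rintro ⟨s, z⟩ ⟨hs, hz⟩
    refine mem_dom hs.1 hs.2 ?_
    intro hz0
    simp only [mem_sphere_iff_norm, sub_zero] at hz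
    rw [hz0, norm_zero] at hz
    exact zero_ne_one hz
  have hcK : ContinuousOn (derAvg Φ) K := (continuousOn_derAvg h).mono hKsub
  -- lower bound
  have hcont2 : ContinuousOn (fun q : (ℝ × W n) × W n => ‖derAvg Φ q.1 q.2‖)
      (K ×ˢ sphere (0 : W n) 1) := by
    refine ContinuousOn.norm ?_
    refine ContinuousOn.clm_apply ?_ continuousOn_snd
    exact hcK.comp continuousOn_fst fun q hq => hq.1
  obtain ⟨ε, hε, hεle⟩ := (hKc.prod (isCompact_sphere (0 : W n) 1)).exists_forall_le' hcont2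
    (a := 0) (by
      rintro ⟨⟨s, z⟩, v⟩ ⟨⟨hs, hz⟩, hv⟩
      have hz1 : ‖z‖ = 1 := by simpa using hz
      have hv1 : ‖v‖ = 1 := by simpa using hv
      have hz0 : z ≠ 0 := by
        rintro rfl
        simp at hz1
      have hv0 : v ≠ 0 := by
        rintro rfl
        simp at hv1
      refine norm_pos_iff.2 fun h0 => hv0 ?_
      refine hinj s hs.1 hs.2 z hz0 v ?_
      rw [fderiv_avg h hs.1 hs.2 hz0]
      exact h0)
  have hlow : ∀ s : ℝ, 0 ≤ s → s ≤ sm n → ∀ z : W n, ‖z‖ = 1 → ∀ v : W n, ‖v‖ = 1 →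
      ε ≤ ‖derAvg Φ (s, z) v‖ := by
    intro s hs0 hs z hz v hv
    exact hεle ((s, z), v) ⟨⟨⟨hs0, hs⟩, by simpa using hz⟩, by simpa using hv⟩
  -- uniform continuity
  have huc := hKc.uniformContinuousOn_of_continuous hcK
  rw [Metric.uniformContinuousOn_iff] at huc
  obtain ⟨η, hη, hηd⟩ := huc ε hε
  obtain ⟨N, hN⟩ := exists_nat_gt (sm n / η)
  have hN0 : (0 : ℝ) < N := lt_of_le_of_lt (by positivity) hN
  have hNη : sm n / N < η := by
    rw [div_lt_iff₀ hN0]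
    rw [div_lt_iff₀ hη] at hN
    linarith
  have hmem : ∀ k : ℕ, k ≤ N → 0 ≤ sm n - k * (sm n / N) ∧ sm n - k * (sm n / N) ≤ sm n := by
    intro k hk
    have hk' : (k : ℝ) ≤ N := by exact_mod_cast hk
    have h1 : (k : ℝ) * (sm n / N) ≤ N * (sm n / N) := by gcongr
    have h2 : (N : ℝ) * (sm n / N) = sm n := by field_simp
    have h3 : 0 ≤ (k : ℝ) * (sm n / N) := by positivity
    constructor <;> linarith
  have hchain : ∀ k : ℕ, k ≤ N →
      Relation.ReflTransGen Step (Avg Φ (sm n)) (Avg Φ (sm n - k * (sm n / N))) := by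
    intro k
    induction k with
    | zero =>
      intro _
      simp only [Nat.cast_zero, zero_mul, sub_zero]
      exact Relation.ReflTransGen.refl
    | succ k ih =>
      intro hk
      refine (ih (by omega)).tail ?_
      obtain ⟨a0, a1⟩ := hmem k (by omega)
      obtain ⟨b0, b1⟩ := hmem (k + 1) hk
      refine step_of_close h hlow b0 b1 a0 a1 ?_
      intro z hz
      have h1 := hηd (sm n - ((k + 1 : ℕ) : ℝ) * (sm n / N), z) ⟨⟨b0, b1⟩, by simpa using hz⟩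
        (sm n - (k : ℝ) * (sm n / N), z) ⟨⟨a0, a1⟩, by simpa using hz⟩ (by
          rw [Prod.dist_eq]
          simp only [dist_self]
          rw [max_eq_left dist_nonneg, Real.dist_eq]
          have : sm n - ((k + 1 : ℕ) : ℝ) * (sm n / N) - (sm n - (k : ℝ) * (sm n / N)) =
              -(sm n / N) := by
            push_cast
            ring
          rw [this, abs_neg, abs_of_pos (by positivity)]
          exact hNη)
      rwa [dist_eq_norm] at h1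
  have h1 := hchain N le_rfl
  have h2 : sm n - (N : ℝ) * (sm n / N) = 0 := by
    field_simp
    ring
  rw [h2, avg_zero] at h1
  exact h1

theorem last_step (h : HLoc Φ) (Λ : W n ≃ₗ[ℂ] W n) (ΛR : EndW n) (hΛ : ∀ v, ΛR v = Λ v)
    (h1 : ∀ z : W n, z ≠ 0 → ∃ M : (EndW n)ˣ,
      ‖(↑M⁻¹ : EndW n) * fderiv ℝ (Avg Φ (sm n)) z - 1‖ < 1 ∧
        ‖(↑M⁻¹ : EndW n) * ΛR - 1‖ < 1) :
    Step (Λ : W n → W n) (Avg Φ (sm n)) := by
  have hfun : (Λ : W n → W n) = ΛR := by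
    funext v
    exact (hΛ v).symm
  have hl : Lift (Λ : W n → W n) := by
    refine ⟨?_, fun c z => Λ.map_smul c z⟩
    rw [hfun]
    exact ΛR.contDiff.contDiffOn
  refine ⟨hl, avg_lift h (sm_pos n).le le_rfl, fun z hz t ht0 ht1 v hv => ?_⟩
  rw [hfun, ΛR.fderiv] at hv
  obtain ⟨M, hM1, hM2⟩ := h1 z hz
  set D := fderiv ℝ (Avg Φ (sm n)) z with hD
  by_contra hne
  have hvn : 0 < ‖v‖ := norm_pos_iff.2 hne
  have e : (1 - t) • (((↑M⁻¹ : EndW n) * ΛR - 1) v) + t • (((↑M⁻¹ : EndW n) * D - 1) v) = -v := by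
    have e1 : (↑M⁻¹ : EndW n) ((1 - t) • ΛR v + t • D v) = 0 := by
      rw [hv, map_zero]
    rw [map_add, map_smul, map_smul] at e1
    have e2 : (((↑M⁻¹ : EndW n) * ΛR - 1) v) = (↑M⁻¹ : EndW n) (ΛR v) - v := rfl
    have e3 : (((↑M⁻¹ : EndW n) * D - 1) v) = (↑M⁻¹ : EndW n) (D v) - v := rfl
    rw [e2, e3]
    have e4 : (1 - t) • ((↑M⁻¹ : EndW n) (ΛR v) - v) + t • ((↑M⁻¹ : EndW n) (D v) - v) =
        ((1 - t) • (↑M⁻¹ : EndW n) (ΛR v) + t • (↑M⁻¹ : EndW n) (D v)) - v := by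
      module
    rw [e4, e1, zero_sub]
  have b1 := ((↑M⁻¹ : EndW n) * ΛR - 1).le_opNorm v
  have b2 := ((↑M⁻¹ : EndW n) * D - 1).le_opNorm v
  have b3 : ‖v‖ ≤ (1 - t) * (‖(↑M⁻¹ : EndW n) * ΛR - 1‖ * ‖v‖) +
      t * (‖(↑M⁻¹ : EndW n) * D - 1‖ * ‖v‖) := by
    calc ‖v‖ = ‖-v‖ := (norm_neg v).symm
      _ ≤ ‖(1 - t) • (((↑M⁻¹ : EndW n) * ΛR - 1) v)‖ + ‖t • (((↑M⁻¹ : EndW n) * D - 1) v)‖ := by
          rw [← e]
          exact norm_add_le _ _
      _ = (1 - t) * ‖((↑M⁻¹ : EndW n) * ΛR - 1) v‖ + t * ‖((↑M⁻¹ : EndW n) * D - 1) v‖ := by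
          rw [norm_smul, norm_smul, Real.norm_eq_abs, Real.norm_eq_abs,
            abs_of_nonneg (by linarith), abs_of_nonneg ht0]
      _ ≤ _ := by
          have h1t : 0 ≤ 1 - t := by linarith
          gcongr
  have c1 : ‖(↑M⁻¹ : EndW n) * ΛR - 1‖ * ‖v‖ < ‖v‖ := by
    calc _ < 1 * ‖v‖ := by gcongr
      _ = ‖v‖ := one_mul _
  have c2 : ‖(↑M⁻¹ : EndW n) * D - 1‖ * ‖v‖ < ‖v‖ := by
    calc _ < 1 * ‖v‖ := by gcongr
      _ = ‖v‖ := one_mul _
  rcases ht0.eq_or_lt with ht | ht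
  · rw [← ht] at b3
    linarith
  · have c3 : t * (‖(↑M⁻¹ : EndW n) * D - 1‖ * ‖v‖) < t * ‖v‖ := by gcongr
    have c4 : (1 - t) * (‖(↑M⁻¹ : EndW n) * ΛR - 1‖ * ‖v‖) ≤ (1 - t) * ‖v‖ := by
      have h1t : 0 ≤ 1 - t := by linarith
      gcongr
    nlinarith

theorem linear_part (M : (EndW n)ˣ) {ε : ℝ} (hε : ε ≤ 1)
    (hM : ‖(↑M⁻¹ : EndW n) * (mulC Complex.I * (M : EndW n) * mulC (-Complex.I)) - 1‖ ≤ ε) :
    ∃ (Λ : W n ≃ₗ[ℂ] W n) (ΛR : EndW n), (∀ v, ΛR v = Λ v) ∧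
      ‖(↑M⁻¹ : EndW n) * ΛR - 1‖ ≤ ε := by
  set N : EndW n := mulC Complex.I * (M : EndW n) * mulC (-Complex.I) with hN
  have hNv : ∀ v, N v = Complex.I • (M : EndW n) ((-Complex.I) • v) := fun v => rfl
  set ΛR : EndW n := (1 / 2 : ℝ) • ((M : EndW n) + N) with hΛR
  have hΛRv : ∀ v, ΛR v = (1 / 2 : ℝ) • ((M : EndW n) v + Complex.I • (M : EndW n) ((-Complex.I) • v)) :=
    fun v => rfl
  have hε0 : 0 ≤ ε := (norm_nonneg _).trans hM
  have hclose : ‖(↑M⁻¹ : EndW n) * ΛR - 1‖ ≤ ε / 2 := by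
    have e : (↑M⁻¹ : EndW n) * ΛR - 1 = (1 / 2 : ℝ) • ((↑M⁻¹ : EndW n) * N - 1) := by
      ext1 v
      have e1 : ((↑M⁻¹ : EndW n) * ΛR - 1) v = (↑M⁻¹ : EndW n) ((1 / 2 : ℝ) • ((M : EndW n) v + N v)) - v :=
        rfl
      have e2 : ((1 / 2 : ℝ) • ((↑M⁻¹ : EndW n) * N - 1)) v = (1 / 2 : ℝ) • ((↑M⁻¹ : EndW n) (N v) - v) :=
        rfl
      have e3 : (↑M⁻¹ : EndW n) ((M : EndW n) v) = v := by
        have : ((↑M⁻¹ : EndW n) * (M : EndW n)) v = v := by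
          rw [Units.inv_mul]
          rfl
        exact this
      rw [e1, e2, map_smul, map_add, e3]
      module
    rw [e, norm_smul, Real.norm_eq_abs, abs_of_pos (by norm_num)]
    linarith
  have hI : ∀ v : W n, ΛR (Complex.I • v) = Complex.I • ΛR v := by
    intro v
    rw [hΛRv, hΛRv]
    have e1 : (-Complex.I) • (Complex.I • v) = v := by
      rw [smul_smul]
      simp
    have e2 : (M : EndW n) ((-Complex.I) • v) = -((M : EndW n) (Complex.I • v)) := by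
      rw [neg_smul, map_neg]
    rw [e1, e2]
    have e3 : ∀ a b : W n, Complex.I • ((1 / 2 : ℝ) • (a + Complex.I • (-b))) =
        (1 / 2 : ℝ) • (b + Complex.I • a) := by
      intro a b
      ext i
      simp only [Pi.smul_apply, Pi.add_apply, Pi.neg_apply, smul_eq_mul, Complex.real_smul]
      have := Complex.I_mul_I
      linear_combination (-(1 / 2 : ℝ) : ℂ) * b i * this
    rw [e3]
  have hsm : ∀ (c : ℂ) (v : W n), ΛR (c • v) = c • ΛR v := by
    intro c v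
    have e1 : ∀ u : W n, c • u = c.re • u + c.im • (Complex.I • u) := by
      intro u
      ext i
      simp only [Pi.smul_apply, Pi.add_apply, smul_eq_mul, Complex.real_smul]
      have := Complex.re_add_im c
      linear_combination (-(u i)) * this
    rw [e1 v, map_add, map_smul, map_smul, hI, ← e1]
  let L : W n →ₗ[ℂ] W n :=
    { toFun := ΛR
      map_add' := map_add ΛR
      map_smul' := fun c v => hsm c v }
  have hLinj : Function.Injective L := by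
    intro a b hab
    have h0 : ΛR (a - b) = 0 := by
      rw [map_sub]
      exact sub_eq_zero.2 hab
    have h2 := ((↑M⁻¹ : EndW n) * ΛR - 1).le_opNorm (a - b)
    have h1 : ((↑M⁻¹ : EndW n) * ΛR - 1) (a - b) = -(a - b) := by
      have : ((↑M⁻¹ : EndW n) * ΛR - 1) (a - b) = (↑M⁻¹ : EndW n) (ΛR (a - b)) - (a - b) := rfl
      rw [this, h0, map_zero, zero_sub]
    rw [h1, norm_neg] at h2
    by_contra hne
    have h3 : 0 < ‖a - b‖ := norm_pos_iff.2 (sub_ne_zero.2 hne)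
    nlinarith
  refine ⟨LinearEquiv.ofInjectiveEndo L hLinj, ΛR, fun v => ?_, by linarith⟩
  rfl

end Pool.Agent.Lib.P28e
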