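import Pool.Agent.Lib.P28e.GoodAll
import Pool.Agent.Lib.P28e.Chn
import Pool.Agent.Lib.P28e.AvgClose
import Pool.Agent.Lib.P28e.Steps

set_option autoImplicit false

/-!
# Assembly
-/

open MeasureTheory Set Metric
open scoped ENNReal ContDiff

namespace Pool.Agent.Lib.P28e

open Pool.Agent.P28b04d

variable {n : ℕ} {Φ : W n → W n}

theorem finrank_W (n : ℕ) : Module.finrank ℝ (W n) = 2 * n + 2 := by
  rw [Module.finrank_pi_fintype]
  simp [Complex.finrank_real_complex]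
  ring

/-- `Good` on a ball gives `Good` on a smaller concentric ball with a larger tolerance. -/
theorem good_mono {z : W n} {ρ ρ' ε K : ℝ} (hρ' : 0 < ρ') (hρ : ρ' ≤ ρ) (hε : 0 ≤ ε)
    (hK : ρ ≤ K * ρ') {M : (EndW n)ˣ} (hM : Good Φ z ρ ε M) :
    Good Φ z ρ' (ε * K ^ (2 * n + 2)) M := by
  have hρ0 : 0 < ρ := lt_of_lt_of_le hρ' hρ
  have hK0 : 0 < K := by
    by_contra h
    push Not at h
    have := mul_nonpos_of_nonpos_of_nonneg h hρ'.le
    linarith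
  have hvol : volume (closedBall z ρ) ≤ ENNReal.ofReal (K ^ (2 * n + 2)) *
      volume (closedBall z ρ') := by
    have e1 : volume (closedBall z ρ) = ENNReal.ofReal (ρ ^ (2 * n + 2)) *
        volume (closedBall (0 : W n) 1) := by
      rw [Measure.addHaar_closedBall' _ _ hρ0.le, finrank_W]
    have e2 : volume (closedBall z ρ') = ENNReal.ofReal (ρ' ^ (2 * n + 2)) *
        volume (closedBall (0 : W n) 1) := by
      rw [Measure.addHaar_closedBall' _ _ hρ'.le, finrank_W]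
    rw [e1, e2, ← mul_assoc, ← ENNReal.ofReal_mul (by positivity), ← mul_pow]
    gcongr
  unfold Good at hM ⊢
  calc ∫⁻ x in closedBall z ρ', ‖(↑M⁻¹ : EndW n) * fderiv ℝ Φ x - 1‖ₑ
      ≤ ∫⁻ x in closedBall z ρ, ‖(↑M⁻¹ : EndW n) * fderiv ℝ Φ x - 1‖ₑ :=
        lintegral_mono_set (closedBall_subset_closedBall hρ)
    _ ≤ ENNReal.ofReal ε * volume (closedBall z ρ) := hM
    _ ≤ ENNReal.ofReal ε * (ENNReal.ofReal (K ^ (2 * n + 2)) * volume (closedBall z ρ')) := by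
        gcongr
    _ = ENNReal.ofReal (ε * K ^ (2 * n + 2)) * volume (closedBall z ρ') := by
        rw [← mul_assoc, ← ENNReal.ofReal_mul hε]

theorem sub_one_mul {A : Type*} [NormedRing A] [NormOneClass A] {a b : A} {x y : ℝ}
    (ha : ‖a - 1‖ ≤ x) (hb : ‖b - 1‖ ≤ y) : ‖a * b - 1‖ ≤ x + y + x * y := by
  have e : a * b - 1 = (a - 1) + (b - 1) + (a - 1) * (b - 1) := by noncomm_ring
  have hx : 0 ≤ x := (norm_nonneg _).trans ha
  rw [e]
  calc ‖(a - 1) + (b - 1) + (a - 1) * (b - 1)‖ ≤ ‖a - 1‖ + ‖b - 1‖ + ‖(a - 1) * (b - 1)‖ :=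
        norm_add₃_le
    _ ≤ x + y + x * y := by
        have := norm_mul_le (a - 1) (b - 1)
        have h2 : ‖a - 1‖ * ‖b - 1‖ ≤ x * y := mul_le_mul ha hb (norm_nonneg _) hx
        linarith

theorem inj_of_close {M : (EndW n)ˣ} {D : EndW n} (h : ‖(↑M⁻¹ : EndW n) * D - 1‖ < 1) (v : W n)
    (hv : D v = 0) : v = 0 := by
  by_contra hne
  have h1 : ((↑M⁻¹ : EndW n) * D - 1) v = -v := by
    simp [hv]
  have h2 := ((↑M⁻¹ : EndW n) * D - 1).le_opNorm v
  rw [h1, norm_neg] at h2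
  have h3 : 0 < ‖v‖ := norm_pos_iff.2 hne
  nlinarith

theorem main (n : ℕ) (hn : 1 ≤ n) : ∃ c : ℝ, 0 < c ∧ ∀ Φ : W n → W n, HLoc Φ →
    energy Φ ≤ ENNReal.ofReal c →
    ∀ F : (Fin (n + 1) → Fin (n + 1) → ℂ) → (Fin (n + 1) → Fin (n + 1) → ℂ),
      (∀ z, z ≠ 0 → F (pt z) = pt (Φ z)) → IsotopicToId n F := by
  obtain ⟨δ1, hδ1, hcomp⟩ := compare n hn (1 / 4) (by norm_num)
  set K : ℝ := (n : ℝ) + 1 with hK
  have hK0 : 0 < K := by positivity
  set δ2 : ℝ := min δ1 (1 / (8 * K ^ (2 * n + 2))) with hδ2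
  have hδ2p : 0 < δ2 := by positivity
  obtain ⟨c1, hc1, h1⟩ := good_all n hn δ2 hδ2p
  obtain ⟨c2, hc2, h2⟩ := good_all n hn (1 / 8) (by norm_num)
  refine ⟨min c1 c2, by positivity, fun Φ hΦ hE F hF => ?_⟩
  have hE1 : energy Φ ≤ ENNReal.ofReal c1 :=
    hE.trans (ENNReal.ofReal_le_ofReal (min_le_left _ _))
  have hE2 : energy Φ ≤ ENNReal.ofReal c2 :=
    hE.trans (ENNReal.ofReal_le_ofReal (min_le_right _ _))
  have hsm : 0 < sm n := by unfold sm; positivity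
  have hsm0 : 0 ≤ sm n := hsm.le
  have hsmK : sm n = 1 / (8 * K) := rfl
  have hex : ∀ z : W n, z ≠ 0 → ∃ M : (EndW n)ˣ, Good Φ z (‖z‖ / 8) δ2 M := fun z hz =>
    h1 Φ hΦ hE1 z hz (‖z‖ / 8) (by have := norm_pos_iff.2 hz; positivity) le_rfl
  have hmono : ∀ {z : W n} {M : (EndW n)ˣ}, Good Φ z (‖z‖ / 8) δ2 M →
      Good Φ z (‖z‖ / 8) δ1 M := by
    intro z M h
    unfold Good at h ⊢
    refine h.trans ?_
    gcongr
    exact min_le_left _ _
  have hcmp := hcomp Φ hΦ (fun z hz => by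
    obtain ⟨M, hM⟩ := hex z hz
    exact ⟨M, hmono hM⟩)
  -- close at the last scale
  have hlast : ∀ z : W n, z ≠ 0 → ∀ M : (EndW n)ˣ, Good Φ z (‖z‖ / 8) δ2 M →
      ‖(↑M⁻¹ : EndW n) * fderiv ℝ (Avg Φ (sm n)) z - 1‖ ≤ 1 / 4 := by
    intro z hz M hM
    have hz' := norm_pos_iff.2 hz
    have hr1 := rad_le z
    have hr2 := norm_le_rad z
    have hρ' : 0 < sm n * rad z := mul_pos hsm (lt_of_lt_of_le hz' hr2)
    have hρ : sm n * rad z ≤ ‖z‖ / 8 := by
      calc sm n * rad z ≤ sm n * (K * ‖z‖) := by gcongr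
        _ = ‖z‖ / 8 := by rw [hsmK]; field_simp
    have hKρ : ‖z‖ / 8 ≤ K * (sm n * rad z) := by
      calc ‖z‖ / 8 = K * (sm n * ‖z‖) := by rw [hsmK]; field_simp
        _ ≤ K * (sm n * rad z) := by gcongr
    have hg := good_mono hρ' hρ hδ2p.le hKρ hM
    have hle : δ2 * K ^ (2 * n + 2) ≤ 1 / 8 := by
      calc δ2 * K ^ (2 * n + 2) ≤ (1 / (8 * K ^ (2 * n + 2))) * K ^ (2 * n + 2) := by
            gcongr
            exact min_le_right _ _
        _ = 1 / 8 := by field_simp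
    have := avg_close hΦ hz hsm le_rfl (by positivity) hg
    linarith
  have hinj : ∀ s : ℝ, 0 ≤ s → s ≤ sm n → ∀ z : W n, z ≠ 0 →
      ∀ v : W n, fderiv ℝ (Avg Φ s) z v = 0 → v = 0 := by
    intro s hs0 hs z hz v hv
    rcases hs0.eq_or_lt with h0 | h0
    · rw [← h0, avg_zero] at hv
      exact hΦ.inj z hz v hv
    · have hz' := norm_pos_iff.2 hz
      have hr1 := rad_le z
      have hr2 := norm_le_rad z
      have hρ' : 0 < s * rad z := mul_pos h0 (lt_of_lt_of_le hz' hr2)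
      have hρ : s * rad z ≤ ‖z‖ / 8 := by
        calc s * rad z ≤ sm n * (K * ‖z‖) :=
              mul_le_mul hs hr1 (hz'.le.trans hr2) hsm0
          _ = ‖z‖ / 8 := by rw [hsmK]; field_simp
      obtain ⟨M, hM⟩ := h2 Φ hΦ hE2 z hz _ hρ' hρ
      have h3 := avg_close hΦ hz h0 hs (by norm_num) hM
      exact inj_of_close (M := M) (by linarith) v hv
  -- the linear map
  have he0 : e0 n ≠ 0 := by
    intro h
    have := congrFun h 0
    simp [e0] at this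
  obtain ⟨M0, hM0⟩ := hex (e0 n) he0
  have hII : (mulC Complex.I : EndW n) * mulC (-Complex.I) = 1 := by
    rw [mulC_mul]; simp [mulC_one]
  have hII' : (mulC (-Complex.I) : EndW n) * mulC Complex.I = 1 := by
    rw [mulC_mul]; simp [mulC_one]
  let J : (EndW n)ˣ := ⟨mulC Complex.I, mulC (-Complex.I), hII, hII'⟩
  have hJ : ((J * M0 * J⁻¹ : (EndW n)ˣ) : EndW n) =
      mulC Complex.I * (M0 : EndW n) * mulC (-Complex.I) := rfl
  have hIe : (Complex.I • e0 n) ≠ 0 := smul_ne_zero Complex.I_ne_zero he0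
  have hnI : ‖Complex.I • e0 n‖ = ‖e0 n‖ := by rw [norm_smul]; simp
  have hM0' : Good Φ (Complex.I • e0 n) (‖Complex.I • e0 n‖ / 8) δ2 (J * M0 * J⁻¹) := by
    rw [hnI]
    have hp := norm_pos_iff.2 he0
    exact good_mulC hΦ he0 (by positivity) (by linarith) hJ hM0
  have hc0 := hcmp (e0 n) _ he0 hIe M0 _ (hmono hM0) (hmono hM0')
  rw [hJ] at hc0
  obtain ⟨Λ, ΛR, hΛ, hΛM⟩ := linear_part M0 (by norm_num) hc0
  have hstep : Step (Λ : W n → W n) (Avg Φ (sm n)) := by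
    refine last_step hΦ Λ ΛR hΛ fun z hz => ?_
    obtain ⟨M, hM⟩ := hex z hz
    refine ⟨M, by linarith [hlast z hz M hM], ?_⟩
    have h3 := hcmp z _ hz he0 M M0 (hmono hM) (hmono hM0)
    have h4 := sub_one_mul h3 hΛM
    have e : (↑M⁻¹ : EndW n) * (M0 : EndW n) * ((↑M0⁻¹ : EndW n) * ΛR) = (↑M⁻¹ : EndW n) * ΛR := by
      rw [mul_assoc, ← mul_assoc (M0 : EndW n), Units.mul_inv, one_mul]
    rw [e] at h4
    linarith
  exact isotopic_of_chain Λ (Relation.ReflTransGen.trans (Relation.ReflTransGen.single hstep)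
    (chain_steps hΦ hinj)) hF

end Pool.Agent.Lib.P28e
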