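import Mathlib

set_option autoImplicit false

/-!
# Poincaré inequality in `L¹` on cubes, with the constant `ℓ / 2`
-/

open MeasureTheory Set
open scoped ENNReal

namespace Pool.Agent.Lib.P28e

variable {F : Type*} [NormedAddCommGroup F] [NormedSpace ℝ F] [CompleteSpace F]

/-- The measure on the cube with lowest corner `a` and side `ℓ`. -/
noncomputable def cm {d : ℕ} (a : Fin d → ℝ) (ℓ : ℝ) : Measure (Fin d → ℝ) :=
  Measure.pi (fun i => (volume : Measure ℝ).restrict (Icc (a i) (a i + ℓ)))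

theorem enorm_sub_le {h h' : ℝ → F} (hd : ∀ t, HasDerivAt h (h' t) t) (hc : Continuous h')
    (s t : ℝ) : ‖h t - h s‖ₑ ≤ ∫⁻ r in uIcc s t, ‖h' r‖ₑ := by
  have key : ∀ s t : ℝ, s ≤ t → ‖h t - h s‖ₑ ≤ ∫⁻ r in Icc s t, ‖h' r‖ₑ := by
    intro s t hst
    rw [← intervalIntegral.integral_eq_sub_of_hasDerivAt (fun x _ => hd x)
      (hc.intervalIntegrable s t), intervalIntegral.integral_of_le hst]
    refine (enorm_integral_le_lintegral_enorm _).trans ?_
    exact lintegral_mono_set Ioc_subset_Icc_self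
  rcases le_total s t with hst | hst
  · rw [uIcc_of_le hst]; exact key s t hst
  · rw [uIcc_of_ge hst, ← enorm_neg, neg_sub]; exact key t s hst

theorem kernel_le (a ℓ r : ℝ) (hℓ : 0 ≤ ℓ) (hr : r ∈ Icc a (a + ℓ)) :
    ∫⁻ t in Icc a (a + ℓ), ∫⁻ s in Icc a (a + ℓ), (uIcc s t).indicator (fun _ => (1 : ℝ≥0∞)) r ≤
      ENNReal.ofReal (ℓ ^ 2 / 2) := by
  have h1 : ∀ t s : ℝ, (uIcc s t).indicator (fun _ => (1 : ℝ≥0∞)) r ≤
      (Iic r).indicator (fun _ => (1 : ℝ≥0∞)) s * (Ici r).indicator (fun _ => (1 : ℝ≥0∞)) t +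
      (Ici r).indicator (fun _ => (1 : ℝ≥0∞)) s * (Iic r).indicator (fun _ => (1 : ℝ≥0∞)) t := by
    intro t s
    by_cases hr' : r ∈ uIcc s t
    · rw [indicator_of_mem hr']
      rcases le_total s t with hst | hst
      · rw [uIcc_of_le hst] at hr'
        have h1 : s ∈ Iic r := hr'.1
        have h2 : t ∈ Ici r := hr'.2
        rw [indicator_of_mem h1, indicator_of_mem h2]
        simp
      · rw [uIcc_of_ge hst] at hr'
        have h1 : t ∈ Iic r := hr'.1
        have h2 : s ∈ Ici r := hr'.2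
        rw [indicator_of_mem h1 (fun _ => (1 : ℝ≥0∞)), indicator_of_mem h2 (fun _ => (1 : ℝ≥0∞))]
        simp
    · rw [indicator_of_notMem hr']; exact zero_le
  have e1 : ∫⁻ s in Icc a (a + ℓ), (Iic r).indicator (fun _ => (1 : ℝ≥0∞)) s =
      ENNReal.ofReal (r - a) := by
    rw [lintegral_indicator measurableSet_Iic]
    simp only [lintegral_const, one_mul, Measure.restrict_apply MeasurableSet.univ, univ_inter]
    rw [Measure.restrict_apply measurableSet_Iic]
    have : Iic r ∩ Icc a (a + ℓ) = Icc a r := by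
      ext x
      simp only [mem_inter_iff, mem_Iic, mem_Icc]
      constructor
      · rintro ⟨h1, h2, h3⟩; exact ⟨h2, h1⟩
      · rintro ⟨h1, h2⟩; exact ⟨h2, h1, h2.trans hr.2⟩
    rw [this, Real.volume_Icc]
  have e2 : ∫⁻ s in Icc a (a + ℓ), (Ici r).indicator (fun _ => (1 : ℝ≥0∞)) s =
      ENNReal.ofReal (a + ℓ - r) := by
    rw [lintegral_indicator measurableSet_Ici]
    simp only [lintegral_const, one_mul, Measure.restrict_apply MeasurableSet.univ, univ_inter]
    rw [Measure.restrict_apply measurableSet_Ici]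
    have : Ici r ∩ Icc a (a + ℓ) = Icc r (a + ℓ) := by
      ext x
      simp only [mem_inter_iff, mem_Ici, mem_Icc]
      constructor
      · rintro ⟨h1, h2, h3⟩; exact ⟨h1, h3⟩
      · rintro ⟨h1, h2⟩; exact ⟨h1, hr.1.trans h1, h2⟩
    rw [this, Real.volume_Icc]
  have hm1 : Measurable ((Iic r).indicator (fun _ : ℝ => (1 : ℝ≥0∞))) :=
    measurable_const.indicator measurableSet_Iic
  have hm2 : Measurable ((Ici r).indicator (fun _ : ℝ => (1 : ℝ≥0∞))) :=
    measurable_const.indicator measurableSet_Ici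
  have h0 : 0 ≤ r - a := sub_nonneg.2 hr.1
  have h0' : 0 ≤ a + ℓ - r := sub_nonneg.2 hr.2
  calc ∫⁻ t in Icc a (a + ℓ), ∫⁻ s in Icc a (a + ℓ), (uIcc s t).indicator (fun _ => (1 : ℝ≥0∞)) r
      ≤ ∫⁻ t in Icc a (a + ℓ), ∫⁻ s in Icc a (a + ℓ),
        ((Iic r).indicator (fun _ => (1 : ℝ≥0∞)) s * (Ici r).indicator (fun _ => (1 : ℝ≥0∞)) t +
        (Ici r).indicator (fun _ => (1 : ℝ≥0∞)) s * (Iic r).indicator (fun _ => (1 : ℝ≥0∞)) t) :=
        lintegral_mono fun t => lintegral_mono fun s => h1 t s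
    _ = ∫⁻ t in Icc a (a + ℓ), (ENNReal.ofReal (r - a) *
          (Ici r).indicator (fun _ => (1 : ℝ≥0∞)) t +
          ENNReal.ofReal (a + ℓ - r) * (Iic r).indicator (fun _ => (1 : ℝ≥0∞)) t) := by
        refine lintegral_congr fun t => ?_
        rw [lintegral_add_left (hm1.mul_const _), lintegral_mul_const _ hm1,
          lintegral_mul_const _ hm2, e1, e2]
    _ = ENNReal.ofReal (r - a) * ENNReal.ofReal (a + ℓ - r) +
          ENNReal.ofReal (a + ℓ - r) * ENNReal.ofReal (r - a) := by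
        rw [lintegral_add_left (hm2.const_mul _), lintegral_const_mul _ hm2,
          lintegral_const_mul _ hm1, e1, e2]
    _ = ENNReal.ofReal (2 * ((r - a) * (a + ℓ - r))) := by
        rw [← ENNReal.ofReal_mul h0, ← ENNReal.ofReal_mul h0', ← ENNReal.ofReal_add
          (mul_nonneg h0 h0') (mul_nonneg h0' h0)]
        congr 1; ring
    _ ≤ ENNReal.ofReal (ℓ ^ 2 / 2) := by
        apply ENNReal.ofReal_le_ofReal
        nlinarith [sq_nonneg (r - a - (a + ℓ - r))]

theorem measurable_ker {h' : ℝ → F} (hc : Continuous h') :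
    Measurable fun p : ℝ × ℝ × ℝ => (uIcc p.2.1 p.1).indicator (fun r => ‖h' r‖ₑ) p.2.2 := by
  have hset : MeasurableSet {p : ℝ × ℝ × ℝ | p.2.2 ∈ uIcc p.2.1 p.1} := by
    have : {p : ℝ × ℝ × ℝ | p.2.2 ∈ uIcc p.2.1 p.1} =
        {p : ℝ × ℝ × ℝ | min p.2.1 p.1 ≤ p.2.2} ∩ {p : ℝ × ℝ × ℝ | p.2.2 ≤ max p.2.1 p.1} := by
      ext p
      simp [uIcc, Icc]
    rw [this]
    refine (measurableSet_le ?_ ?_).inter (measurableSet_le ?_ ?_) <;> fun_prop
  have hm : Measurable fun p : ℝ × ℝ × ℝ => ‖h' p.2.2‖ₑ := by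
    have : Continuous fun p : ℝ × ℝ × ℝ => h' p.2.2 := by fun_prop
    exact this.enorm.measurable
  have := hm.indicator hset
  exact this

theorem oneD {h h' : ℝ → F} (hd : ∀ t, HasDerivAt h (h' t) t) (hc : Continuous h')
    (a ℓ : ℝ) (hℓ : 0 ≤ ℓ) :
    ∫⁻ t in Icc a (a + ℓ), ∫⁻ s in Icc a (a + ℓ), ‖h t - h s‖ₑ ≤
      ENNReal.ofReal (ℓ ^ 2 / 2) * ∫⁻ t in Icc a (a + ℓ), ‖h' t‖ₑ := by
  have hker := measurable_ker hc
  have hnm : Measurable fun r => ‖h' r‖ₑ := hc.enorm.measurable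
  have step1 : ∀ t ∈ Icc a (a + ℓ), ∀ s ∈ Icc a (a + ℓ), ‖h t - h s‖ₑ ≤
      ∫⁻ r in Icc a (a + ℓ), (uIcc s t).indicator (fun r => ‖h' r‖ₑ) r := by
    intro t ht s hs
    refine (enorm_sub_le hd hc s t).trans ?_
    have hsub : uIcc s t ⊆ Icc a (a + ℓ) := by
      intro r hr
      rw [uIcc, mem_Icc] at hr
      exact ⟨(le_inf hs.1 ht.1).trans hr.1, hr.2.trans (sup_le hs.2 ht.2)⟩
    rw [lintegral_indicator measurableSet_uIcc, Measure.restrict_restrict measurableSet_uIcc,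
      inter_eq_left.2 hsub]
  calc ∫⁻ t in Icc a (a + ℓ), ∫⁻ s in Icc a (a + ℓ), ‖h t - h s‖ₑ
      ≤ ∫⁻ t in Icc a (a + ℓ), ∫⁻ s in Icc a (a + ℓ), ∫⁻ r in Icc a (a + ℓ),
          (uIcc s t).indicator (fun r => ‖h' r‖ₑ) r := by
        refine setLIntegral_mono' measurableSet_Icc fun t ht => ?_
        exact setLIntegral_mono' measurableSet_Icc fun s hs => step1 t ht s hs
    _ = ∫⁻ t in Icc a (a + ℓ), ∫⁻ r in Icc a (a + ℓ), ∫⁻ s in Icc a (a + ℓ),
          (uIcc s t).indicator (fun r => ‖h' r‖ₑ) r := by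
        refine lintegral_congr fun t => ?_
        refine lintegral_lintegral_swap ?_
        have : Measurable fun p : ℝ × ℝ => (t, p.1, p.2) := by fun_prop
        exact (hker.comp this).aemeasurable
    _ = ∫⁻ r in Icc a (a + ℓ), ∫⁻ t in Icc a (a + ℓ), ∫⁻ s in Icc a (a + ℓ),
          (uIcc s t).indicator (fun r => ‖h' r‖ₑ) r := by
        refine lintegral_lintegral_swap ?_
        have h1 : Measurable fun q : (ℝ × ℝ) × ℝ => (q.1.1, q.2, q.1.2) := by fun_prop
        have h2 := hker.comp h1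
        exact (h2.lintegral_prod_right' (ν := volume.restrict (Icc a (a + ℓ)))).aemeasurable
    _ = ∫⁻ r in Icc a (a + ℓ), ‖h' r‖ₑ * ∫⁻ t in Icc a (a + ℓ), ∫⁻ s in Icc a (a + ℓ),
          (uIcc s t).indicator (fun _ => (1 : ℝ≥0∞)) r := by
        refine lintegral_congr fun r => ?_
        rw [← lintegral_const_mul']
        · refine lintegral_congr fun t => ?_
          rw [← lintegral_const_mul']
          · refine lintegral_congr fun s => ?_
            by_cases hr : r ∈ uIcc s t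
            · rw [indicator_of_mem hr, indicator_of_mem hr, mul_one]
            · rw [indicator_of_notMem hr, indicator_of_notMem hr, mul_zero]
          · exact enorm_ne_top
        · exact enorm_ne_top
    _ ≤ ∫⁻ r in Icc a (a + ℓ), ‖h' r‖ₑ * ENNReal.ofReal (ℓ ^ 2 / 2) := by
        refine setLIntegral_mono' measurableSet_Icc fun r hr => ?_
        gcongr
        exact kernel_le a ℓ r hℓ hr
    _ = ENNReal.ofReal (ℓ ^ 2 / 2) * ∫⁻ t in Icc a (a + ℓ), ‖h' t‖ₑ := by
        rw [lintegral_mul_const _ hnm, mul_comm]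

end Pool.Agent.Lib.P28e
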