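import Pool.Agent.Lib.P28e.SliceB

set_option autoImplicit false

/-!
# Small energy gives `Good` at the base point, at all scales up to `1/4`
-/

open MeasureTheory Set Metric
open scoped ENNReal ContDiff

namespace Pool.Agent.Lib.P28e

open Pool.Agent.P28b04d

variable {n : ℕ} {Φ : W n → W n}

theorem vol_ball_W (n : ℕ) (z : W n) {s : ℝ} (hs : 0 ≤ s) : volume (closedBall z s) =
    ENNReal.ofReal (s ^ (n * 2 + 2)) * volume (closedBall (0 : W n) 1) := by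
  rw [Measure.addHaar_closedBall' _ _ hs]
  congr 3
  rw [Module.finrank_pi_fintype]
  simp [Complex.finrank_real_complex]
  ring

theorem vol_ball_C {s : ℝ} (hs : 0 ≤ s) : volume (closedBall (1 : ℂ) s) =
    ENNReal.ofReal (s ^ 2) * volume (closedBall (0 : ℂ) 1) := by
  rw [Measure.addHaar_closedBall' _ _ hs, Complex.finrank_real_complex]

theorem conj_lin {A : Type*} [NormedRing A] [NormedAlgebra ℝ A] {N M I : A} (h : N * M = 1)
    (a b : ℝ) : N * (a • (1 : A) + b • I) * M = (a • (1 : A) + b • I) + b • (N * I * M - I) := by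
  rw [mul_add, add_mul, mul_smul_comm, mul_smul_comm, smul_mul_assoc, smul_mul_assoc, mul_one, h,
    smul_sub]
  abel

/-- Pointwise comparison on the cone over the slice. -/
theorem cone_le (h : HLoc Φ) {M : (EndW n)ˣ} {κ s : ℝ} (hκ0 : 0 ≤ κ) (hκ : κ ≤ 1 / 4)
    (hs : 0 < s) (hs4 : s ≤ 1 / 4)
    (hM : ‖(↑M⁻¹ : EndW n) * II n * M - II n‖ ≤ κ / (2 * s)) {c : ℂ}
    (hc : c ∈ closedBall (1 : ℂ) s) (y : Fin (n * 2) → ℝ) :
    ‖(↑M⁻¹ : EndW n) * fderiv ℝ Φ (c • sl n y) - 1‖ ≤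
      2 * ‖(↑M⁻¹ : EndW n) * uu Φ y - 1‖ + κ := by
  have hcn : ‖c - 1‖ ≤ s := by simpa [dist_eq_norm] using hc
  have hc1 : 3 / 4 ≤ ‖c‖ := by
    have h2 : ‖(1 : ℂ)‖ ≤ ‖c‖ + ‖c - 1‖ := by
      calc ‖(1 : ℂ)‖ = ‖c - (c - 1)‖ := by rw [sub_sub_cancel]
        _ ≤ ‖c‖ + ‖c - 1‖ := norm_sub_le _ _
    rw [norm_one] at h2
    linarith
  have hcpos : 0 < ‖c‖ := by linarith
  have hc0 : c ≠ 0 := norm_pos_iff.1 hcpos
  have him : |c.im| ≤ s := by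
    have h1 : (c - 1).im = c.im := by simp
    rw [← h1]
    exact (Complex.abs_im_le_norm _).trans hcn
  set w : EndW n := (↑M⁻¹ : EndW n) * uu Φ y with hw
  set Δ : EndW n := (↑M⁻¹ : EndW n) * II n * M - II n with hΔ
  have hMM : (M : EndW n) * (↑M⁻¹ : EndW n) = 1 := Units.mul_inv M
  have hMM' : (↑M⁻¹ : EndW n) * (M : EndW n) = 1 := Units.inv_mul M
  have e1 : (↑M⁻¹ : EndW n) * mulC c * (M : EndW n) = mulC c + c.im • Δ := by
    rw [mulC_eq c, hΔ]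
    exact conj_lin hMM' c.re c.im
  have hcc : (mulC c : EndW n) * mulC c⁻¹ = 1 := by
    rw [mulC_mul, mul_inv_cancel₀ hc0, mulC_one]
  have e2 : (↑M⁻¹ : EndW n) * fderiv ℝ Φ (c • sl n y) - 1 =
      mulC c * (w - 1) * mulC c⁻¹ + (c.im • Δ) * w * mulC c⁻¹ := by
    have h3 : (↑M⁻¹ : EndW n) * fderiv ℝ Φ (c • sl n y) = (mulC c + c.im • Δ) * w * mulC c⁻¹ := by
      rw [fderiv_mulC h hc0 (sl_ne y), ← e1, hw]
      show (↑M⁻¹ : EndW n) * (mulC c * uu Φ y * mulC c⁻¹) = _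
      calc (↑M⁻¹ : EndW n) * (mulC c * uu Φ y * mulC c⁻¹)
          = (↑M⁻¹ : EndW n) * mulC c * 1 * uu Φ y * mulC c⁻¹ := by
            simp only [mul_assoc, mul_one, one_mul]
        _ = (↑M⁻¹ : EndW n) * mulC c * ((M : EndW n) * (↑M⁻¹ : EndW n)) * uu Φ y * mulC c⁻¹ := by
            rw [hMM]
        _ = _ := by simp only [mul_assoc]
    rw [h3]
    have h4 : (mulC c : EndW n) * (w - 1) * mulC c⁻¹ = mulC c * w * mulC c⁻¹ - 1 := by
      rw [mul_sub, sub_mul, mul_one, hcc]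
    rw [h4]
    noncomm_ring
  rw [e2]
  have hwn : ‖w‖ ≤ ‖w - 1‖ + 1 := by
    calc ‖w‖ = ‖(w - 1) + 1‖ := by rw [sub_add_cancel]
      _ ≤ ‖w - 1‖ + ‖(1 : EndW n)‖ := norm_add_le _ _
      _ = ‖w - 1‖ + 1 := by rw [norm_one]
  have hinv : ‖(mulC c⁻¹ : EndW n)‖ = ‖c‖⁻¹ := by rw [norm_mulC, norm_inv]
  have hA : ‖(mulC c : EndW n) * (w - 1) * mulC c⁻¹‖ ≤ ‖w - 1‖ := by
    calc ‖(mulC c : EndW n) * (w - 1) * mulC c⁻¹‖
        ≤ ‖(mulC c : EndW n)‖ * ‖w - 1‖ * ‖(mulC c⁻¹ : EndW n)‖ := by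
          refine (norm_mul_le _ _).trans ?_
          gcongr
          exact norm_mul_le _ _
      _ = ‖w - 1‖ := by
          rw [hinv, norm_mulC]
          field_simp
  have hB : ‖(c.im • Δ) * w * mulC c⁻¹‖ ≤ κ / 2 * (‖w - 1‖ + 1) * (4 / 3) := by
    calc ‖(c.im • Δ) * w * mulC c⁻¹‖
        ≤ ‖c.im • Δ‖ * ‖w‖ * ‖(mulC c⁻¹ : EndW n)‖ := by
          refine (norm_mul_le _ _).trans ?_
          gcongr
          exact norm_mul_le _ _
      _ ≤ (s * (κ / (2 * s))) * (‖w - 1‖ + 1) * (4 / 3) := by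
          rw [hinv, norm_smul, Real.norm_eq_abs]
          gcongr
          rw [inv_le_comm₀ hcpos (by norm_num)]
          linarith
      _ = κ / 2 * (‖w - 1‖ + 1) * (4 / 3) := by
          congr 2
          field_simp
  have h5 := norm_add_le (mulC c * (w - 1) * mulC c⁻¹) ((c.im • Δ) * w * mulC c⁻¹)
  have h6 : 0 ≤ ‖w - 1‖ := norm_nonneg _
  nlinarith

theorem good_e0 (n : ℕ) (hn : 1 ≤ n) : ∀ ε : ℝ, 0 < ε → ∃ δ : ℝ, 0 < δ ∧ ∀ Φ : W n → W n,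
    HLoc Φ → energy Φ ≤ ENNReal.ofReal δ → ∀ s : ℝ, 0 < s → s ≤ 1 / 4 →
      ∃ M : (EndW n)ˣ, Good Φ (e0 n) s ε M := by
  intro ε hε
  obtain ⟨C2, hC2, hcv⟩ := cv_upper n
  obtain ⟨C1, hC1, hen⟩ := slice_energy n
  have hd : 2 ≤ n * 2 := by omega
  have hd1 : (1 : ℝ) < ((n * 2 : ℕ) : ℝ) := by
    have : (2 : ℝ) ≤ ((n * 2 : ℕ) : ℝ) := by exact_mod_cast hd
    linarith
  set p : ℝ := Real.conjExponent ((n * 2 : ℕ) : ℝ) with hpdef
  have hp : Real.HolderConjugate ((n * 2 : ℕ) : ℝ) p := Real.HolderConjugate.conjExponent hd1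
  -- choice of `κ`
  set vW : ℝ≥0∞ := volume (closedBall (0 : W n) 1) with hvW
  set vC : ℝ≥0∞ := volume (closedBall (0 : ℂ) 1) with hvC
  have hvW0 : vW ≠ 0 := (measure_closedBall_pos volume (0 : W n) one_pos).ne'
  have hvCt : vC ≠ ⊤ := measure_closedBall_lt_top.ne
  have hKt : C2 * vC * ENNReal.ofReal (4 * 4 ^ (n * 2)) ≠ ⊤ :=
    ENNReal.mul_ne_top (ENNReal.mul_ne_top hC2 hvCt) ENNReal.ofReal_ne_top
  have hεW : ENNReal.ofReal ε * vW ≠ 0 := mul_ne_zero (by simpa using hε) hvW0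
  obtain ⟨κ', hκ'0, hκ'⟩ := exists_delta hKt hεW
  set κ : ℝ := min κ' (1 / 4) with hκdef
  have hκ0 : 0 < κ := by positivity
  have hκ4 : κ ≤ 1 / 4 := min_le_right _ _
  have hκle : C2 * vC * ENNReal.ofReal (4 * 4 ^ (n * 2)) * ENNReal.ofReal κ ≤
      ENNReal.ofReal ε * vW := by
    refine le_trans ?_ hκ'
    gcongr
    exact min_le_left _ _
  -- choice of `δ`
  set K : ℝ≥0∞ := ((n * 2 : ℕ) : ℝ≥0∞) / 2 + 1 with hK
  have hK1 : 1 ≤ K := by rw [hK]; exact le_add_self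
  have hKtop : K ≠ ⊤ := by
    rw [hK]
    exact ENNReal.add_ne_top.2 ⟨ENNReal.div_ne_top (ENNReal.natCast_ne_top _) (by norm_num),
      ENNReal.one_ne_top⟩
  have hK0 : K ≠ 0 := (lt_of_lt_of_le zero_lt_one hK1).ne'
  have ht : (ENNReal.ofReal κ / K) ^ ((n * 2 : ℕ) : ℝ) ≠ 0 := by
    have h1 : ENNReal.ofReal κ / K ≠ 0 := ENNReal.div_ne_zero.2 ⟨by simpa using hκ0, hKtop⟩
    rw [ENNReal.rpow_natCast]
    exact pow_ne_zero _ h1
  obtain ⟨δ, hδ0, hδ⟩ := exists_delta hC1 ht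
  refine ⟨δ, hδ0, fun Φ h hE s hs hs4 => ?_⟩
  have hE1 : K * (∫⁻ y, al Φ y ^ ((n * 2 : ℕ) : ℝ) ∂cs (n * 2) 1) ^ (1 / ((n * 2 : ℕ) : ℝ)) ≤
      ENNReal.ofReal κ := by
    have h1 : ∫⁻ y, al Φ y ^ ((n * 2 : ℕ) : ℝ) ∂cs (n * 2) 1 ≤
        (ENNReal.ofReal κ / K) ^ ((n * 2 : ℕ) : ℝ) := by
      refine (hen Φ h).trans (le_trans ?_ hδ)
      gcongr
    have h2 : (∫⁻ y, al Φ y ^ ((n * 2 : ℕ) : ℝ) ∂cs (n * 2) 1) ^ (1 / ((n * 2 : ℕ) : ℝ)) ≤
        ENNReal.ofReal κ / K := by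
      have := ENNReal.rpow_le_rpow h1 (by positivity : 0 ≤ 1 / ((n * 2 : ℕ) : ℝ))
      rwa [← ENNReal.rpow_mul, mul_one_div_cancel (by positivity), ENNReal.rpow_one] at this
    calc K * (∫⁻ y, al Φ y ^ ((n * 2 : ℕ) : ℝ) ∂cs (n * 2) 1) ^ (1 / ((n * 2 : ℕ) : ℝ))
        ≤ K * (ENNReal.ofReal κ / K) := by gcongr
      _ = ENNReal.ofReal κ := ENNReal.mul_div_cancel hK0 hKtop
  have h2s : 0 < 2 * s := by positivity
  have h2s1 : 2 * s ≤ 1 := by linarith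
  obtain ⟨M, hM, hW⟩ := gap hd hp (par_uu h) (isUnit_uu h) (measurable_al h) (UU_le h) hκ0.le hκ4
    hE1 h2s h2s1
  have hE2 : (∫⁻ y, al Φ y ^ ((n * 2 : ℕ) : ℝ) ∂cs (n * 2) (2 * s)) ^
      (1 / ((n * 2 : ℕ) : ℝ)) ≤ ENNReal.ofReal κ := by
    refine le_trans ?_ hE1
    calc (∫⁻ y, al Φ y ^ ((n * 2 : ℕ) : ℝ) ∂cs (n * 2) (2 * s)) ^ (1 / ((n * 2 : ℕ) : ℝ))
        ≤ (∫⁻ y, al Φ y ^ ((n * 2 : ℕ) : ℝ) ∂cs (n * 2) 1) ^ (1 / ((n * 2 : ℕ) : ℝ)) := by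
          gcongr
          exact cs_mono h2s1
      _ ≤ K * (∫⁻ y, al Φ y ^ ((n * 2 : ℕ) : ℝ) ∂cs (n * 2) 1) ^ (1 / ((n * 2 : ℕ) : ℝ)) :=
          le_mul_of_one_le_left zero_le hK1
  have hcomm := comm_le h hd hp h2s h2s1 hκ0.le hκ4 hE2 M hM hW
  refine ⟨M, ?_⟩
  unfold Good
  have hcw : Continuous fun y => (↑M⁻¹ : EndW n) * uu Φ y - 1 :=
    (continuous_const.mul (continuous_uu h)).sub continuous_const
  have hcwm : Measurable fun y => ‖(↑M⁻¹ : EndW n) * uu Φ y - 1‖ₑ := hcw.enorm.measurable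
  -- the `L¹` bound on the slice
  have hL1 : ∫⁻ y, ‖(↑M⁻¹ : EndW n) * uu Φ y - 1‖ₑ ∂cs (n * 2) (2 * s) ≤
      ENNReal.ofReal (4 / 3 * κ * (4 * s) ^ (n * 2)) := by
    have h1 := lintegral_le_Lp hd hp (fun _ : Fin (n * 2) => -(2 * s)) (2 * (2 * s)) hcwm
    refine h1.trans ?_
    calc ENNReal.ofReal (2 * (2 * s)) * (∫⁻ y, ‖(↑M⁻¹ : EndW n) * uu Φ y - 1‖ₑ ^ p
          ∂cm (fun _ : Fin (n * 2) => -(2 * s)) (2 * (2 * s))) ^ (1 / p)
        ≤ ENNReal.ofReal (2 * (2 * s)) *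
          ENNReal.ofReal (4 / 3 * κ * (2 * (2 * s)) ^ (n * 2 - 1)) := by
          gcongr
          exact hW
      _ = ENNReal.ofReal (4 / 3 * κ * (4 * s) ^ (n * 2)) := by
          rw [← ENNReal.ofReal_mul (by positivity)]
          congr 1
          have hd1 : n * 2 = (n * 2 - 1) + 1 := by omega
          have : (4 * s) ^ (n * 2) = (4 * s) ^ (n * 2 - 1) * (4 * s) := by
            conv_lhs => rw [hd1, pow_succ]
          rw [this, show 2 * (2 * s) = 4 * s by ring]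
          ring
  have hinner : ∀ c ∈ closedBall (1 : ℂ) s,
      ∫⁻ y in Icc (fun _ : Fin (n * 2) => -(2 * s)) (fun _ => 2 * s),
        ‖(↑M⁻¹ : EndW n) * fderiv ℝ Φ (c • sl n y) - 1‖ₑ ≤
      ENNReal.ofReal (4 * κ * (4 * s) ^ (n * 2)) := by
    intro c hc
    have h1 : ∫⁻ y in Icc (fun _ : Fin (n * 2) => -(2 * s)) (fun _ => 2 * s),
        ‖(↑M⁻¹ : EndW n) * fderiv ℝ Φ (c • sl n y) - 1‖ₑ ≤
        ∫⁻ y, (2 * ‖(↑M⁻¹ : EndW n) * uu Φ y - 1‖ₑ + ENNReal.ofReal κ) ∂cs (n * 2) (2 * s) := by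
      rw [cs_eq]
      refine lintegral_mono fun y => ?_
      have h2 := cone_le h hκ0.le hκ4 hs hs4 hcomm hc y
      rw [← ofReal_norm, ← ofReal_norm]
      calc ENNReal.ofReal ‖(↑M⁻¹ : EndW n) * fderiv ℝ Φ (c • sl n y) - 1‖
          ≤ ENNReal.ofReal (2 * ‖(↑M⁻¹ : EndW n) * uu Φ y - 1‖ + κ) :=
            ENNReal.ofReal_le_ofReal h2
        _ = 2 * ENNReal.ofReal ‖(↑M⁻¹ : EndW n) * uu Φ y - 1‖ + ENNReal.ofReal κ := by
            rw [ENNReal.ofReal_add (by positivity) hκ0.le, ENNReal.ofReal_mul (by norm_num)]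
            simp
    refine h1.trans ?_
    rw [lintegral_add_right _ measurable_const, lintegral_const_mul _ hcwm, lintegral_const]
    have h3 : cs (n * 2) (2 * s) univ = ENNReal.ofReal ((4 * s) ^ (n * 2)) := by
      rw [cs, cm_univ, ← ENNReal.ofReal_pow (by positivity)]
      congr 2
      ring
    rw [h3]
    calc 2 * ∫⁻ y, ‖(↑M⁻¹ : EndW n) * uu Φ y - 1‖ₑ ∂cs (n * 2) (2 * s) +
          ENNReal.ofReal κ * ENNReal.ofReal ((4 * s) ^ (n * 2))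
        ≤ 2 * ENNReal.ofReal (4 / 3 * κ * (4 * s) ^ (n * 2)) +
          ENNReal.ofReal κ * ENNReal.ofReal ((4 * s) ^ (n * 2)) := by gcongr
      _ = ENNReal.ofReal (2 * (4 / 3 * κ * (4 * s) ^ (n * 2)) + κ * (4 * s) ^ (n * 2)) := by
          rw [ENNReal.ofReal_add (by positivity) (by positivity),
            ENNReal.ofReal_mul (by norm_num : (0 : ℝ) ≤ 2), ENNReal.ofReal_mul hκ0.le]
          simp
      _ ≤ ENNReal.ofReal (4 * κ * (4 * s) ^ (n * 2)) := by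
          apply ENNReal.ofReal_le_ofReal
          have : 0 < κ * (4 * s) ^ (n * 2) := by positivity
          nlinarith
  calc ∫⁻ x in closedBall (e0 n) s, ‖(↑M⁻¹ : EndW n) * fderiv ℝ Φ x - 1‖ₑ
      ≤ C2 * ∫⁻ c in closedBall (1 : ℂ) s,
          ∫⁻ y in Icc (fun _ : Fin (n * 2) => -(2 * s)) (fun _ => 2 * s),
            ‖(↑M⁻¹ : EndW n) * fderiv ℝ Φ (c • sl n y) - 1‖ₑ :=
        hcv _ (measurable_fderiv_sub h _) s hs hs4
    _ ≤ C2 * ∫⁻ _c in closedBall (1 : ℂ) s, ENNReal.ofReal (4 * κ * (4 * s) ^ (n * 2)) := by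
        gcongr C2 * ?_
        exact setLIntegral_mono' measurableSet_closedBall hinner
    _ = C2 * (ENNReal.ofReal (4 * κ * (4 * s) ^ (n * 2)) * (ENNReal.ofReal (s ^ 2) * vC)) := by
        rw [lintegral_const, Measure.restrict_apply MeasurableSet.univ, univ_inter,
          vol_ball_C hs.le]
    _ = (C2 * vC * ENNReal.ofReal (4 * 4 ^ (n * 2)) * ENNReal.ofReal κ) *
          ENNReal.ofReal (s ^ (n * 2 + 2)) := by
        have e : ENNReal.ofReal (4 * κ * (4 * s) ^ (n * 2)) * ENNReal.ofReal (s ^ 2) =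
            ENNReal.ofReal (4 * 4 ^ (n * 2)) * ENNReal.ofReal κ *
              ENNReal.ofReal (s ^ (n * 2 + 2)) := by
          rw [← ENNReal.ofReal_mul (by positivity), ← ENNReal.ofReal_mul (by positivity),
            ← ENNReal.ofReal_mul (by positivity)]
          congr 1
          rw [mul_pow, pow_add]
          ring
        calc C2 * (ENNReal.ofReal (4 * κ * (4 * s) ^ (n * 2)) * (ENNReal.ofReal (s ^ 2) * vC))
            = C2 * vC * (ENNReal.ofReal (4 * κ * (4 * s) ^ (n * 2)) * ENNReal.ofReal (s ^ 2)) := by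
              ring
          _ = _ := by rw [e]; ring
    _ ≤ (ENNReal.ofReal ε * vW) * ENNReal.ofReal (s ^ (n * 2 + 2)) := by gcongr
    _ = ENNReal.ofReal ε * volume (closedBall (e0 n) s) := by
        rw [vol_ball_W n _ hs.le]
        ring

end Pool.Agent.Lib.P28e
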