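import Pool.Agent.Lib.P28e.Homog
import Pool.Agent.Lib.P28e.CV
import Pool.Agent.Lib.P28e.Gap2

set_option autoImplicit false

/-!
# The slice through the base point: the function `y ↦ dΦ (1, y)`
-/

open MeasureTheory Set Metric
open scoped ENNReal ContDiff

namespace Pool.Agent.Lib.P28e

open Pool.Agent.P28b04d

variable {n : ℕ} {Φ : W n → W n}

instance : NormOneClass (EndW n) := inferInstance

theorem exists_delta {C t : ℝ≥0∞} (hC : C ≠ ⊤) (ht : t ≠ 0) :
    ∃ δ : ℝ, 0 < δ ∧ C * ENNReal.ofReal δ ≤ t := by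
  set t' : ℝ≥0∞ := min t 1 with ht'
  have h1 : t' ≠ 0 := by
    rw [ht']; simp [ht]
  have h2 : t' ≠ ⊤ := ne_top_of_le_ne_top ENNReal.one_ne_top (min_le_right _ _)
  have hC1 : C + 1 ≠ ⊤ := ENNReal.add_ne_top.2 ⟨hC, ENNReal.one_ne_top⟩
  have hC0 : C + 1 ≠ 0 := by simp
  have h3 : t' / (C + 1) ≠ ⊤ := ENNReal.div_ne_top h2 hC0
  have h4 : t' / (C + 1) ≠ 0 := ENNReal.div_ne_zero.2 ⟨h1, hC1⟩
  refine ⟨(t' / (C + 1)).toReal, ENNReal.toReal_pos h4 h3, ?_⟩
  rw [ENNReal.ofReal_toReal h3]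
  calc C * (t' / (C + 1)) ≤ (C + 1) * (t' / (C + 1)) := by
        gcongr
        exact le_self_add
    _ = t' := ENNReal.mul_div_cancel hC0 hC1
    _ ≤ t := min_le_left _ _

/-- The linear part of the slice. -/
noncomputable def Lv (n : ℕ) : (Fin (n * 2) → ℝ) →L[ℝ] W n :=
  (T n : (ℂ × (Fin (n * 2) → ℝ)) →L[ℝ] W n).comp (ContinuousLinearMap.inr ℝ ℂ _)

theorem Lv_apply (y : Fin (n * 2) → ℝ) : Lv n y = Fin.cons 0 (kap n y) := rfl

theorem sl_eq (y : Fin (n * 2) → ℝ) : sl n y = e0 n + Lv n y := by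
  rw [Lv_apply, sl, e0]
  ext i
  refine Fin.cases ?_ (fun j => ?_) i
  · simp
  · simp

theorem norm_Lv_le (y : Fin (n * 2) → ℝ) : ‖Lv n y‖ ≤ 2 * ‖y‖ := by
  rw [Lv_apply, pi_norm_le_iff_of_nonneg (by positivity)]
  intro i
  refine Fin.cases ?_ (fun j => ?_) i
  · simp
  · simp only [Fin.cons_succ]
    exact (norm_le_pi_norm _ j).trans (norm_kap_le n y)

theorem continuous_sl : Continuous (sl n) := by
  have : sl n = fun y => e0 n + Lv n y := funext sl_eq
  rw [this]
  exact continuous_const.add (Lv n).continuous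

theorem sl_ne (y : Fin (n * 2) → ℝ) : sl n y ≠ 0 := by
  intro h
  have := congrFun h 0
  simp [sl] at this

/-- The derivative on the slice. -/
noncomputable def uu (Φ : W n → W n) (y : Fin (n * 2) → ℝ) : EndW n := fderiv ℝ Φ (sl n y)

/-- Its partial derivatives. -/
noncomputable def UU (Φ : W n → W n) (i : Fin (n * 2)) (y : Fin (n * 2) → ℝ) : EndW n :=
  fderiv ℝ (fderiv ℝ Φ) (sl n y) (Lv n (Pi.single i 1))

theorem contDiffOn_fderiv (h : HLoc Φ) : ContDiffOn ℝ ∞ (fderiv ℝ Φ) {0}ᶜ :=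
  h.smooth.fderiv_of_isOpen isOpen_compl_singleton (by simp)

theorem continuousOn_fderiv2 (h : HLoc Φ) : ContinuousOn (fderiv ℝ (fderiv ℝ Φ)) {0}ᶜ :=
  (contDiffOn_fderiv h).continuousOn_fderiv_of_isOpen isOpen_compl_singleton (by simp)

theorem par_uu (h : HLoc Φ) : Par (uu Φ) (UU Φ) where
  cont := by
    unfold uu
    exact (continuousOn_fderiv h).comp_continuous continuous_sl fun y => sl_ne y
  contG i := by
    unfold UU
    have h1 : Continuous fun y => fderiv ℝ (fderiv ℝ Φ) (sl n y) :=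
      (continuousOn_fderiv2 h).comp_continuous continuous_sl fun y => sl_ne y
    exact h1.clm_apply continuous_const
  deriv i y := by
    unfold uu UU
    have hdiff : DifferentiableAt ℝ (fderiv ℝ Φ) (sl n y) :=
      ((contDiffOn_fderiv h).contDiffAt (isOpen_compl_singleton.mem_nhds (sl_ne y))).differentiableAt
        (by simp)
    have hup : HasDerivAt (fun t : ℝ => sl n (Function.update y i t)) (Lv n (Pi.single i 1))
        (y i) := by
      have h1 : HasDerivAt (fun t : ℝ => Function.update y i t) (Pi.single i (1 : ℝ)) (y i) :=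
        hasDerivAt_update y i (y i)
      have h2 := (Lv n).hasFDerivAt.comp_hasDerivAt (y i) h1
      have h3 := h2.const_add (e0 n)
      refine h3.congr_of_eventuallyEq (Filter.Eventually.of_forall fun t => ?_)
      simp [sl_eq]
    have hyy : sl n (Function.update y i (y i)) = sl n y := by rw [Function.update_eq_self]
    rw [← hyy] at hdiff
    have h3 := hdiff.hasFDerivAt.comp_hasDerivAt (y i) hup
    rw [hyy] at h3
    exact h3

/-- The weight. -/
noncomputable def al (Φ : W n → W n) (y : Fin (n * 2) → ℝ) : ℝ≥0∞ := 2 * ‖conn Φ (sl n y)‖ₑ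

theorem measurable_al (h : HLoc Φ) : Measurable (al Φ) :=
  ((measurable_conn h).comp continuous_sl.measurable).const_mul 2

theorem isUnit_uu (h : HLoc Φ) (y : Fin (n * 2) → ℝ) : IsUnit (uu Φ y) :=
  isUnit_fderiv h (sl_ne y)

theorem UU_le (h : HLoc Φ) (i : Fin (n * 2)) (y : Fin (n * 2) → ℝ) :
    ‖Ring.inverse (uu Φ y) * UU Φ i y‖ₑ ≤ al Φ y := by
  have h1 : Ring.inverse (uu Φ y) * UU Φ i y = conn Φ (sl n y) (Lv n (Pi.single i 1)) := by
    rw [conn_apply]; rfl
  rw [h1, al]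
  have h2 : ‖conn Φ (sl n y) (Lv n (Pi.single i 1))‖ ≤ 2 * ‖conn Φ (sl n y)‖ := by
    refine ((conn Φ (sl n y)).le_opNorm _).trans ?_
    have h3 : ‖Lv n (Pi.single i (1 : ℝ))‖ ≤ 2 := by
      refine (norm_Lv_le _).trans ?_
      have : ‖(Pi.single i (1 : ℝ) : Fin (n * 2) → ℝ)‖ ≤ 1 := by
        rw [pi_norm_le_iff_of_nonneg zero_le_one]
        intro j
        by_cases hj : j = i
        · subst hj; simp
        · simp [hj]
      linarith
    nlinarith [norm_nonneg (conn Φ (sl n y))]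
  rw [← ofReal_norm, ← ofReal_norm]
  calc ENNReal.ofReal ‖conn Φ (sl n y) (Lv n (Pi.single i 1))‖
      ≤ ENNReal.ofReal (2 * ‖conn Φ (sl n y)‖) := ENNReal.ofReal_le_ofReal h2
    _ = 2 * ENNReal.ofReal ‖conn Φ (sl n y)‖ := by
        rw [ENNReal.ofReal_mul (by norm_num)]; simp

theorem volume_Ann : volume Ann ≠ 0 := by
  have hsub : ball (7 / 24 : ℂ) (1 / 24) ⊆ Ann := by
    intro c hc
    rw [mem_ball, dist_eq_norm] at hc
    have h7 : ‖(7 / 24 : ℂ)‖ = 7 / 24 := by
      have : (7 / 24 : ℂ) = ((7 / 24 : ℝ) : ℂ) := by push_cast; rfl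
      rw [this, Complex.norm_real]
      norm_num
    constructor
    · have h1 : ‖(7 / 24 : ℂ)‖ ≤ ‖c‖ + ‖c - 7 / 24‖ := by
        calc ‖(7 / 24 : ℂ)‖ = ‖c - (c - 7 / 24)‖ := by rw [sub_sub_cancel]
          _ ≤ _ := norm_sub_le _ _
      rw [h7] at h1
      linarith
    · have h1 : ‖c‖ ≤ ‖c - 7 / 24‖ + ‖(7 / 24 : ℂ)‖ := by
        calc ‖c‖ = ‖(c - 7 / 24) + 7 / 24‖ := by rw [sub_add_cancel]
          _ ≤ _ := norm_add_le _ _
      rw [h7] at h1
      linarith
  intro h0
  have := measure_mono_null hsub h0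
  exact (measure_ball_pos volume (7 / 24 : ℂ) (by norm_num : (0 : ℝ) < 1 / 24)).ne' this

/-- The energy on the slice is controlled by the energy. -/
theorem slice_energy (n : ℕ) : ∃ C : ℝ≥0∞, C ≠ ⊤ ∧ ∀ Φ : W n → W n, HLoc Φ →
    ∫⁻ y, al Φ y ^ ((n * 2 : ℕ) : ℝ) ∂cs (n * 2) 1 ≤ C * energy Φ := by
  obtain ⟨C, hC, hcv⟩ := cv_lower n
  refine ⟨2 ^ (n * 2) * ((volume Ann)⁻¹ * C), ?_, fun Φ h => ?_⟩
  · refine ENNReal.mul_ne_top (by simp) (ENNReal.mul_ne_top ?_ hC)
    exact ENNReal.inv_ne_top.2 volume_Ann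
  · have hAnn : MeasurableSet Ann := by
      have : Ann = {c : ℂ | 1 / 4 ≤ ‖c‖} ∩ {c : ℂ | ‖c‖ ≤ 1 / 3} := rfl
      rw [this]
      exact ((isClosed_le continuous_const continuous_norm).inter
        (isClosed_le continuous_norm continuous_const)).measurableSet
    have hAnnt : volume Ann ≠ ⊤ := by
      have hsub : Ann ⊆ closedBall 0 1 := by
        intro c hc
        rw [mem_closedBall_zero_iff]
        exact hc.2.trans (by norm_num)
      exact ne_top_of_le_ne_top measure_closedBall_lt_top.ne (measure_mono hsub)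
    set G : W n → ℝ≥0∞ := fun x => ‖conn Φ x‖ₑ ^ (2 * n) with hG
    have hGm : Measurable G := (measurable_conn h).pow_const _
    set E1 : ℝ≥0∞ := ∫⁻ y in Icc (fun _ : Fin (n * 2) => (-1 : ℝ)) (fun _ => 1),
      ‖conn Φ (sl n y)‖ₑ ^ (2 * n) with hE1
    have h1 : volume Ann * E1 ≤ C * energy Φ := by
      calc volume Ann * E1 = ∫⁻ c in Ann, E1 := by
            rw [lintegral_const, Measure.restrict_apply MeasurableSet.univ, univ_inter, mul_comm]
        _ ≤ ∫⁻ c in Ann, ∫⁻ y in Icc (fun _ : Fin (n * 2) => (-1 : ℝ)) (fun _ => 1),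
              G (c • sl n y) := by
            refine setLIntegral_mono' hAnn fun c hc => lintegral_mono fun y => ?_
            have hc0 : c ≠ 0 := by
              intro h0
              have := hc.1
              rw [h0, norm_zero] at this
              norm_num at this
            have h2 : ‖conn Φ (sl n y)‖ ≤ ‖conn Φ (c • sl n y)‖ := by
              rw [conn_smul h hc0 (sl_ne y)]
              have h3 : 1 ≤ ‖c‖⁻¹ := by
                rw [one_le_inv₀ (norm_pos_iff.2 hc0)]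
                exact hc.2.trans (by norm_num)
              nlinarith [norm_nonneg (conn Φ (sl n y))]
            show ‖conn Φ (sl n y)‖ₑ ^ (2 * n) ≤ ‖conn Φ (c • sl n y)‖ₑ ^ (2 * n)
            gcongr
            rw [← ofReal_norm, ← ofReal_norm]
            exact ENNReal.ofReal_le_ofReal h2
        _ ≤ C * ∫⁻ x in ball (0 : W n) 1, G x := hcv G hGm
        _ = C * energy Φ := rfl
    have h2 : E1 ≤ (volume Ann)⁻¹ * (C * energy Φ) := by
      rw [← ENNReal.div_eq_inv_mul, ENNReal.le_div_iff_mul_le (Or.inl volume_Ann) (Or.inl hAnnt),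
        mul_comm]
      exact h1
    have h3 : ∫⁻ y, al Φ y ^ ((n * 2 : ℕ) : ℝ) ∂cs (n * 2) 1 = 2 ^ (n * 2) * E1 := by
      rw [cs_eq, hE1, ← lintegral_const_mul']
      · refine lintegral_congr fun y => ?_
        rw [ENNReal.rpow_natCast, al, mul_pow, mul_comm 2 n]
      · simp
    rw [h3]
    calc 2 ^ (n * 2) * E1 ≤ 2 ^ (n * 2) * ((volume Ann)⁻¹ * (C * energy Φ)) := by gcongr
      _ = 2 ^ (n * 2) * ((volume Ann)⁻¹ * C) * energy Φ := by ring

end Pool.Agent.Lib.P28e
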