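import Pool.Agent.Lib.P28e.SliceA

set_option autoImplicit false

/-!
# The mean matrix of the slice nearly commutes with the complex structure
-/

open MeasureTheory Set Metric
open scoped ENNReal ContDiff

namespace Pool.Agent.Lib.P28e

open Pool.Agent.P28b04d

variable {n : ℕ} {Φ : W n → W n}

/-- Multiplication by `i`. -/
noncomputable abbrev II (n : ℕ) : EndW n := mulC Complex.I

theorem mulC_eq (c : ℂ) : (mulC c : EndW n) = c.re • (1 : EndW n) + c.im • II n := by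
  ext v i
  simp only [mulC_apply, add_apply, smul_apply, Pi.smul_apply, one_apply_eq_self,
    Pi.add_apply, smul_eq_mul, Complex.real_smul]
  conv_lhs => rw [← Complex.re_add_im c]
  ring

/-- The commutator term. -/
noncomputable def aa (Φ : W n → W n) (y : Fin (n * 2) → ℝ) : EndW n :=
  conn Φ (sl n y) (Complex.I • sl n y)

theorem uu_aa (h : HLoc Φ) (y : Fin (n * 2) → ℝ) :
    uu Φ y * aa Φ y = II n * uu Φ y - uu Φ y * II n := by
  rw [aa, conn_apply, ← mul_assoc, uu, Ring.mul_inverse_cancel _ (isUnit_fderiv h (sl_ne y)),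
    one_mul, conn_I h (sl_ne y)]

theorem continuous_uu (h : HLoc Φ) : Continuous (uu Φ) := (par_uu h).cont

theorem aa_le {y : Fin (n * 2) → ℝ} (hy : ‖y‖ ≤ 1) : ‖aa Φ y‖ₑ ≤ al Φ y := by
  have h1 : ‖aa Φ y‖ ≤ 2 * ‖conn Φ (sl n y)‖ := by
    refine ((conn Φ (sl n y)).le_opNorm _).trans ?_
    have h2 : ‖Complex.I • sl n y‖ ≤ 2 := by
      rw [norm_smul, Complex.norm_I, one_mul]
      exact norm_sl_le n hy
    nlinarith [norm_nonneg (conn Φ (sl n y))]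
  rw [← ofReal_norm, al, ← ofReal_norm]
  calc ENNReal.ofReal ‖aa Φ y‖ ≤ ENNReal.ofReal (2 * ‖conn Φ (sl n y)‖) :=
        ENNReal.ofReal_le_ofReal h1
    _ = 2 * ENNReal.ofReal ‖conn Φ (sl n y)‖ := by
        rw [ENNReal.ofReal_mul (by norm_num)]; simp

/-- The weighted `L¹` bound on a cube. -/
theorem phase {d : ℕ} (hd : 2 ≤ d) {p : ℝ} (hp : Real.HolderConjugate d p)
    {A : Type*} [NormedRing A] [NormedAlgebra ℝ A] [CompleteSpace A] [NormOneClass A]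
    {w b : (Fin d → ℝ) → A} (hw : Continuous w) {α : (Fin d → ℝ) → ℝ≥0∞} (hα : Measurable α)
    {s κ : ℝ} (hs : 0 < s) (hκ0 : 0 ≤ κ) (hκ : κ ≤ 1 / 4)
    (hb : ∀ y, ‖y‖ ≤ s → ‖b y‖ₑ ≤ α y)
    (hE : (∫⁻ y, α y ^ (d : ℝ) ∂cs d s) ^ (1 / (d : ℝ)) ≤ ENNReal.ofReal κ)
    (hW : (∫⁻ y, ‖w y - 1‖ₑ ^ p ∂cs d s) ^ (1 / p) ≤
        ENNReal.ofReal (4 / 3 * κ * (2 * s) ^ (d - 1))) :
    ‖ms s (fun y => w y * b y)‖ ≤ κ / s := by
  have hp0 : 0 < p := hp.symm.pos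
  have hp1 : 1 ≤ p := hp.symm.lt.le
  have hℓ : (0 : ℝ) < 2 * s := by positivity
  have hY : (∫⁻ y, ‖w y‖ₑ ^ p ∂cs d s) ^ (1 / p) ≤ ENNReal.ofReal (2 * (2 * s) ^ (d - 1)) := by
    have h1 := ENNReal.lintegral_Lp_add_le (μ := cs d s) (f := fun y => ‖w y - 1‖ₑ)
      (g := fun _ => ‖(1 : A)‖ₑ) ((hw.sub continuous_const).enorm.measurable.aemeasurable)
      measurable_const.aemeasurable hp1
    have h2 : (∫⁻ y, ‖w y‖ₑ ^ p ∂cs d s) ^ (1 / p) ≤
        (∫⁻ y, ((fun y => ‖w y - 1‖ₑ) + (fun _ => ‖(1 : A)‖ₑ) : (Fin d → ℝ) → ℝ≥0∞) y ^ p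
          ∂cs d s) ^ (1 / p) := by
      refine ENNReal.rpow_le_rpow (lintegral_mono fun y => ?_) (by positivity)
      refine ENNReal.rpow_le_rpow ?_ hp0.le
      calc ‖w y‖ₑ = ‖(w y - 1) + 1‖ₑ := by rw [sub_add_cancel]
        _ ≤ _ := enorm_add_le _ _
    have h3 : (∫⁻ _ : Fin d → ℝ, ‖(1 : A)‖ₑ ^ p ∂cs d s) ^ (1 / p) =
        ENNReal.ofReal ((2 * s) ^ (d - 1)) := by
      have hone : ‖(1 : A)‖ₑ = 1 := by rw [← ofReal_norm, norm_one, ENNReal.ofReal_one]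
      rw [lintegral_const, hone, ENNReal.one_rpow, one_mul, cs, cm_univ, rpow_vol hd hp hℓ]
    refine (h2.trans h1).trans ?_
    rw [h3]
    calc (∫⁻ y, ‖w y - 1‖ₑ ^ p ∂cs d s) ^ (1 / p) + ENNReal.ofReal ((2 * s) ^ (d - 1))
        ≤ ENNReal.ofReal (4 / 3 * κ * (2 * s) ^ (d - 1)) + ENNReal.ofReal ((2 * s) ^ (d - 1)) := by
          gcongr
      _ = ENNReal.ofReal (4 / 3 * κ * (2 * s) ^ (d - 1) + (2 * s) ^ (d - 1)) :=
          (ENNReal.ofReal_add (by positivity) (by positivity)).symm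
      _ ≤ _ := by
          apply ENNReal.ofReal_le_ofReal
          have : 0 < (2 * s) ^ (d - 1) := by positivity
          nlinarith
  have hae : ∀ᵐ y ∂cs d s, ‖w y * b y‖ₑ ≤ ‖w y‖ₑ * α y := by
    rw [cs_eq]
    filter_upwards [ae_restrict_mem measurableSet_Icc] with y hy
    have hy' : ‖y‖ ≤ s := (mem_Icc_iff_norm _ hs.le y).1 hy
    exact (enorm_mul_le2 _ _).trans (by gcongr; exact hb y hy')
  have hint : ∫⁻ y, ‖w y * b y‖ₑ ∂cs d s ≤
      ENNReal.ofReal κ * ENNReal.ofReal (2 * (2 * s) ^ (d - 1)) := by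
    refine (lintegral_mono_ae hae).trans ?_
    have h1 := ENNReal.lintegral_mul_le_Lp_mul_Lq (cs d s) hp (f := α) (g := fun y => ‖w y‖ₑ)
      hα.aemeasurable hw.enorm.measurable.aemeasurable
    have h2 : ∫⁻ y, ‖w y‖ₑ * α y ∂cs d s = ∫⁻ y, (α * fun y => ‖w y‖ₑ) y ∂cs d s := by
      refine lintegral_congr fun y => ?_
      simp [mul_comm]
    rw [h2]
    refine h1.trans ?_
    gcongr
  have hnorm : ‖ms s (fun y => w y * b y)‖ₑ ≤ ENNReal.ofReal (κ / s) := by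
    unfold ms mn
    rw [enorm_smul]
    have e : ‖((2 * s) ^ d)⁻¹‖ₑ = ENNReal.ofReal (((2 * s) ^ d)⁻¹) :=
      Real.enorm_of_nonneg (by positivity)
    rw [e]
    calc ENNReal.ofReal (((2 * s) ^ d)⁻¹) *
          ‖∫ y, w y * b y ∂cm (fun _ : Fin d => -s) (2 * s)‖ₑ
        ≤ ENNReal.ofReal (((2 * s) ^ d)⁻¹) *
          (ENNReal.ofReal κ * ENNReal.ofReal (2 * (2 * s) ^ (d - 1))) := by
          gcongr
          exact (enorm_integral_le_lintegral_enorm _).trans hint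
      _ = ENNReal.ofReal (κ / s) := by
          rw [← ENNReal.ofReal_mul hκ0, ← ENNReal.ofReal_mul (by positivity)]
          congr 1
          have hd1 : d = (d - 1) + 1 := by omega
          have : (2 * s) ^ d = (2 * s) ^ (d - 1) * (2 * s) := by
            conv_lhs => rw [hd1, pow_succ]
          rw [this]
          field_simp
  rw [← ofReal_norm] at hnorm
  exact (ENNReal.ofReal_le_ofReal_iff (by positivity)).1 hnorm

theorem mn_mul_const {d : ℕ} {A : Type*} [NormedRing A] [NormedAlgebra ℝ A] [CompleteSpace A]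
    (a : Fin d → ℝ) (ℓ : ℝ) {u : (Fin d → ℝ) → A} (hu : Continuous u)
    (N : A) : mn a ℓ (fun y => u y * N) = mn a ℓ u * N := by
  unfold mn
  rw [integral_mul_const_of_integrable (integrable_cm a ℓ hu), smul_mul_assoc]

theorem ms_comm {d : ℕ} {A : Type*} [NormedRing A] [NormedAlgebra ℝ A] [CompleteSpace A]
    [NormOneClass A]
    {u b : (Fin d → ℝ) → A} {I : A} {s : ℝ} {M : Aˣ} (hM : (M : A) = ms s u) (hu : Continuous u)
    (hab : ∀ y, u y * b y = I * u y - u y * I) :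
    ms s (fun y => (↑M⁻¹ : A) * u y * b y) = (↑M⁻¹ : A) * I * M - I := by
  have h1 : (fun y => (↑M⁻¹ : A) * u y * b y) =
      fun y => (↑M⁻¹ : A) * I * u y - (↑M⁻¹ : A) * u y * I := by
    funext y
    rw [mul_assoc, hab y, mul_sub]
    simp only [mul_assoc]
  have hcw : Continuous fun y => (↑M⁻¹ : A) * u y := continuous_const.mul hu
  have hi1 : Integrable (fun y => (↑M⁻¹ : A) * I * u y)
      (cm (fun _ : Fin d => -s) (2 * s)) := integrable_cm _ _ (continuous_const.mul hu)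
  have hi2 : Integrable (fun y => (↑M⁻¹ : A) * u y * I)
      (cm (fun _ : Fin d => -s) (2 * s)) := integrable_cm _ _ (hcw.mul continuous_const)
  have h2 : mn (fun _ : Fin d => -s) (2 * s) (fun y => (↑M⁻¹ : A) * I * u y -
      (↑M⁻¹ : A) * u y * I) = mn (fun _ : Fin d => -s) (2 * s) (fun y => (↑M⁻¹ : A) * I * u y) -
      mn (fun _ : Fin d => -s) (2 * s) (fun y => (↑M⁻¹ : A) * u y * I) := by
    unfold mn
    rw [integral_sub hi1 hi2, smul_sub]
  have h3 : mn (fun _ : Fin d => -s) (2 * s) u = M := hM.symm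
  rw [h1]
  show mn (fun _ : Fin d => -s) (2 * s) _ = _
  rw [h2, mn_const_mul _ _ hu, mn_mul_const _ _ hcw, mn_const_mul _ _ hu, h3, Units.inv_mul,
    one_mul]

/-- The mean nearly commutes with `i`. -/
theorem comm_le (h : HLoc Φ) (hd : 2 ≤ n * 2) {p : ℝ}
    (hp : Real.HolderConjugate ((n * 2 : ℕ) : ℝ) p) {s κ : ℝ} (hs : 0 < s) (hs1 : s ≤ 1)
    (hκ0 : 0 ≤ κ) (hκ : κ ≤ 1 / 4)
    (hE : (∫⁻ y, al Φ y ^ ((n * 2 : ℕ) : ℝ) ∂cs (n * 2) s) ^ (1 / ((n * 2 : ℕ) : ℝ)) ≤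
      ENNReal.ofReal κ) (M : (EndW n)ˣ) (hM : (M : EndW n) = ms s (uu Φ))
    (hW : (∫⁻ y, ‖(↑M⁻¹ : EndW n) * uu Φ y - 1‖ₑ ^ p ∂cs (n * 2) s) ^ (1 / p) ≤
        ENNReal.ofReal (4 / 3 * κ * (2 * s) ^ (n * 2 - 1))) :
    ‖(↑M⁻¹ : EndW n) * II n * M - II n‖ ≤ κ / s := by
  have hcw : Continuous fun y => (↑M⁻¹ : EndW n) * uu Φ y :=
    continuous_const.mul (continuous_uu h)
  rw [← ms_comm hM (continuous_uu h) (uu_aa h)]
  exact phase hd hp hcw (measurable_al h) hs hκ0 hκ (fun y hy => aa_le (hy.trans hs1)) hE hW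

end Pool.Agent.Lib.P28e
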