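import Pool.Agent.Lib.P28e.Poin

set_option autoImplicit false

/-!
# Poincaré and Sobolev inequalities on cubes of `ℝ^d`
-/

open MeasureTheory Set
open scoped ENNReal

namespace Pool.Agent.Lib.P28e

variable {F : Type*} [NormedAddCommGroup F] [NormedSpace ℝ F] [CompleteSpace F]

instance {d : ℕ} (a : Fin d → ℝ) (ℓ : ℝ) : IsFiniteMeasure (cm a ℓ) := by
  unfold cm; infer_instance

theorem cm_univ {d : ℕ} (a : Fin d → ℝ) (ℓ : ℝ) : cm a ℓ univ = ENNReal.ofReal ℓ ^ d := by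
  unfold cm
  rw [Measure.pi_univ]
  simp

theorem cm_eq {d : ℕ} (a : Fin d → ℝ) (ℓ : ℝ) :
    cm a ℓ = (volume : Measure (Fin d → ℝ)).restrict (Icc a (fun i => a i + ℓ)) := by
  unfold cm
  rw [← Measure.restrict_pi_pi, pi_univ_Icc]
  rfl

theorem lintegral_cm_succ {d : ℕ} (a : Fin (d + 1) → ℝ) (ℓ : ℝ) {φ : (Fin (d + 1) → ℝ) → ℝ≥0∞}
    (hφ : Measurable φ) :
    ∫⁻ x, φ x ∂cm a ℓ = ∫⁻ t in Icc (a 0) (a 0 + ℓ),
      ∫⁻ y, φ (Fin.cons t y) ∂cm (fun i => a i.succ) ℓ := by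
  have e := measurePreserving_piFinSuccAbove
    (fun i : Fin (d + 1) => (volume : Measure ℝ).restrict (Icc (a i) (a i + ℓ))) 0
  have hc : Measurable fun p : ℝ × (Fin d → ℝ) => (Fin.cons p.1 p.2 : Fin (d + 1) → ℝ) := by
    rw [measurable_pi_iff]
    intro i
    refine Fin.cases ?_ (fun j => ?_) i
    · simpa using measurable_fst
    · have : Measurable fun p : ℝ × (Fin d → ℝ) => p.2 j := by fun_prop
      simpa using this
  have h := e.lintegral_comp (f := fun p : ℝ × (Fin d → ℝ) => φ (Fin.cons p.1 p.2)) (hφ.comp hc)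
  have h2 : ∀ x : Fin (d + 1) → ℝ, φ (Fin.cons
      ((MeasurableEquiv.piFinSuccAbove (fun _ : Fin (d + 1) => ℝ) 0) x).1
      ((MeasurableEquiv.piFinSuccAbove (fun _ : Fin (d + 1) => ℝ) 0) x).2) = φ x := by
    intro x
    congr 1
    exact Fin.cons_self_tail x
  simp only [h2] at h
  unfold cm
  rw [h]
  exact lintegral_prod (fun p : ℝ × (Fin d → ℝ) => φ (Fin.cons p.1 p.2))
    (hφ.comp hc).aemeasurable

/-- Data of a `C¹` function given by its partial derivatives. -/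
structure Par {d : ℕ} (g : (Fin d → ℝ) → F) (G : Fin d → (Fin d → ℝ) → F) : Prop where
  cont : Continuous g
  contG : ∀ i, Continuous (G i)
  deriv : ∀ i x, HasDerivAt (fun t => g (Function.update x i t)) (G i x) (x i)

theorem cont_cons {d : ℕ} : Continuous fun p : ℝ × (Fin d → ℝ) =>
    (Fin.cons p.1 p.2 : Fin (d + 1) → ℝ) := by
  rw [continuous_pi_iff]
  intro i
  refine Fin.cases ?_ (fun j => ?_) i
  · simpa using continuous_fst
  · have : Continuous fun p : ℝ × (Fin d → ℝ) => p.2 j := by fun_prop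
    simpa using this

omit [CompleteSpace F] in
theorem Par.slice {d : ℕ} {g : (Fin (d + 1) → ℝ) → F} {G : Fin (d + 1) → (Fin (d + 1) → ℝ) → F}
    (h : Par g G) (s : ℝ) :
    Par (fun y : Fin d → ℝ => g (Fin.cons s y)) (fun i y => G i.succ (Fin.cons s y)) where
  cont := h.cont.comp (cont_cons.comp (Continuous.prodMk continuous_const continuous_id))
  contG i := (h.contG _).comp (cont_cons.comp (Continuous.prodMk continuous_const continuous_id))
  deriv i y := by
    have := h.deriv i.succ (Fin.cons s y)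
    simp only [Fin.cons_succ] at this
    refine this.congr_of_eventuallyEq (Filter.Eventually.of_forall fun t => ?_)
    show g (Fin.cons s (Function.update y i t)) = g (Function.update (Fin.cons s y) i.succ t)
    rw [Fin.cons_update]

omit [CompleteSpace F] in
theorem Par.line0 {d : ℕ} {g : (Fin (d + 1) → ℝ) → F} {G : Fin (d + 1) → (Fin (d + 1) → ℝ) → F}
    (h : Par g G) (y : Fin d → ℝ) (t : ℝ) :
    HasDerivAt (fun t : ℝ => g (Fin.cons t y)) (G 0 (Fin.cons t y)) t := by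
  have := h.deriv 0 (Fin.cons t y)
  simp only [Fin.cons_zero] at this
  refine this.congr_of_eventuallyEq (Filter.Eventually.of_forall fun t' => ?_)
  show g (Fin.cons t' y) = g (Function.update (Fin.cons t y) 0 t')
  rw [Fin.update_cons_zero]

omit [CompleteSpace F] in
theorem Par.line {d : ℕ} {g : (Fin d → ℝ) → F} {G : Fin d → (Fin d → ℝ) → F}
    (h : Par g G) (x : Fin d → ℝ) (i : Fin d) (t : ℝ) :
    HasDerivAt (fun t : ℝ => g (Function.update x i t)) (G i (Function.update x i t)) t := by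
  have := h.deriv i (Function.update x i t)
  simpa using this

theorem poincare (d : ℕ) (ℓ : ℝ) (hℓ : 0 ≤ ℓ) : ∀ (a : Fin d → ℝ) (g : (Fin d → ℝ) → F)
    (G : Fin d → (Fin d → ℝ) → F), Par g G →
    ∫⁻ x, ∫⁻ y, ‖g x - g y‖ₑ ∂cm a ℓ ∂cm a ℓ ≤
      ENNReal.ofReal (ℓ / 2) * ENNReal.ofReal ℓ ^ d * ∑ i, ∫⁻ x, ‖G i x‖ₑ ∂cm a ℓ := by
  induction d with
  | zero =>
    intro a g G h
    have : ∀ x y : Fin 0 → ℝ, g x - g y = 0 := by
      intro x y
      rw [Subsingleton.elim x y, sub_self]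
    simp [this]
  | succ d ih =>
    intro a g G h
    set c : ℝ≥0∞ := ENNReal.ofReal ℓ with hc
    set I : Measure ℝ := volume.restrict (Icc (a 0) (a 0 + ℓ)) with hI
    set Q : Measure (Fin d → ℝ) := cm (fun i => a i.succ) ℓ with hQ
    have hVQ : Q univ = c ^ d := cm_univ _ _
    have hVI : I univ = c := by rw [hI]; simp [hc]
    have cg := h.cont
    have ccons : Continuous fun p : ℝ × (Fin d → ℝ) => g (Fin.cons p.1 p.2) :=
      cg.comp cont_cons
    -- measurability facts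
    have m4 : Continuous fun p : (ℝ × (Fin d → ℝ)) × (ℝ × (Fin d → ℝ)) =>
        ‖g (Fin.cons p.1.1 p.1.2) - g (Fin.cons p.2.1 p.2.2)‖ₑ := by
      have h1 : Continuous fun p : (ℝ × (Fin d → ℝ)) × (ℝ × (Fin d → ℝ)) =>
        g (Fin.cons p.1.1 p.1.2) := ccons.comp continuous_fst
      have h2 : Continuous fun p : (ℝ × (Fin d → ℝ)) × (ℝ × (Fin d → ℝ)) =>
        g (Fin.cons p.2.1 p.2.2) := ccons.comp continuous_snd
      exact (h1.sub h2).enorm
    have split1 : ∫⁻ x, ∫⁻ y, ‖g x - g y‖ₑ ∂cm a ℓ ∂cm a ℓ =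
        ∫⁻ t, ∫⁻ x, ∫⁻ s, ∫⁻ y, ‖g (Fin.cons t x) - g (Fin.cons s y)‖ₑ ∂Q ∂I ∂Q ∂I := by
      have hm : ∀ x, Measurable fun y => ‖g x - g y‖ₑ := fun x =>
        (continuous_const.sub cg).enorm.measurable
      have hm2 : Measurable fun x => ∫⁻ y, ‖g x - g y‖ₑ ∂cm a ℓ := by
        have : Measurable fun p : (Fin (d + 1) → ℝ) × (Fin (d + 1) → ℝ) => ‖g p.1 - g p.2‖ₑ :=
          ((cg.comp continuous_fst).sub (cg.comp continuous_snd)).enorm.measurable
        exact this.lintegral_prod_right' (ν := cm a ℓ)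
      rw [lintegral_cm_succ a ℓ hm2]
      refine lintegral_congr fun t => lintegral_congr fun x => ?_
      rw [lintegral_cm_succ a ℓ (hm _)]
    have mA : Measurable fun p : ℝ × (Fin d → ℝ) × ℝ =>
        ‖g (Fin.cons p.1 p.2.1) - g (Fin.cons p.2.2 p.2.1)‖ₑ := by
      have : Continuous fun p : ℝ × (Fin d → ℝ) × ℝ => ((p.1, p.2.1), (p.2.2, p.2.1)) := by
        fun_prop
      exact (m4.comp this).measurable
    have mB : Measurable fun p : ℝ × (Fin d → ℝ) × (Fin d → ℝ) =>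
        ‖g (Fin.cons p.1 p.2.1) - g (Fin.cons p.1 p.2.2)‖ₑ := by
      have : Continuous fun p : ℝ × (Fin d → ℝ) × (Fin d → ℝ) => ((p.1, p.2.1), (p.1, p.2.2)) := by
        fun_prop
      exact (m4.comp this).measurable
    have mB' : Measurable fun p : ℝ × (Fin d → ℝ) =>
        ∫⁻ y, ‖g (Fin.cons p.1 p.2) - g (Fin.cons p.1 y)‖ₑ ∂Q := by
      have h1 : Measurable fun q : (ℝ × (Fin d → ℝ)) × (Fin d → ℝ) =>
        (q.1.1, q.1.2, q.2) := by fun_prop
      exact (mB.comp h1).lintegral_prod_right' (ν := Q)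
    have stepA : ∀ t x, ∫⁻ s, ∫⁻ y, ‖g (Fin.cons t x) - g (Fin.cons s y)‖ₑ ∂Q ∂I ≤
        c ^ d * ∫⁻ s, ‖g (Fin.cons t x) - g (Fin.cons s x)‖ₑ ∂I +
          ∫⁻ s, ∫⁻ y, ‖g (Fin.cons s x) - g (Fin.cons s y)‖ₑ ∂Q ∂I := by
      intro t x
      have h1 : ∀ s, ∫⁻ y, ‖g (Fin.cons t x) - g (Fin.cons s y)‖ₑ ∂Q ≤
          c ^ d * ‖g (Fin.cons t x) - g (Fin.cons s x)‖ₑ +
            ∫⁻ y, ‖g (Fin.cons s x) - g (Fin.cons s y)‖ₑ ∂Q := by
        intro s
        calc ∫⁻ y, ‖g (Fin.cons t x) - g (Fin.cons s y)‖ₑ ∂Q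
            ≤ ∫⁻ y, (‖g (Fin.cons t x) - g (Fin.cons s x)‖ₑ +
                ‖g (Fin.cons s x) - g (Fin.cons s y)‖ₑ) ∂Q := by
              refine lintegral_mono fun y => ?_
              have : g (Fin.cons t x) - g (Fin.cons s y) =
                (g (Fin.cons t x) - g (Fin.cons s x)) + (g (Fin.cons s x) - g (Fin.cons s y)) := by
                abel
              rw [this]
              exact enorm_add_le _ _
          _ = _ := by
              rw [lintegral_add_left measurable_const, lintegral_const, hVQ, mul_comm]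
      calc ∫⁻ s, ∫⁻ y, ‖g (Fin.cons t x) - g (Fin.cons s y)‖ₑ ∂Q ∂I
          ≤ ∫⁻ s, (c ^ d * ‖g (Fin.cons t x) - g (Fin.cons s x)‖ₑ +
            ∫⁻ y, ‖g (Fin.cons s x) - g (Fin.cons s y)‖ₑ ∂Q) ∂I := lintegral_mono h1
        _ = _ := by
            have hm : Measurable fun s => ‖g (Fin.cons t x) - g (Fin.cons s x)‖ₑ := by
              have : Measurable fun s : ℝ => (t, x, s) := by fun_prop
              exact mA.comp this
            rw [lintegral_add_left (hm.const_mul _), lintegral_const_mul _ hm]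
    have mA' : Measurable fun p : ℝ × (Fin d → ℝ) =>
        ∫⁻ s, ‖g (Fin.cons p.1 p.2) - g (Fin.cons s p.2)‖ₑ ∂I := by
      have h1 : Measurable fun q : (ℝ × (Fin d → ℝ)) × ℝ => (q.1.1, q.1.2, q.2) := by fun_prop
      exact (mA.comp h1).lintegral_prod_right' (ν := I)
    have mBB : Measurable fun x : Fin d → ℝ =>
        ∫⁻ s, ∫⁻ y, ‖g (Fin.cons s x) - g (Fin.cons s y)‖ₑ ∂Q ∂I := by
      have h1 : Measurable fun q : (Fin d → ℝ) × ℝ => (q.2, q.1) := by fun_prop
      exact (mB'.comp h1).lintegral_prod_right' (ν := I)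
    rw [split1]
    calc ∫⁻ t, ∫⁻ x, ∫⁻ s, ∫⁻ y, ‖g (Fin.cons t x) - g (Fin.cons s y)‖ₑ ∂Q ∂I ∂Q ∂I
        ≤ ∫⁻ t, ∫⁻ x, (c ^ d * ∫⁻ s, ‖g (Fin.cons t x) - g (Fin.cons s x)‖ₑ ∂I +
          ∫⁻ s, ∫⁻ y, ‖g (Fin.cons s x) - g (Fin.cons s y)‖ₑ ∂Q ∂I) ∂Q ∂I :=
          lintegral_mono fun t => lintegral_mono fun x => stepA t x
      _ = ∫⁻ t, (c ^ d * ∫⁻ x, ∫⁻ s, ‖g (Fin.cons t x) - g (Fin.cons s x)‖ₑ ∂I ∂Q +
          ∫⁻ x, ∫⁻ s, ∫⁻ y, ‖g (Fin.cons s x) - g (Fin.cons s y)‖ₑ ∂Q ∂I ∂Q) ∂I := by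
          refine lintegral_congr fun t => ?_
          rw [lintegral_add_right _ mBB, lintegral_const_mul]
          exact mA'.comp (measurable_const.prodMk measurable_id)
      _ = c ^ d * ∫⁻ t, ∫⁻ x, ∫⁻ s, ‖g (Fin.cons t x) - g (Fin.cons s x)‖ₑ ∂I ∂Q ∂I +
          c * ∫⁻ x, ∫⁻ s, ∫⁻ y, ‖g (Fin.cons s x) - g (Fin.cons s y)‖ₑ ∂Q ∂I ∂Q := by
          rw [lintegral_add_right _ measurable_const, lintegral_const, hVI, mul_comm _ c,
            lintegral_const_mul]
          exact mA'.lintegral_prod_right' (ν := Q)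
      _ ≤ c ^ d * (ENNReal.ofReal (ℓ ^ 2 / 2) * ∫⁻ x, ‖G 0 x‖ₑ ∂cm a ℓ) +
          c * (ENNReal.ofReal (ℓ / 2) * c ^ d *
            ∑ i : Fin d, ∫⁻ x, ‖G i.succ x‖ₑ ∂cm a ℓ) := by
          gcongr
          · -- first term
            have hG0 : Measurable fun x => ‖G 0 x‖ₑ := (h.contG 0).enorm.measurable
            have mG : Measurable fun p : ℝ × (Fin d → ℝ) => ‖G 0 (Fin.cons p.1 p.2)‖ₑ :=
              hG0.comp cont_cons.measurable
            calc ∫⁻ t, ∫⁻ x, ∫⁻ s, ‖g (Fin.cons t x) - g (Fin.cons s x)‖ₑ ∂I ∂Q ∂I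
                = ∫⁻ x, ∫⁻ t, ∫⁻ s, ‖g (Fin.cons t x) - g (Fin.cons s x)‖ₑ ∂I ∂I ∂Q :=
                  lintegral_lintegral_swap mA'.aemeasurable
              _ ≤ ∫⁻ x, (ENNReal.ofReal (ℓ ^ 2 / 2) * ∫⁻ t, ‖G 0 (Fin.cons t x)‖ₑ ∂I) ∂Q := by
                  refine lintegral_mono fun x => ?_
                  have hcG : Continuous fun t : ℝ => G 0 (Fin.cons t x) :=
                    (h.contG 0).comp (cont_cons.comp (Continuous.prodMk continuous_id
                      continuous_const))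
                  exact oneD (h := fun t => g (Fin.cons t x)) (h' := fun t => G 0 (Fin.cons t x))
                    (fun t => h.line0 x t) hcG (a 0) ℓ hℓ
              _ = ENNReal.ofReal (ℓ ^ 2 / 2) * ∫⁻ x, ∫⁻ t, ‖G 0 (Fin.cons t x)‖ₑ ∂I ∂Q := by
                  rw [lintegral_const_mul]
                  exact (mG.comp measurable_swap).lintegral_prod_right' (ν := I)
              _ = ENNReal.ofReal (ℓ ^ 2 / 2) * ∫⁻ x, ‖G 0 x‖ₑ ∂cm a ℓ := by
                  rw [lintegral_cm_succ a ℓ hG0]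
                  congr 1
                  exact (lintegral_lintegral_swap mG.aemeasurable).symm
          · calc ∫⁻ x, ∫⁻ s, ∫⁻ y, ‖g (Fin.cons s x) - g (Fin.cons s y)‖ₑ ∂Q ∂I ∂Q
                = ∫⁻ s, ∫⁻ x, ∫⁻ y, ‖g (Fin.cons s x) - g (Fin.cons s y)‖ₑ ∂Q ∂Q ∂I :=
                  (lintegral_lintegral_swap mB'.aemeasurable).symm
              _ ≤ ∫⁻ s, (ENNReal.ofReal (ℓ / 2) * c ^ d *
                    ∑ i : Fin d, ∫⁻ x, ‖G i.succ (Fin.cons s x)‖ₑ ∂Q) ∂I :=
                  lintegral_mono fun s => ih _ _ _ (h.slice s)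
              _ = ENNReal.ofReal (ℓ / 2) * c ^ d *
                    ∑ i : Fin d, ∫⁻ x, ‖G i.succ x‖ₑ ∂cm a ℓ := by
                  have mGi : ∀ i : Fin d, Measurable fun p : ℝ × (Fin d → ℝ) =>
                    ‖G i.succ (Fin.cons p.1 p.2)‖ₑ := fun i =>
                    ((h.contG i.succ).comp cont_cons).enorm.measurable
                  rw [lintegral_const_mul]
                  · rw [lintegral_finsetSum _ fun i _ => (mGi i).lintegral_prod_right' (ν := Q)]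
                    congr 1
                    refine Finset.sum_congr rfl fun i _ => ?_
                    rw [lintegral_cm_succ a ℓ (h.contG i.succ).enorm.measurable]
                  · exact Finset.measurable_sum _ fun i _ =>
                      (mGi i).lintegral_prod_right' (ν := Q)
      _ = ENNReal.ofReal (ℓ / 2) * c ^ (d + 1) * ∑ i, ∫⁻ x, ‖G i x‖ₑ ∂cm a ℓ := by
          have : ENNReal.ofReal (ℓ ^ 2 / 2) = ENNReal.ofReal (ℓ / 2) * c := by
            rw [hc, ← ENNReal.ofReal_mul (by positivity)]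
            congr 1; ring
          rw [this, Fin.sum_univ_succ]
          ring

end Pool.Agent.Lib.P28e
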